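import Mathlib

set_option autoImplicit false

namespace Pool.Agent.Lib.MP_4a944d_co.DW

/-- The join of two graphs: their disjoint union together with all edges between them. -/
def join {V W : Type} (G : SimpleGraph V) (H : SimpleGraph W) : SimpleGraph (V ⊕ W) :=
  (Gᶜ.sum Hᶜ)ᶜ

/-- The edges `a 0, …, a k` of `K_n` (written as increasing pairs) contain a copy of `G`. -/
def Has {V : Type} {n : ℕ} (G : SimpleGraph V) (a : ℕ → Fin n × Fin n) (k : ℕ) : Prop :=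
  ∃ φ : V ↪ Fin n, ∀ u v, G.Adj u v → φ u < φ v → ∃ i ≤ k, a i = (φ u, φ v)

/-- First Player wins the strong game `(K_n, G)` in at most `t` moves. -/
def WinsWithin {V : Type} (G : SimpleGraph V) (n t : ℕ) : Prop :=
  ∃ σ : (i : ℕ) → (Fin i → Fin n × Fin n) → Fin n × Fin n,
    ∀ a b : ℕ → Fin n × Fin n, (∀ i, a i = σ i (fun l : Fin i => b l.val)) →
      (∀ i < t, (b i).1 < (b i).2 ∧ (∀ j ≤ i, b i ≠ a j) ∧ (∀ j < i, b i ≠ b j)) →
      ∃ k < t, (∀ i ≤ k, (a i).1 < (a i).2 ∧ (∀ j < i, a i ≠ a j) ∧ (∀ j < i, a i ≠ b j)) ∧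
        Has G a k ∧ ¬ ∃ j < k, Has G b j

end Pool.Agent.Lib.MP_4a944d_co.DW
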