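import Pool.Agent.Lib.MP_bf69bb_co.WFin
import Pool.Agent.Lib.MP_4a944d_co.DWDefs

set_option autoImplicit false

namespace Pool.Agent.Lib.MP_4a944d_co.DW

open Finset SimpleGraph Sum Pool.Agent.Lib.MP_bf69bb_co.Wh

open Classical in
theorem exists_ok {r : ℕ} (F : SimpleGraph (Fin r)) : ∃ n0 : ℕ, ∀ n, n0 ≤ n →
    ∃ q : Par, Ok q (TG F n) (inl 0) (inl 1) := by
  obtain ⟨P, hP⟩ : ∃ P, P = 5 ^ (r + 1) := ⟨_, rfl⟩
  have hr : r + 1 ≤ P := hP ▸ (Nat.lt_pow_self (by omega)).le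
  obtain ⟨K, hK⟩ : ∃ K, K = 10000 * P := ⟨_, rfl⟩
  refine ⟨10 * K * K + 3, fun n hn => ?_⟩
  obtain ⟨m, rfl⟩ : ∃ m, n = m + 3 := ⟨n - 3, by omega⟩
  obtain ⟨t, ht⟩ : ∃ t, t = (r + m + 3) / K := ⟨_, rfl⟩
  have hK0 : 0 < K := by omega
  have t1 : K * t ≤ r + m + 3 := ht ▸ Nat.mul_div_le _ _
  have t2 : r + m + 3 < K * (t + 1) := ht ▸ Nat.lt_mul_div_succ _ hK0
  have t3 : 10 * K ≤ t := ht ▸ (Nat.le_div_iff_mul_le hK0).2 (by omega)
  obtain ⟨k, hk⟩ : ∃ k, k = 10 * K + 6 := ⟨_, rfl⟩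
  obtain ⟨g, hg⟩ : ∃ g, g = 10 * K + t + 4 := ⟨_, rfl⟩
  obtain ⟨X, hX⟩ : ∃ X, X = 2 * P * (k + g) := ⟨_, rfl⟩
  have x1 : sz k g (r + 1) ≤ X ∧ tot k g (r + 1) ≤ X := by
    have := sz_le k g (r + 1)
    rw [← hP, mul_assoc] at this
    rw [hX, mul_assoc]
    omega
  have x2 : sz k g (r + 1) = 4 * sz k g r + g := rfl
  have x3 : tot k g (r + 1) = tot k g r + sz k g (r + 1) := rfl
  have x4 : k + g ≤ X := hX ▸ Nat.le_mul_of_pos_left _ (by omega)
  have x5 : 600 * X ≤ r + m + 3 := by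
    have : 2 * P * (k + g) ≤ 2 * P * (8 * t) := Nat.mul_le_mul_left _ (by omega)
    have e1 : 2 * P * (8 * t) = 16 * (P * t) := by ring
    have e2 : K * t = 10000 * (P * t) := by rw [hK]; ring
    omega
  have hH : 2 * (5 * (r + m + 3)) ≤ (t + 1) * (10 * K + 1) := by
    have e1 : (t + 1) * (10 * K + 1) = 10 * (K * (t + 1)) + (t + 1) := by ring
    omega
  let q : Par :=
    { N := r + m + 3, D := 4 * X, D0 := 10 * K, Hc := t + 1, Δ := r + 4, r := r,
      e0 := 2 * (r + m + 3) + (m + 3) + 1, L := 2 * (r + m + 3) - 60 * X, w := 7 * X,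
      r0 := m + 1 + tot k g r, M := 5 * (r + m + 3), W := 17 * X, γ := 40 * X, τ := 270 * X,
      ν := 30 * X, Done := Dn r (m + 1) }
  refine ⟨q, tgt F m, fun S A U h1 h2 => ?_,
    fun b b2 S A h1 h2 h3 h4 => done_win F h1 h2 h3 h4, ?_, ?_, hH, ?_, ?_, ?_, ?_, ?_, ?_, ?_, ?_,
    ?_, ?_, ?_, ?_⟩
  · have := cliq (D := 4 * X) (w := 7 * X) (k := k) (r := r) (m := m + 1) (g := g) hH (by omega)
      (by omega) (by omega) (by omega) r 0 S A U ∅ S (by simp) (empty_subset _)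
      (fun x hx => by simp at hx) Subset.rfl (by simp) (by simp) (by simp only [q] at h1; omega)
      h2 (by simp) (by omega)
    rwa [show m + 1 + 1 + tot k g r = m + 1 + tot k g r + 1 by omega] at this
  all_goals
    simp only [q]
    omega


lemma relabel {n : ℕ} (ι : Fin n ↪ ℕ) (K : Finset (Fin n)) (hK : K.card < n) (u : ℕ) :
    ∃ (ι' : Fin n ↪ ℕ) (x : Fin n), (∀ y ∈ K, ι' y = ι y) ∧ ι' x = u := by
  by_cases h : ∃ x, ι x = u
  · obtain ⟨x, hx⟩ := h
    exact ⟨ι, x, fun _ _ => rfl, hx⟩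
  obtain ⟨x, -, hx⟩ := exists_mem_notMem_of_card_lt_card (s := K) (t := univ) (by simpa using hK)
  refine ⟨⟨Function.update ι x u, ?_⟩, x, fun y hy => ?_, Function.update_self _ _ _⟩
  · intro y z hyz
    by_cases h1 : y = x <;> by_cases h2 : z = x
    · rw [h1, h2]
    · rw [h1, Function.update_self, Function.update_of_ne h2] at hyz
      exact absurd ⟨z, hyz.symm⟩ h
    · rw [h2, Function.update_self, Function.update_of_ne h1] at hyz
      exact absurd ⟨y, hyz⟩ h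
    · rw [Function.update_of_ne h1, Function.update_of_ne h2] at hyz
      exact ι.injective hyz
  · exact Function.update_of_ne (fun h' : y = x => hx (h' ▸ hy)) _ _

/-- The image of a set of pairs on the infinite board. -/
def im {n : ℕ} (ι : Fin n ↪ ℕ) (A : Finset (Fin n × Fin n)) : Pos :=
  A.image (fun x => s(ι x.1, ι x.2))

lemma im_insert {n : ℕ} (ι : Fin n ↪ ℕ) (x : Fin n × Fin n) (A : Finset (Fin n × Fin n)) :
    im ι (insert x A) = insert s(ι x.1, ι x.2) (im ι A) := image_insert _ _ _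

lemma mem_im {n : ℕ} {ι : Fin n ↪ ℕ} {A : Finset (Fin n × Fin n)} (hA : ∀ y ∈ A, y.1 < y.2)
    {x : Fin n × Fin n} (hx : x.1 < x.2) : s(ι x.1, ι x.2) ∈ im ι A ↔ x ∈ A := by
  refine ⟨fun h => ?_, fun h => mem_image_of_mem _ h⟩
  obtain ⟨y, hy, h1⟩ := mem_image.1 h
  have := hA y hy
  simp only [Sym2.eq_iff, ι.apply_eq_iff_eq] at h1
  rcases h1 with h1 | h1
  · exact (Prod.ext h1.1 h1.2 : y = x) ▸ hy
  · omega

/-- The vertices touched by a set of pairs. -/
def tv {n : ℕ} (A : Finset (Fin n × Fin n)) : Finset (Fin n) := A.image Prod.fst ∪ A.image Prod.snd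

lemma card_tv {n : ℕ} (A : Finset (Fin n × Fin n)) : (tv A).card ≤ 2 * A.card :=
  (card_union_le _ _).trans (by
    have := card_image_le (s := A) (f := Prod.fst)
    have := card_image_le (s := A) (f := Prod.snd)
    omega)

lemma im_congr {n : ℕ} {ι ι' : Fin n ↪ ℕ} {A X : Finset (Fin n × Fin n)} (hA : A ⊆ X)
    (h : ∀ y ∈ tv X, ι' y = ι y) : im ι' A = im ι A :=
  image_congr fun x hx => by
    rw [h _ (mem_union_left _ (mem_image_of_mem _ (hA hx))),
      h _ (mem_union_right _ (mem_image_of_mem _ (hA hx)))]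

/-- Any edge of the infinite board is the image of an increasing pair after a relabelling of
untouched vertices. -/
lemma pull {n : ℕ} (ι : Fin n ↪ ℕ) (X : Finset (Fin n × Fin n)) (hX : 2 * X.card + 1 < n)
    {f : Sym2 ℕ} (hf : ¬ f.IsDiag) : ∃ (ι' : Fin n ↪ ℕ) (x : Fin n × Fin n),
      (∀ y ∈ tv X, ι' y = ι y) ∧ x.1 < x.2 ∧ s(ι' x.1, ι' x.2) = f := by
  induction f using Sym2.ind with
  | h u v =>
    have h0 := card_tv X
    obtain ⟨ι1, x, h1, h2⟩ := relabel ι (tv X) (by omega) u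
    obtain ⟨ι2, y, h3, h4⟩ := relabel ι1 (insert x (tv X))
      ((card_insert_le _ _).trans_lt (by omega)) v
    have h5 : ι2 x = u := (h3 x (mem_insert_self _ _)).trans h2
    have h6 : ∀ z ∈ tv X, ι2 z = ι z := fun z hz => (h3 z (mem_insert_of_mem hz)).trans (h1 z hz)
    rcases lt_trichotomy x y with h | h | h
    · exact ⟨ι2, (x, y), h6, h, by rw [h5, h4]⟩
    · exact absurd (by simp [← h5, ← h4, h]) hf
    · exact ⟨ι2, (y, x), h6, h, by rw [h5, h4, Sym2.eq_swap]⟩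

lemma exists_seq {P : Type} (F : (i : ℕ) → (Fin i → P) → P) :
    ∃ b : ℕ → P, ∀ i, b i = F i (fun l => b l) := by
  let L : (i : ℕ) → Fin i → P := fun i => Nat.rec (motive := fun i => Fin i → P) Fin.elim0
    (fun i h => Fin.snoc h (F i h)) i
  have hL : ∀ i, L (i + 1) = Fin.snoc (L i) (F i (L i)) := fun i => rfl
  have h : ∀ i, L i = fun l : Fin i => F l (L l) := by
    intro i
    induction i with
    | zero => funext l; exact l.elim0
    | succ i ih =>
      funext l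
      rw [hL]
      induction l using Fin.lastCases with
      | last => simp
      | cast l => rw [Fin.snoc_castSucc, ih]; rfl
  exact ⟨fun i => F i (L i), fun i => congrArg (F i) (h i)⟩

theorem not_within {V : Type} (G : SimpleGraph V) (hV : Nonempty V) (hG : ∀ v, ∃ u, G.Adj u v)
    (Inv : Pos → Pos → Prop) (h0 : Inv ∅ ∅) (hmono : ∀ A A' B, Inv A B → A ⊆ A' → Inv A' B)
    (hstep : ∀ A B e, Inv A B → Disjoint A B → ¬ e.IsDiag → e ∉ A → e ∉ B →
      (Win G A ∨ ¬ Win G (insert e B)) ∧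
        ∃ f, ¬ f.IsDiag ∧ f ∉ insert e B ∧ Inv (insert f A) (insert e B))
    {n t : ℕ} (hn : 4 * t ≤ n) : ¬ WinsWithin G n t := by
  classical
  rintro ⟨σ, hσ⟩
  rcases Nat.eq_zero_or_pos t with rfl | ht
  · obtain ⟨k, hk, -⟩ := hσ (fun i => σ i (fun l => σ 0 Fin.elim0)) (fun _ => σ 0 Fin.elim0)
      (fun _ => rfl) (by simp)
    omega
  let ι0 : Fin n ↪ ℕ := Fin.valEmbedding
  let Pre : Finset (Fin n × Fin n) → Finset (Fin n × Fin n) → Prop := fun A B =>
    ∃ (ι : Fin n ↪ ℕ) (f : Sym2 ℕ), ¬ f.IsDiag ∧ f ∉ im ι B ∧ Inv (insert f (im ι A)) (im ι B)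
  have hτ : ∀ A B : Finset (Fin n × Fin n), ∃ x : Fin n × Fin n, A.card + B.card < 2 * t →
      x.1 < x.2 ∧ x ∉ A ∧ x ∉ B ∧
        (Pre A B → ∃ ι : Fin n ↪ ℕ, Inv (im ι (insert x A)) (im ι B)) := by
    intro A B
    by_cases hc : A.card + B.card < 2 * t
    swap
    · exact ⟨σ 0 Fin.elim0, fun h => absurd h hc⟩
    have hu := card_union_le A B
    have key : ∀ (ι : Fin n ↪ ℕ) (f : Sym2 ℕ), ¬ f.IsDiag → f ∉ im ι A → f ∉ im ι B →
        ∃ (ι' : Fin n ↪ ℕ) (x : Fin n × Fin n), x.1 < x.2 ∧ x ∉ A ∧ x ∉ B ∧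
          im ι' (insert x A) = insert f (im ι A) ∧ im ι' B = im ι B := by
      intro ι f h1 h2 h3
      obtain ⟨ι', x, k1, k2, k3⟩ := pull ι (A ∪ B) (by omega) h1
      have e1 := im_congr (subset_union_left (s₁ := A) (s₂ := B)) k1
      have e2 := im_congr (subset_union_right (s₁ := A) (s₂ := B)) k1
      exact ⟨ι', x, k2, fun h => h2 (e1 ▸ k3 ▸ mem_image_of_mem _ h),
        fun h => h3 (e2 ▸ k3 ▸ mem_image_of_mem _ h), by rw [im_insert, k3, e1], e2⟩
    by_cases hp : Pre A B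
    · obtain ⟨ι, f, h1, h2, h3⟩ := hp
      by_cases h4 : f ∈ im ι A
      · obtain ⟨g, g1, g2⟩ := exists_new (im ι A ∪ im ι B)
        rw [mem_union, not_or] at g2
        obtain ⟨ι', x, k1, k2, k3, k4, k5⟩ := key ι g g1 g2.1 g2.2
        refine ⟨x, fun _ => ⟨k1, k2, k3, fun _ => ⟨ι', ?_⟩⟩⟩
        rw [k4, k5]
        exact hmono _ _ _ h3 (by rw [insert_eq_of_mem h4]; exact subset_insert _ _)
      · obtain ⟨ι', x, k1, k2, k3, k4, k5⟩ := key ι f h1 h4 h2
        exact ⟨x, fun _ => ⟨k1, k2, k3, fun _ => ⟨ι', by rwa [k4, k5]⟩⟩⟩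
    · obtain ⟨g, g1, g2⟩ := exists_new (im ι0 A ∪ im ι0 B)
      rw [mem_union, not_or] at g2
      obtain ⟨ι', x, k1, k2, k3, -⟩ := key ι0 g g1 g2.1 g2.2
      exact ⟨x, fun _ => ⟨k1, k2, k3, fun h => absurd h hp⟩⟩
  choose τ hτ using hτ
  obtain ⟨b, hb⟩ := exists_seq (fun i h => τ (univ.image h) (univ.image
    (fun j : Fin (i + 1) => σ j (fun l : Fin j => h ⟨l, by omega⟩))))
  set a : ℕ → Fin n × Fin n := fun i => σ i (fun l : Fin i => b l.val) with ha
  have hb' : ∀ i, b i = τ ((range i).image b) ((range (i + 1)).image a) := by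
    intro i
    rw [hb i]
    congr 1
    · ext x
      simp only [mem_image, mem_univ, true_and, mem_range]
      exact ⟨fun ⟨l, h⟩ => ⟨l, l.2, h⟩, fun ⟨l, h1, h⟩ => ⟨⟨l, h1⟩, h⟩⟩
    · ext x
      simp only [mem_image, mem_univ, true_and, mem_range]
      exact ⟨fun ⟨l, h⟩ => ⟨l, l.2, h⟩, fun ⟨l, h1, h⟩ => ⟨⟨l, h1⟩, h⟩⟩
  have hs : ∀ i < t, _ := fun i hi => hτ ((range i).image b) ((range (i + 1)).image a) (by
    have := card_image_le (s := range i) (f := b)
    have := card_image_le (s := range (i + 1)) (f := a)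
    simp only [card_range] at *
    omega)
  simp only [← hb'] at hs
  obtain ⟨k, hk, h1, h2, h3⟩ := hσ a b (fun _ => rfl) fun i hi =>
    ⟨(hs i hi).1, fun j hj h => (hs i hi).2.2.1 (mem_image.2 ⟨j, by simp; omega, h.symm⟩),
      fun j hj h => (hs i hi).2.1 (mem_image.2 ⟨j, by simpa using hj, h.symm⟩)⟩
  have lb : ∀ i ≤ k, ∀ y ∈ (range i).image b, y.1 < y.2 := by
    intro i hi y hy
    obtain ⟨j, hj, rfl⟩ := mem_image.1 hy
    exact (hs j (by simp at hj; omega)).1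
  have la : ∀ i ≤ k + 1, ∀ y ∈ (range i).image a, y.1 < y.2 := by
    intro i hi y hy
    obtain ⟨j, hj, rfl⟩ := mem_image.1 hy
    exact (h1 j (by simp at hj; omega)).1
  have st : ∀ i ≤ k, ∀ ι : Fin n ↪ ℕ, Inv (im ι ((range i).image b)) (im ι ((range i).image a)) →
      (Win G (im ι ((range i).image b)) ∨ ¬ Win G (im ι ((range (i + 1)).image a))) ∧
        Pre ((range i).image b) ((range (i + 1)).image a) := by
    intro i hi ι h
    have e1 : im ι ((range (i + 1)).image a) =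
        insert s(ι (a i).1, ι (a i).2) (im ι ((range i).image a)) := by
      rw [range_add_one, image_insert, im_insert]
    obtain ⟨k1, f, k2, k3, k4⟩ := hstep _ _ s(ι (a i).1, ι (a i).2) h (by
        rw [Finset.disjoint_left]
        intro e he he'
        obtain ⟨y, hy, rfl⟩ := mem_image.1 he
        rw [mem_im (la i (by omega)) (lb i hi y hy)] at he'
        obtain ⟨j, hj, rfl⟩ := mem_image.1 hy
        obtain ⟨j', hj', h'⟩ := mem_image.1 he'
        simp only [mem_range] at hj hj'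
        by_cases hjj : j' ≤ j
        · exact (hs j (by omega)).2.2.1 (mem_image.2 ⟨j', by simp; omega, h'⟩)
        · exact (h1 j' (by omega)).2.2 j (by omega) h')
      (by simpa using (h1 i hi).1.ne)
      (by
        rw [mem_im (lb i hi) (h1 i hi).1]
        intro h'
        obtain ⟨j, hj, h'⟩ := mem_image.1 h'
        exact (h1 i hi).2.2 j (by simpa using hj) h'.symm)
      (by
        rw [mem_im (la i (by omega)) (h1 i hi).1]
        intro h'
        obtain ⟨j, hj, h'⟩ := mem_image.1 h'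
        exact (h1 i hi).2.1 j (by simpa using hj) h'.symm)
    rw [← e1] at k1 k3 k4
    exact ⟨k1, ι, f, k2, k3, k4⟩
  have inv : ∀ i ≤ k, ∃ ι : Fin n ↪ ℕ,
      Inv (im ι ((range i).image b)) (im ι ((range i).image a)) := by
    intro i
    induction i with
    | zero => exact fun _ => ⟨ι0, by simpa [im] using h0⟩
    | succ i ih =>
      intro hi
      obtain ⟨ι, h⟩ := ih (by omega)
      obtain ⟨ι', h'⟩ := (hs i (by omega)).2.2.2 (st i (by omega) ι h).2
      exact ⟨ι', by rwa [range_add_one (n := i), image_insert (f := b), ← range_add_one (n := i)]⟩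
  obtain ⟨ι, h⟩ := inv k le_rfl
  rcases (st k le_rfl ι h).1 with h4 | h4
  · obtain ⟨φ, hφ⟩ := h4
    have h5 : ∀ v, ∃ x, ι x = φ v := by
      intro v
      obtain ⟨u, hu⟩ := hG v
      obtain ⟨y, -, hy⟩ := mem_image.1 (hφ u v hu)
      rw [Sym2.eq_iff] at hy
      rcases hy with hy | hy
      · exact ⟨_, hy.2⟩
      · exact ⟨_, hy.1⟩
    choose ψ hψ using h5
    have hk0 : 0 < k := by
      obtain ⟨v⟩ := hV
      obtain ⟨u, hu⟩ := hG v
      by_contra h'
      obtain rfl : k = 0 := by omega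
      simpa [im] using hφ u v hu
    refine h3 ⟨k - 1, by omega, ⟨ψ, fun u v h => φ.injective (by rw [← hψ, ← hψ, h])⟩,
      fun u v huv hlt => ?_⟩
    have h6 := hφ u v huv
    rw [← hψ, ← hψ] at h6
    obtain ⟨j, hj, h7⟩ := mem_image.1 ((mem_im (lb k le_rfl) (x := (ψ u, ψ v)) hlt).1 h6)
    exact ⟨j, by simp at hj; omega, h7⟩
  · obtain ⟨φ, hφ⟩ := h2
    refine h4 ⟨φ.trans ι, fun u v huv => ?_⟩
    have key : ∀ u v, G.Adj u v → φ u < φ v →
        s(ι (φ u), ι (φ v)) ∈ im ι ((range (k + 1)).image a) := by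
      intro u v h hlt
      obtain ⟨i, hi, h'⟩ := hφ u v h hlt
      exact mem_image.2 ⟨a i, mem_image_of_mem _ (by simp; omega), by rw [h']⟩
    rcases lt_trichotomy (φ u) (φ v) with h' | h' | h'
    · exact key u v huv h'
    · exact absurd (φ.injective h') huv.ne
    · exact Sym2.eq_swap ▸ key v u huv.symm h'

theorem slow {r : ℕ} (F : SimpleGraph (Fin r)) : ∃ m0 : ℕ, ∀ m, m0 ≤ m → ∀ n t, 4 * t ≤ n →
    ¬ WinsWithin (TG F m) n t := by
  classical
  obtain ⟨m0, h⟩ := exists_ok F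
  refine ⟨m0, fun m hm n t hn => ?_⟩
  obtain ⟨q, ok⟩ := h m hm
  refine not_within _ ⟨inl 0⟩ (fun v => ?_) (Inv q (TG F m) (inl 0) (inl 1))
    (Or.inr (Or.inl ⟨∅, by simp, by simp, by simp⟩)) (fun A A' B h hA => h.mono hA)
    (fun A B e h hd he heA heB => ?_) hn
  · by_cases hv : v = inl 0
    · exact ⟨inl 1, hv ▸ hub_adj F 0 _ (by simp)⟩
    · exact ⟨inl 0, (hub_adj F 0 v hv).symm⟩
  · rcases h with h | h | h | h | h
    · obtain ⟨f, f1, f2⟩ := exists_new (insert e B)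
      exact ⟨Or.inl h, f, f1, f2, Or.inl (h.mono (subset_insert _ _))⟩
    · exact ⟨Or.inr (h.step ok).1, (h.step ok).2⟩
    · exact ⟨Or.inr (h.step ok hd heA heB).1, (h.step ok hd heA heB).2⟩
    · exact ⟨Or.inr (h.step ok hd heA heB).1, (h.step ok hd heA heB).2⟩
    · exact ⟨Or.inr (h.step ok hd heA heB).1, (h.step ok hd heA heB).2⟩

end Pool.Agent.Lib.MP_4a944d_co.DW
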