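import Mathlib

set_option autoImplicit false

namespace Pool.Agent.Lib.MP_4a944d_co

open Finset

variable {V : Type*} [LinearOrder V]

/-- graph of a set of claimed edges -/
def gr (S : Finset (V × V)) : SimpleGraph V := SimpleGraph.fromRel (fun x y => (x, y) ∈ S)

lemma gr_adj {S : Finset (V × V)} {x y : V} :
    (gr S).Adj x y ↔ x ≠ y ∧ ((x, y) ∈ S ∨ (y, x) ∈ S) := by
  simp [gr, SimpleGraph.fromRel_adj]

lemma gr_mono {S T : Finset (V × V)} (h : S ⊆ T) : gr S ≤ gr T := by
  intro x y hxy
  rw [gr_adj] at hxy ⊢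
  exact ⟨hxy.1, hxy.2.imp (fun a => h a) (fun a => h a)⟩

lemma gr_sdiff_le {S X U : Finset (V × V)} (h : S ⊆ X ∪ U) : gr S \ gr U ≤ gr X := by
  intro x y hxy
  rw [SimpleGraph.sdiff_adj, gr_adj, gr_adj] at hxy
  rw [gr_adj]
  obtain ⟨⟨hne, h1⟩, h2⟩ := hxy
  refine ⟨hne, ?_⟩
  rcases h1 with h1 | h1
  · rcases mem_union.1 (h h1) with h3 | h3
    · exact Or.inl h3
    · exact absurd ⟨hne, Or.inl h3⟩ h2
  · rcases mem_union.1 (h h1) with h3 | h3
    · exact Or.inr h3
    · exact absurd ⟨hne, Or.inr h3⟩ h2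

lemma gr_insert (U : Finset (V × V)) (f : V × V) :
    gr (insert f U) = gr U ⊔ SimpleGraph.edge f.1 f.2 := by
  ext x y
  rw [SimpleGraph.sup_adj, gr_adj, gr_adj, SimpleGraph.edge_adj]
  obtain ⟨a, b⟩ := f
  simp only [mem_insert, Prod.mk.injEq]
  tauto

/-- an unclaimed edge -/
def Free (F S : Finset (V × V)) (e : V × V) : Prop := e.1 < e.2 ∧ e ∉ F ∧ e ∉ S

/-- the player to move, owning `F`, reaches `A` within `t` moves before the other reaches `B` -/
def Win (A B : Finset (V × V) → Prop) : ℕ → Finset (V × V) → Finset (V × V) → Prop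
  | 0, _, _ => False
  | t + 1, F, S => ∃ e, Free F S e ∧ (A (insert e F) ∨
      ∀ f, Free (insert e F) S f → ¬ B (insert f S) ∧ Win A B t (insert e F) (insert f S))

lemma Win.succ {A B : Finset (V × V) → Prop} :
    ∀ {t : ℕ} {F S : Finset (V × V)}, Win A B t F S → Win A B (t + 1) F S := by
  intro t
  induction t with
  | zero => intro F S h; exact h.elim
  | succ t ih =>
    intro F S h
    obtain ⟨e, he, h⟩ := h
    refine ⟨e, he, h.imp id fun h f hf => ⟨(h f hf).1, ih (h f hf).2⟩⟩

lemma exists_free [Fintype V] {F S : Finset (V × V)} (h : F.card + S.card + 1 < Fintype.card V) :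
    ∃ e, Free F S e := by
  classical
  have : Nonempty V := Fintype.card_pos_iff.1 (by omega)
  obtain ⟨m, hm⟩ := exists_min_image (univ : Finset V) id univ_nonempty
  have hcard : (F ∪ S).card < ((univ.erase m).image (fun x => (m, x))).card := by
    rw [card_image_of_injective _ (fun a b hab => (Prod.mk.inj hab).2),
      card_erase_of_mem (mem_univ _), card_univ]
    have := card_union_le F S
    omega
  obtain ⟨e, he, he2⟩ := exists_mem_notMem_of_card_lt_card hcard
  obtain ⟨x, hx, rfl⟩ := mem_image.1 he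
  refine ⟨(m, x), ?_, fun h => he2 (mem_union_left _ h), fun h => he2 (mem_union_right _ h)⟩
  exact lt_of_le_of_ne (hm.2 x (mem_univ _)) (ne_of_mem_erase hx).symm

/-- greedy clique: if every vertex of `N` has at most `m` non-neighbours in `N` (itself included)
and `N` is large, there is a clique. -/
lemma turan (G : SimpleGraph V) [DecidableRel G.Adj] (m : ℕ) :
    ∀ (b : ℕ) (N : Finset V), b * m < N.card + m →
      (∀ v ∈ N, (N.filter (fun x => ¬ G.Adj v x)).card ≤ m) →
      ∃ Q ⊆ N, G.IsNClique b Q := by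
  intro b
  induction b with
  | zero => intro N _ _; exact ⟨∅, empty_subset _, by simp⟩
  | succ b ih =>
    intro N hN h
    have hpos : 0 < N.card := by
      have : (b + 1) * m = b * m + m := by ring
      omega
    obtain ⟨v, hv⟩ := card_pos.1 hpos
    obtain ⟨Q, hQ, hQc⟩ := ih (N.filter (fun x => G.Adj v x)) (by
      have h1 := card_filter_add_card_filter_not (s := N) (fun x => G.Adj v x)
      have h2 := h v hv
      have : (b + 1) * m = b * m + m := by ring
      omega) (fun w hw => le_trans (card_le_card (filter_subset_filter _ (filter_subset _ _)))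
        (h w (mem_filter.1 hw).1))
    refine ⟨insert v Q, insert_subset hv (hQ.trans (filter_subset _ _)), ?_⟩
    exact hQc.insert (fun w hw => (mem_filter.1 (hQ hw)).2)

/-- a graph that is `K_q`-free after removing a forest has no `K_{2q-1}` -/
lemma cliqueFree_of_forest {G T : SimpleGraph V} {q : ℕ} (hq : 0 < q) (hT : T.IsAcyclic)
    (h : (G \ T).CliqueFree q) : G.CliqueFree (2 * q - 1) := by
  classical
  obtain ⟨c⟩ := hT.colorable_two
  intro Q hQ
  have h1 := card_filter_add_card_filter_not (s := Q) (fun x => c x = 0)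
  have hc := hQ.card_eq
  have key : ∀ P : Finset V, P ⊆ Q → q ≤ P.card → (∀ x ∈ P, ∀ y ∈ P, c x = c y) → False := by
    intro P hP hcard hcol
    obtain ⟨P', hP', hc'⟩ := exists_subset_card_eq hcard
    refine h P' ⟨?_, hc'⟩
    intro x hx y hy hxy
    refine ⟨hQ.isClique (hP (hP' hx)) (hP (hP' hy)) hxy, fun hadj => ?_⟩
    exact c.valid hadj (hcol x (hP' hx) y (hP' hy))
  by_cases h0 : q ≤ (Q.filter (fun x => c x = 0)).card
  · exact key _ (filter_subset _ _) h0 (fun x hx y hy => by
      rw [(mem_filter.1 hx).2, (mem_filter.1 hy).2])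
  · refine key (Q.filter (fun x => ¬ c x = 0)) (filter_subset _ _) (by omega) (fun x hx y hy => ?_)
    have hx' := (mem_filter.1 hx).2
    have hy' := (mem_filter.1 hy).2
    generalize c x = a at *
    generalize c y = b at *
    fin_cases a <;> fin_cases b <;> simp_all

end Pool.Agent.Lib.MP_4a944d_co
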