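import Pool.Agent.Lib.MP_4a944d_co.HWin

/-! Choice of the parameters. -/

set_option autoImplicit false

noncomputable section

namespace Pool.Agent.Lib.MP_4a944d_co.Hc

open Finset Filter Real
open scoped Classical Topology

lemma ev_poly (K : ℝ) (n : ℕ) {ε : ℝ} (hε : 0 < ε) :
    ∀ᶠ q : ℕ in atTop, K * (q : ℝ) ^ n ≤ exp (ε * q) := by
  have h := ((isLittleO_pow_exp_pos_mul_atTop n hε).const_mul_left K).eventuallyLE
  filter_upwards [tendsto_natCast_atTop_atTop.eventually h] with q hq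
  exact (le_abs_self _).trans (hq.trans_eq (abs_of_pos (exp_pos _)))

lemma key_ineq {y l β g q r k : ℝ} (hy : y ^ 2 = 1 / 2) (y0 : 0 < y) (l0 : 0 ≤ l) (b0 : 0 ≤ β)
    (g0 : 0 < g) (q0 : 0 < q) (h1 : (β + g) * q ≤ l * (2 - 2 * y) * r) (h2 : q ≤ r) (k0 : 0 ≤ k)
    (h3 : k ≤ (1 - y) * r) (h4 : (1 - y) * r < k + 1) (h5 : 2 * l ≤ y * g * q)
    (h6 : 4 * β ≤ y * g * q) :
    y * g / 4 * q ^ 2 + (r - k) * (β * q) + k ^ 2 * l < r * (r - 1) / 2 * l := by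
  have r0 : 0 < r := q0.trans_le h2
  have a1 : k ^ 2 * l ≤ ((1 - y) * r) ^ 2 * l := by gcongr
  have a2 : (r - k) * (β * q) ≤ (y * r + 1) * (β * q) := by
    gcongr
    linarith
  have a3 : y * r * ((β + g) * q) ≤ y * r * (l * (2 - 2 * y) * r) := by gcongr
  have a4 : y * g * q * q ≤ y * g * q * r := by gcongr
  have a5 : 2 * l * r ≤ y * g * q * r := by gcongr
  have a6 : 4 * β * q ≤ y * g * q * q := by gcongr
  have a7 : 0 < y * g * q * r := by positivity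
  have a8 : y ^ 2 * (l * r ^ 2) = 1 / 2 * (l * r ^ 2) := by rw [hy]
  nlinarith

lemma two_exp (n : ℕ) : (2 : ℝ) ^ n = exp (n * log 2) := by rw [exp_nat_mul, exp_log two_pos]

lemma est_time {a p w q : ℕ} {β : ℝ} (aq : (a : ℝ) ≤ q) (pq : (p : ℝ) ≤ q) (a4 : (3 * a : ℝ) ≤ q + 3)
    (e : 14 * 65 * w * 1728 ^ 2 * (128 * 65 * w) ^ 2 * 4 * (q : ℝ) ^ 20 ≤
      exp ((β - 2 / 3 * log 2) * q)) : (14 * tt a p w : ℝ) ≤ exp (β * q) := by
  have f : ((2 : ℝ) ^ a) ^ 2 ≤ 4 * exp (2 / 3 * log 2 * q) := by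
    rw [← pow_mul, two_exp, show (4 : ℝ) = 2 ^ 2 by norm_num, two_exp, ← exp_add]
    push_cast
    exact exp_le_exp.2 (by nlinarith [log_pos one_lt_two])
  calc (14 * tt a p w : ℝ) = 14 * 65 * w * 1728 ^ 2 * (128 * 65 * w) ^ 2 * (p ^ 14 * a ^ 6) *
        (2 ^ a) ^ 2 := by
        unfold tt
        push_cast
        ring
    _ ≤ 14 * 65 * w * 1728 ^ 2 * (128 * 65 * w) ^ 2 * (q ^ 14 * q ^ 6) *
        (4 * exp (2 / 3 * log 2 * q)) := by gcongr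
    _ = 14 * 65 * w * 1728 ^ 2 * (128 * 65 * w) ^ 2 * 4 * q ^ 20 * exp (2 / 3 * log 2 * q) := by
        ring
    _ ≤ exp ((β - 2 / 3 * log 2) * q) * exp (2 / 3 * log 2 * q) := by gcongr
    _ = _ := by rw [← exp_add]; congr 1; ring

lemma est_grow {a p q : ℕ} {ε : ℝ} (hε : 0 < ε) (q1 : (1 : ℝ) ≤ q) (aq : (a : ℝ) ≤ q)
    (pq : (p : ℝ) ≤ q) (e3 : 16 * 1728 ^ 2 * (q : ℝ) ^ 14 ≤ exp (ε / 8 * q))
    (e4 : 16 * (q : ℝ) ^ 1 ≤ exp (ε / 8 * q)) :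
    (16 * (1728 * p ^ 7) ^ 2 * (16 * a) ^ a : ℝ) ≤ exp (ε / 4 * q ^ 2) := by
  have f : (16 * a : ℝ) ≤ exp (ε / 8 * q) := le_trans (by linarith) (pow_one (q : ℝ) ▸ e4)
  calc _ = 16 * 1728 ^ 2 * (p : ℝ) ^ 14 * (16 * a) ^ a := by ring
    _ ≤ exp (ε / 8 * q) * exp (ε / 8 * q) ^ a := by
        gcongr
        exact le_trans (by gcongr) e3
    _ ≤ _ := by
        rw [← exp_nat_mul, ← exp_add]
        refine exp_le_exp.2 ?_
        have : ε * q * 1 ≤ ε * q * q := by gcongr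
        have : ε * q * a ≤ ε * q * q := by gcongr
        linarith

lemma est_board {a p w q : ℕ} (pq : (p : ℝ) ≤ q) (a3 : (q : ℝ) ≤ 3 * a)
    (e : (32 * w * 1728 ^ 2) ^ 4 * (q : ℝ) ^ 56 ≤ exp (log 2 / 3 * q)) :
    (32 * w * (1728 * p ^ 7) ^ 2) ^ 4 ≤ 2 ^ a := by
  rw [← Nat.cast_le (α := ℝ)]
  push_cast
  calc _ = (32 * w * 1728 ^ 2) ^ 4 * (p : ℝ) ^ 56 := by ring
    _ ≤ exp (log 2 / 3 * q) := le_trans (by gcongr) e
    _ ≤ _ := by
      rw [two_exp]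
      exact exp_le_exp.2 (by nlinarith [log_pos one_lt_two])

lemma est_safe {x t l u v : ℝ} {r k : ℕ} (l0 : 0 ≤ l) (t0 : 0 ≤ t) (hx : x ≤ exp u)
    (ht : t ≤ exp v) (kr : k ≤ r) (h : u + (r - k) * v + k ^ 2 * l < r * (r - 1) / 2 * l) :
    x * t ^ (r - k) * exp l ^ (k * (k - 1)) < exp l ^ r.choose 2 := by
  calc _ ≤ exp u * exp v ^ (r - k) * exp l ^ (k * k) := by
        gcongr
        exacts [one_le_exp l0, Nat.sub_le _ _]
    _ < _ := by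
      rwa [← exp_nat_mul, ← exp_nat_mul, ← exp_nat_mul, ← exp_add, ← exp_add, exp_lt_exp,
        Nat.cast_choose_two, Nat.cast_sub kr, Nat.cast_mul, ← sq]

lemma consts {c α : ℝ} (hc : (2 + √2) / 3 < c) (hα : 2 / 3 < α) : ∃ (y l β g : ℝ) (w : ℕ),
    y ^ 2 = 1 / 2 ∧ 1 / 2 < y ∧ y < 1 ∧ 1 ≤ c ∧ 1 ≤ w ∧ 0 ≤ l ∧ exp l = 2 - 1 / w ∧
      2 / 3 * log 2 < β ∧ β < α * log 2 ∧ 0 < g ∧ l * ((2 - 2 * y) * c) = β + g := by
  obtain ⟨y, hy⟩ : ∃ y : ℝ, √2 = 2 * y := ⟨√2 / 2, by ring⟩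
  have y2 : y ^ 2 = 1 / 2 := by
    have := sq_sqrt (show (0 : ℝ) ≤ 2 by norm_num)
    rw [hy] at this
    linarith
  have y0 : 0 < y := by linarith [sqrt_pos.2 (show (0 : ℝ) < 2 by norm_num)]
  have y1 : 1 / 2 < y := by nlinarith
  have y3 : y < 1 := by nlinarith
  rw [hy] at hc
  have L0 : 0 < log 2 := log_pos one_lt_two
  have c1 : 2 / 3 < (2 - 2 * y) * c := by nlinarith
  obtain ⟨w, hw, w1⟩ : ∃ w : ℕ, 2 / 3 * log 2 < log (2 - 1 / w) * ((2 - 2 * y) * c) ∧ 1 ≤ w := by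
    have t1 : Tendsto (fun w : ℕ => log (2 - 1 / (w : ℝ)) * ((2 - 2 * y) * c)) atTop
        (𝓝 (log (2 - 0) * ((2 - 2 * y) * c))) :=
      ((tendsto_const_nhds.sub tendsto_one_div_atTop_nhds_zero_nat).log (by norm_num)).mul_const _
    exact ((t1.eventually (lt_mem_nhds (by rw [sub_zero]; nlinarith))).and
      (eventually_ge_atTop 1)).exists
  have w1' : (1 : ℝ) ≤ w := by exact_mod_cast w1
  have θ1 : (1 : ℝ) ≤ 2 - 1 / w := by
    have : 1 / (w : ℝ) ≤ 1 := by rwa [div_le_one (by positivity)]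
    linarith
  obtain ⟨β, b1, b2⟩ := exists_between (lt_min hw (mul_lt_mul_of_pos_right hα L0))
  obtain ⟨b2, b3⟩ := lt_min_iff.1 b2
  exact ⟨y, _, β, _, w, y2, y1, y3, by linarith, w1, log_nonneg θ1,
    exp_log (zero_lt_one.trans_le θ1), b1, b3, sub_pos.2 b2, (add_sub_cancel _ _).symm⟩

theorem win_asy {c α : ℝ} (hc : (2 + √2) / 3 < c) (hα : 2 / 3 < α) :
    ∀ᶠ q : ℕ in atTop, ∃ t n₀ : ℕ, (t : ℝ) ≤ 2 ^ (α * q) ∧ ∀ n, n₀ ≤ n →
      Win (V := Fin n) (Has q) (fun S => ∃ Q : Finset (Fin n), c * q ≤ Q.card ∧ Cl S Q) t ∅ ∅ := by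
  obtain ⟨y, l, β, g, w, y2, y1, y3, c1, w1, l0, eθ, b1, b3, g0, hg⟩ := consts hc hα
  have y0 : 0 < y := by linarith
  have L0 : 0 < log 2 := log_pos one_lt_two
  have b0 : 0 < β := by linarith
  have yg : 0 < y * g := by positivity
  filter_upwards [ev_poly (14 * 65 * w * 1728 ^ 2 * (128 * 65 * w) ^ 2 * 4) 20 (sub_pos.2 b1),
    ev_poly ((32 * w * 1728 ^ 2) ^ 4) 56 (show 0 < log 2 / 3 by positivity),
    ev_poly (16 * 1728 ^ 2) 14 (show 0 < y * g / 8 by positivity),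
    ev_poly 16 1 (show 0 < y * g / 8 by positivity), eventually_ge_atTop 6,
    (tendsto_natCast_atTop_atTop.const_mul_atTop yg).eventually_ge_atTop (2 * l),
    (tendsto_natCast_atTop_atTop.const_mul_atTop yg).eventually_ge_atTop (4 * β)]
    with q e1 e2 e3 e4 q6 e5 e6
  obtain ⟨a, ha⟩ : ∃ a, a = (q + 2) / 3 := ⟨_, rfl⟩
  obtain ⟨p, hp⟩ : ∃ p, q = a + p := ⟨q - a, by omega⟩
  have q1 : (1 : ℝ) ≤ q := by exact_mod_cast (by omega)
  have aq : (a : ℝ) ≤ q := by exact_mod_cast (by omega)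
  have pq : (p : ℝ) ≤ q := by exact_mod_cast (by omega)
  have E1 := est_time aq pq (by exact_mod_cast (by omega)) e1
  have E2 := est_board (a := a) pq (by exact_mod_cast (by omega)) e2
  have E3 := est_grow yg q1 aq pq e3 e4
  clear e1 e2 e3 e4
  have cr := Nat.le_ceil (c * q)
  have qr : (q : ℝ) ≤ ⌈c * q⌉₊ := (le_mul_of_one_le_left (by positivity) c1).trans cr
  have r0 : (0 : ℝ) ≤ (1 - y) * ⌈c * q⌉₊ := mul_nonneg (by linarith) (by positivity)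
  have k1 := Nat.floor_le r0
  have k2 := Nat.lt_floor_add_one ((1 - y) * ⌈c * q⌉₊)
  simp only [← Nat.ceil_le]
  generalize ⌈c * q⌉₊ = r at cr qr r0 k1 k2
  generalize ⌊(1 - y) * r⌋₊ = k at k1 k2
  have kr : 2 * k ≤ r := by
    rw [← Nat.cast_le (α := ℝ)]
    push_cast
    linarith [mul_le_mul_of_nonneg_right y1.le (Nat.cast_nonneg r)]
  obtain ⟨n₀, h⟩ := win_param (k := k) (a := a) (p := p) (r := r) w1 (by omega) (by omega) E2 kr
    (le_trans (show 2 ≤ q by omega) (by exact_mod_cast qr)) (eθ ▸ est_safe l0 (by positivity) E3 E1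
      (by omega) (key_ineq y2 y0 l0 b0.le g0 (by linarith) (by
        rw [← hg, mul_assoc l, mul_assoc l, mul_assoc]
        exact mul_le_mul_of_nonneg_left (mul_le_mul_of_nonneg_left cr (by linarith)) l0)
        qr (by positivity) k1 k2 e5 e6))
  refine ⟨14 * tt a p w, n₀, ?_, hp ▸ h⟩
  push_cast
  refine E1.trans ?_
  rw [rpow_def_of_pos two_pos]
  exact exp_le_exp.2 (by linarith [mul_le_mul_of_nonneg_right b3.le (Nat.cast_nonneg q)])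

end Pool.Agent.Lib.MP_4a944d_co.Hc
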