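import Pool.Agent.Lib.MP_4a944d_co.HZone

/-! The fourth moment potential for building a clique on a small board. -/

set_option autoImplicit false

noncomputable section

namespace Pool.Agent.Lib.MP_4a944d_co.Hc

open Finset
open scoped Classical

variable {V : Type*} [LinearOrder V] (W : Finset V) (p : ℕ)

def Fm (T : Finset V) : Finset (Finset V) := (powersetCard p W).filter (T ⊆ ·)

def La : (Finset (V × V) → ℝ) →ₗ[ℝ] ℝ := ∑ A ∈ powersetCard p W, LinearMap.proj (Ed A)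

def Lb : (Finset (V × V) → ℝ) →ₗ[ℝ] ℝ := ∑ T ∈ powersetCard 3 W, ∑ A ∈ Fm W p T, ∑ B ∈ Fm W p T,
  ∑ C ∈ Fm W p T, ∑ D ∈ Fm W p T, LinearMap.proj (Ed A ∪ Ed B ∪ Ed C ∪ Ed D)

variable {W p}

lemma La_apply (φ : Finset (V × V) → ℝ) : La W p φ = ∑ A ∈ powersetCard p W, φ (Ed A) := by
  simp [La]

lemma Lb_apply (φ : Finset (V × V) → ℝ) : Lb W p φ = ∑ T ∈ powersetCard 3 W, ∑ A ∈ Fm W p T,
    ∑ B ∈ Fm W p T, ∑ C ∈ Fm W p T, ∑ D ∈ Fm W p T, φ (Ed A ∪ Ed B ∪ Ed C ∪ Ed D) := by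
  simp only [Lb, LinearMap.sum_apply, LinearMap.proj_apply]

lemma mem_Fm {T A : Finset V} : A ∈ Fm W p T ↔ (A ⊆ W ∧ A.card = p) ∧ T ⊆ A := by
  simp [Fm, mem_powersetCard]

lemma Ed_mono {A B : Finset V} (h : A ⊆ B) : Ed A ⊆ Ed B := fun _ he =>
  mem_Ed.2 ⟨h (mem_Ed.1 he).1, h (mem_Ed.1 he).2.1, (mem_Ed.1 he).2.2⟩

lemma Lb_nonneg {φ : Finset (V × V) → ℝ} (h : ∀ E, 0 ≤ φ E) : 0 ≤ Lb W p φ := by
  rw [Lb_apply]
  exact sum_nonneg fun _ _ => sum_nonneg fun _ _ => sum_nonneg fun _ _ => sum_nonneg fun _ _ =>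
    sum_nonneg fun _ _ => h _

lemma beck_supp (l : ℝ) (φ : Finset (V × V) → ℝ) (h : ∀ E ⊆ Ed W, φ E = 0) :
    (La W p - l • Lb W p) φ = 0 := by
  rw [LinearMap.sub_apply, LinearMap.smul_apply, La_apply, Lb_apply, sum_eq_zero fun A hA =>
    h _ (Ed_mono (mem_powersetCard.1 hA).1), sum_eq_zero, smul_zero, sub_zero]
  exact fun T _ => sum_eq_zero fun A hA => sum_eq_zero fun B hB => sum_eq_zero fun C hC =>
    sum_eq_zero fun D hD => h _ (union_subset (union_subset (union_subset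
      (Ed_mono (mem_Fm.1 hA).1.1) (Ed_mono (mem_Fm.1 hB).1.1)) (Ed_mono (mem_Fm.1 hC).1.1))
      (Ed_mono (mem_Fm.1 hD).1.1))

variable {X D : Finset (V × V)}

lemma nu_union (E E' : Finset (V × V)) : nu X D E * nu X D E' ≤ nu X D (E ∪ E') := by
  simp only [nu, disjoint_union_left]
  by_cases a : Disjoint E D <;> by_cases b : Disjoint E' D <;> simp only [a, b, if_true, if_false,
    and_self, and_false, false_and, mul_zero, zero_mul, le_refl]
  rw [← pow_add, union_sdiff_distrib]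
  exact pow_le_pow_of_le_one (by norm_num) (by norm_num) (card_union_le _ _)

lemma pow_four (s : Finset (Finset V)) : (∑ A ∈ s, nu X D (Ed A)) ^ 4 ≤
    ∑ A ∈ s, ∑ B ∈ s, ∑ C ∈ s, ∑ E ∈ s, nu X D (Ed A ∪ Ed B ∪ Ed C ∪ Ed E) := by
  set t := ∑ A ∈ s, nu X D (Ed A) with ht
  have t0 : 0 ≤ t := sum_nonneg fun _ _ => nu_nonneg
  have st : ∀ (E : Finset (V × V)) (n : ℕ), nu X D E * t ^ (n + 1) ≤
      ∑ A ∈ s, nu X D (E ∪ Ed A) * t ^ n := fun E n => by
    rw [pow_succ', ← mul_assoc, ← sum_mul, ht, mul_sum]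
    exact mul_le_mul_of_nonneg_right (sum_le_sum fun A _ => nu_union _ _) (by positivity)
  rw [pow_succ', ht, sum_mul]
  refine sum_le_sum fun A _ => (st _ 2).trans (sum_le_sum fun B _ => (st _ 1).trans
    (sum_le_sum fun C _ => (st _ 0).trans (le_of_eq ?_)))
  simp only [pow_zero, mul_one]

theorem beck_max (hp : 3 ≤ p) {l σ : ℝ} (hl : 0 < l) (hσ : 0 ≤ σ) (h : (W.card : ℝ) ^ 3 ≤ σ ^ 4)
    (X D : Finset (V × V)) (h0 : 0 ≤ (La W p - (l ^ 3)⁻¹ • Lb W p) (nu X D)) :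
    (La W p - (l ^ 3)⁻¹ • Lb W p) (nu X D) ≤ W.card ^ 3 * l ∧
      ∀ x y, x ≠ y → (La W p - (l ^ 3)⁻¹ • Lb W p) (g2 x y X D) ≤ σ * l := by
  simp only [LinearMap.sub_apply, LinearMap.smul_apply, smul_eq_mul] at h0 ⊢
  set t : Finset V → ℝ := fun T => ∑ A ∈ Fm W p T, nu X D (Ed A) with ht
  have t0 : ∀ T, 0 ≤ t T := fun T => sum_nonneg fun _ _ => nu_nonneg
  have a0 : 0 ≤ La W p (nu X D) := by
    rw [La_apply]
    exact sum_nonneg fun _ _ => nu_nonneg
  have b0 := Lb_nonneg (W := W) (p := p) (φ := nu X D) fun _ => nu_nonneg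
  have a1 : La W p (nu X D) ≤ ∑ T ∈ powersetCard 3 W, t T := by
    simp only [La_apply, ht, Fm, sum_filter]
    rw [sum_comm]
    refine sum_le_sum fun A hA => ?_
    obtain ⟨T, a, b⟩ := exists_subset_card_eq (hp.trans (mem_powersetCard.1 hA).2.ge)
    refine le_trans (if_pos a).ge (single_le_sum (f := fun T => if T ⊆ A then nu X D (Ed A) else 0)
      (fun _ _ => ?_) (mem_powersetCard.2 ⟨a.trans (mem_powersetCard.1 hA).1, b⟩))
    split_ifs
    exacts [nu_nonneg, le_rfl]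
  have a2 : ∑ T ∈ powersetCard 3 W, t T ^ 4 ≤ Lb W p (nu X D) := by
    rw [Lb_apply]
    exact sum_le_sum fun T _ => pow_four _
  have a3 : Lb W p (nu X D) ≤ l ^ 3 * La W p (nu X D) := by
    rw [← inv_mul_le_iff₀ (by positivity)]
    linarith
  have a4 : La W p (nu X D) ≤ W.card ^ 3 * l := by
    have c : ((powersetCard 3 W).card : ℝ) ≤ W.card ^ 3 := by
      rw [card_powersetCard]
      exact_mod_cast Nat.choose_le_pow _ _
    have e : La W p (nu X D) ^ 3 * La W p (nu X D) ≤ (W.card ^ 3 * l) ^ 3 * La W p (nu X D) :=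
      calc _ = La W p (nu X D) ^ (3 + 1) := by ring
        _ ≤ (∑ T ∈ powersetCard 3 W, t T) ^ (3 + 1) := by gcongr
        _ ≤ _ := pow_sum_le_card_mul_sum_pow (fun T _ => t0 T) 3
        _ ≤ (W.card ^ 3) ^ 3 * (l ^ 3 * La W p (nu X D)) :=
          mul_le_mul (by gcongr) (a2.trans a3) (sum_nonneg fun T _ => pow_nonneg (t0 T) _)
            (by positivity)
        _ = _ := by ring
    rcases a0.eq_or_lt with z | z
    · rw [← z]
      positivity
    · exact le_of_pow_le_pow_left₀ three_ne_zero (by positivity) (le_of_mul_le_mul_right e z)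
  refine ⟨by linarith [mul_nonneg (inv_nonneg.2 (pow_pos hl 3).le) b0], fun x y xy => ?_⟩
  have g0 : ∀ E, 0 ≤ g2 x y X D E := fun E => by
    unfold g2
    split_ifs
    exacts [nu_nonneg, le_rfl]
  refine le_trans (sub_le_self _ (mul_nonneg (by positivity) (Lb_nonneg g0))) ?_
  rw [La_apply]
  by_cases ex : ∃ A ∈ powersetCard p W, x ∈ Ed A ∧ y ∈ Ed A
  swap
  · exact (sum_eq_zero fun A hA => if_neg fun a => ex ⟨A, hA, a⟩).trans_le (by positivity)
  obtain ⟨A, hA, hx, hy⟩ := ex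
  rw [mem_Ed] at hx hy
  obtain ⟨z, z1, z2, z3⟩ : ∃ z, (z = y.1 ∨ z = y.2) ∧ z ≠ x.1 ∧ z ≠ x.2 := by
    by_contra! n
    have n1 := or_iff_not_imp_left.2 (n _ (.inl rfl))
    have n2 := or_iff_not_imp_left.2 (n _ (.inr rfl))
    have := hx.2.2
    have := hy.2.2
    rcases n1 with n1 | n1 <;> rcases n2 with n2 | n2 <;>
      first | order | exact xy (Prod.ext n1.symm n2.symm)
  have m : ∀ B : Finset V, x.1 ∈ B → x.2 ∈ B → y.1 ∈ B → y.2 ∈ B → {x.1, x.2, z} ⊆ B := by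
    intro B b1 b2 b3 b4
    rcases z1 with rfl | rfl <;> simp [insert_subset_iff, *]
  have hT : {x.1, x.2, z} ∈ powersetCard 3 W := mem_powersetCard.2
    ⟨(m A hx.1 hx.2.1 hy.1 hy.2.1).trans (mem_powersetCard.1 hA).1,
      card_eq_three.2 ⟨_, _, _, hx.2.2.ne, z2.symm, z3.symm, rfl⟩⟩
  refine le_trans (b := t {x.1, x.2, z}) ?_ (le_of_pow_le_pow_left₀ four_ne_zero (by positivity) ?_)
  · simp only [ht, Fm, sum_filter, g2]
    refine sum_le_sum fun B _ => ?_
    split_ifs with c1 c2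
    · rfl
    · exact absurd (m B (mem_Ed.1 c1.1).1 (mem_Ed.1 c1.1).2.1 (mem_Ed.1 c1.2).1
        (mem_Ed.1 c1.2).2.1) c2
    · exact nu_nonneg
    · rfl
  · calc _ ≤ _ := single_le_sum (f := fun T => t T ^ 4) (fun T _ => pow_nonneg (t0 T) 4) hT
      _ ≤ l ^ 3 * (σ ^ 4 * l) := a2.trans (a3.trans (by
        gcongr
        exact a4.trans (by gcongr)))
      _ = _ := by ring

lemma choose_ratio {M : ℕ} (h : 2 * p ≤ M) :
    ∀ j ≤ p, M.choose (p - j) * M ^ j ≤ M.choose p * (2 * p) ^ j := by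
  intro j
  induction j with
  | zero => simp
  | succ j ih =>
    intro hj
    obtain ⟨i, hi⟩ : ∃ i, p - j = i + 1 := ⟨p - j - 1, by omega⟩
    have a := ih (by omega)
    rw [show p - (j + 1) = i by omega]
    rw [hi] at a
    have b : M.choose i * M ≤ M.choose (i + 1) * (2 * p) :=
      calc _ ≤ M.choose i * (2 * (M - i)) := by gcongr; omega
        _ = M.choose (i + 1) * (2 * (i + 1)) := by
          rw [mul_left_comm, ← Nat.choose_succ_right_eq]; ring
        _ ≤ _ := by gcongr; omega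
    calc _ = M.choose i * M * M ^ j := by ring
      _ ≤ M.choose (i + 1) * (2 * p) * M ^ j := by gcongr
      _ = M.choose (i + 1) * M ^ j * (2 * p) := by ring
      _ ≤ M.choose p * (2 * p) ^ j * (2 * p) := by gcongr
      _ = _ := by ring

lemma fiber (Z : Finset V) (j : ℕ) {s : Finset (Finset V)} (hs : ∀ A ∈ s, A ⊆ W ∧ A.card = p ∧
    (A ∩ Z).card = j) : s.card ≤ Z.card.choose j * W.card.choose (p - j) := by
  rw [← card_powersetCard, ← card_powersetCard, ← card_product]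
  refine card_le_card_of_injOn (fun A => (A ∩ Z, A \ Z)) (fun A hA => ?_) fun A _ B _ e => ?_
  · obtain ⟨a, b, c⟩ := hs A hA
    have := card_sdiff_add_card_inter A Z
    exact mem_product.2 ⟨mem_powersetCard.2 ⟨inter_subset_right, c⟩,
      mem_powersetCard.2 ⟨sdiff_subset.trans a, by simp only; omega⟩⟩
  · rw [← sdiff_union_inter A Z, ← sdiff_union_inter B Z, (Prod.mk.inj e).1, (Prod.mk.inj e).2]

variable {a : ℕ} (hp : 3 ≤ p) (ha : p ≤ 2 * a) (hM : 12 * p ^ 2 * 2 ^ a ≤ W.card)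

omit [LinearOrder V] in
include hp hM in
lemma two_p : 2 * p ≤ W.card := by
  have : 1 ≤ 2 ^ a := Nat.one_le_two_pow
  nlinarith

include hp ha hM in
lemma beck_step {T Z : Finset V} {E : Finset (V × V)} (hT : T.card = 3) (hTZ : T ⊆ Z)
    (hZ : Z.card ≤ 3 * p) (hE : E ⊆ Ed Z) : ∑ A ∈ Fm W p T, (1 / 2 : ℝ) ^ (E ∪ Ed A).card ≤
      (1 / 2) ^ E.card * (1728 * p ^ 7 * (W.card.choose p * (1 / 2) ^ p.choose 2) / W.card ^ 3) := by
  have M0 : (0 : ℝ) < W.card := by exact_mod_cast (show 0 < W.card by have := two_p hp hM; omega)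
  have a1 : ∀ A ∈ Fm W p T, (1 / 2 : ℝ) ^ (E ∪ Ed A).card ≤
      (1 / 2) ^ E.card * (1 / 2) ^ p.choose 2 * 2 ^ (A ∩ Z).card.choose 2 := fun A hA => by
    have c1 := card_union_add_card_inter E (Ed A)
    have c2 : (E ∩ Ed A).card ≤ (A ∩ Z).card.choose 2 := by
      rw [← card_Ed]
      refine card_le_card fun e he => ?_
      obtain ⟨u, v⟩ := mem_inter.1 he
      have u := mem_Ed.1 (hE u)
      have v := mem_Ed.1 v
      exact mem_Ed.2 ⟨mem_inter.2 ⟨v.1, u.1⟩, mem_inter.2 ⟨v.2.1, u.2.1⟩, v.2.2⟩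
    rw [card_Ed, (mem_Fm.1 hA).1.2] at c1
    rw [← pow_add, ← c1, pow_add, mul_assoc]
    refine le_mul_of_one_le_right (by positivity) ?_
    rw [one_div, inv_pow, le_inv_mul_iff₀ (by positivity), mul_one]
    exact pow_le_pow_right₀ one_le_two c2
  have a2 : ∀ j ∈ Icc 3 p, ∑ A ∈ Fm W p T with (A ∩ Z).card = j, (2 : ℝ) ^ (A ∩ Z).card.choose 2 ≤
      1728 * p ^ 6 * W.card.choose p / W.card ^ 3 := fun j hj => by
    obtain ⟨j1, j2⟩ := mem_Icc.1 hj
    obtain ⟨i, rfl⟩ := Nat.exists_eq_add_of_le j1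
    rw [sum_congr rfl fun A hA => by rw [(mem_filter.1 hA).2], sum_const, nsmul_eq_mul,
      le_div_iff₀ (by positivity)]
    have c1 := fiber (W := W) (p := p) Z (3 + i) (s := (Fm W p T).filter
      fun A => (A ∩ Z).card = 3 + i) fun A hA => ⟨(mem_Fm.1 (mem_filter.1 hA).1).1.1,
        (mem_Fm.1 (mem_filter.1 hA).1).1.2, (mem_filter.1 hA).2⟩
    have c2 : Z.card.choose (3 + i) ≤ (3 * p) ^ (3 + i) :=
      (Nat.choose_le_pow _ _).trans (Nat.pow_le_pow_left hZ _)
    have c3 := choose_ratio (two_p hp hM) _ j2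
    have c4 : (3 + i).choose 2 ≤ 3 + (a + 1) * i := by
      rw [Nat.choose_two_right, show 3 + i - 1 = 2 + i by omega]
      refine Nat.div_le_of_le_mul ?_
      nlinarith
    norm_cast
    refine Nat.le_of_mul_le_mul_right ?_ (show 0 < W.card ^ i by exact_mod_cast pow_pos M0 i)
    calc _ ≤ (3 * p) ^ (3 + i) * W.card.choose (p - (3 + i)) * 2 ^ (3 + (a + 1) * i) * W.card ^ 3 *
          W.card ^ i := by
          gcongr
          · exact c1.trans (by gcongr)
          · norm_num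
      _ = (3 * p) ^ (3 + i) * 2 ^ (3 + (a + 1) * i) *
          (W.card.choose (p - (3 + i)) * W.card ^ (3 + i)) := by ring
      _ ≤ (3 * p) ^ (3 + i) * 2 ^ (3 + (a + 1) * i) * (W.card.choose p * (2 * p) ^ (3 + i)) := by
          gcongr
      _ = 1728 * p ^ 6 * W.card.choose p * (12 * p ^ 2 * 2 ^ a) ^ i := by
          rw [show 12 * p ^ 2 * 2 ^ a = (3 * p) * (2 * p) * 2 ^ (a + 1) by ring, mul_pow (_ * _),
            mul_pow (3 * p) (2 * p), pow_add (3 * p), pow_add (2 * p), pow_add 2 3, pow_mul]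
          ring
      _ ≤ _ := by gcongr
  refine (sum_le_sum a1).trans ?_
  rw [← mul_sum, ← sum_fiberwise_of_maps_to (t := Icc 3 p) (g := fun A => (A ∩ Z).card)
    fun A hA => mem_Icc.2 ⟨hT ▸ card_le_card (subset_inter (mem_Fm.1 hA).2 hTZ),
      (card_le_card inter_subset_left).trans (mem_Fm.1 hA).1.2.le⟩]
  have a3 := sum_le_card_nsmul _ _ _ a2
  rw [nsmul_eq_mul, Nat.card_Icc] at a3
  have a4 : ((p + 1 - 3 : ℕ) : ℝ) ≤ p := by exact_mod_cast (by omega)
  calc _ ≤ (1 / 2 : ℝ) ^ E.card * (1 / 2) ^ p.choose 2 *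
        (p * (1728 * p ^ 6 * W.card.choose p / W.card ^ 3)) := by
        gcongr
        exact a3.trans (by gcongr)
    _ = _ := by ring

include hp ha hM in
theorem beck_up (D : Finset (V × V)) : Lb W p (nu ∅ D) ≤ W.card ^ 3 *
    (1728 * p ^ 7 * (W.card.choose p * (1 / 2) ^ p.choose 2) / W.card ^ 3) ^ 4 := by
  set H : ℝ := 1728 * p ^ 7 * (W.card.choose p * (1 / 2) ^ p.choose 2) / W.card ^ 3 with hH
  have H0 : 0 ≤ H := by positivity
  rw [Lb_apply]
  refine (sum_le_card_nsmul _ _ (H ^ 4) fun T hT => ?_).trans ?_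
  · have hT := (mem_powersetCard.1 hT).2
    have st : ∀ {Z : Finset V} {E : Finset (V × V)} (n : ℕ), T ⊆ Z → Z.card ≤ 3 * p → E ⊆ Ed Z →
        ∑ A ∈ Fm W p T, (1 / 2 : ℝ) ^ (E ∪ Ed A).card * H ^ n ≤ (1 / 2) ^ E.card * H ^ (n + 1) :=
      fun n a b c => by
        rw [← sum_mul, pow_succ', ← mul_assoc]
        exact mul_le_mul_of_nonneg_right (beck_step hp ha hM hT a b c) (by positivity)
    refine le_trans (sum_le_sum fun A hA => ?_) ((st (E := ∅) 3 (Subset.refl T) (by omega)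
      (empty_subset _)).trans (by simp))
    rw [mem_Fm] at hA
    rw [empty_union]
    refine le_trans (sum_le_sum fun B hB => ?_) (st 2 hA.2 (by omega) (Subset.refl _))
    rw [mem_Fm] at hB
    have c1 := card_union_le A B
    have s1 : Ed A ∪ Ed B ⊆ Ed (A ∪ B) :=
      union_subset (Ed_mono subset_union_left) (Ed_mono subset_union_right)
    refine le_trans (sum_le_sum fun C hC => ?_)
      (st 1 (hA.2.trans subset_union_left) (by omega) s1)
    rw [mem_Fm] at hC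
    have c2 := card_union_le (A ∪ B) C
    refine le_trans (sum_le_sum fun E _ => ?_) (st (Z := A ∪ B ∪ C) 0
      (hC.2.trans subset_union_right) (by omega)
      (union_subset (s1.trans (Ed_mono subset_union_left)) (Ed_mono subset_union_right)))
    rw [nu, sdiff_empty, pow_zero, mul_one]
    split_ifs
    exacts [le_rfl, by positivity]
  · rw [nsmul_eq_mul, card_powersetCard]
    gcongr
    exact_mod_cast Nat.choose_le_pow _ _

include hp hM in
theorem beck_low {D : Finset (V × V)} (hD : D.card * (8 * p ^ 2) ≤ W.card ^ 2) :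
    W.card.choose p * (1 / 2) ^ p.choose 2 / 2 ≤ La W p (nu ∅ D) := by
  have c1 : ((powersetCard p W).filter fun A => ¬ Disjoint (Ed A) D).card ≤
      D.card * W.card.choose (p - 2) := by
    refine le_trans (card_le_card (t := D.biUnion fun e => (powersetCard p W).filter
      fun A => e ∈ Ed A) fun A hA => ?_) (card_biUnion_le_card_mul _ _ _ fun e _ => ?_)
    · obtain ⟨e, a, b⟩ := not_disjoint_iff.1 (mem_filter.1 hA).2
      exact mem_biUnion.2 ⟨e, b, mem_filter.2 ⟨(mem_filter.1 hA).1, a⟩⟩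
    · refine (fiber (W := W) (p := p) {e.1, e.2} 2 fun A hA => ?_).trans ?_
      · obtain ⟨a, b⟩ := mem_filter.1 hA
        rw [mem_Ed] at b
        refine ⟨(mem_powersetCard.1 a).1, (mem_powersetCard.1 a).2, ?_⟩
        rw [inter_eq_right.2 (by simp [insert_subset_iff, b.1, b.2.1]), card_pair b.2.2.ne]
      · exact (Nat.mul_le_mul_right _ (Nat.choose_le_choose 2 card_le_two)).trans (by simp)
  have c2 := choose_ratio (two_p hp hM) 2 (by omega)
  have c3 := card_filter_add_card_filter_not (s := powersetCard p W) fun A => Disjoint (Ed A) D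
  rw [card_powersetCard] at c3
  have c4 : 2 * (D.card * W.card.choose (p - 2)) ≤ W.card.choose p := by
    refine Nat.le_of_mul_le_mul_right ?_ (show 0 < (2 * p) ^ 2 by positivity)
    calc _ = W.card.choose (p - 2) * (D.card * (8 * p ^ 2)) := by ring
      _ ≤ _ := (Nat.mul_le_mul_left _ hD).trans c2
  have c5 : (W.card.choose p : ℝ) ≤ 2 * ((powersetCard p W).filter fun A => Disjoint (Ed A) D).card := by
    exact_mod_cast (by omega)
  rw [La_apply]
  simp only [nu, sdiff_empty]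
  rw [← sum_filter, sum_congr rfl fun A hA => by
    rw [card_Ed, (mem_powersetCard.1 (mem_filter.1 hA).1).2], sum_const, nsmul_eq_mul]
  nlinarith [pow_pos (show (0 : ℝ) < 1 / 2 by norm_num) (p.choose 2)]

theorem beck_end (h : 0 < La W p (nu X D)) (hW : Ed W ⊆ X ∪ D) :
    ∃ A ⊆ W, A.card = p ∧ Ed A ⊆ X := by
  rw [La_apply] at h
  obtain ⟨A, hA, n⟩ := exists_ne_zero_of_sum_ne_zero h.ne'
  obtain ⟨a, b⟩ := mem_powersetCard.1 hA
  exact ⟨A, a, b, fun e he => (mem_union.1 (hW (Ed_mono a he))).resolve_right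
    (disjoint_left.1 (not_not.1 fun c => n (if_neg c)) he)⟩

end Pool.Agent.Lib.MP_4a944d_co.Hc
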