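import Pool.Agent.Lib.MP_4a944d_co.Game

/-! Matchings inside a vertex set. -/

set_option autoImplicit false

namespace Pool.Agent.Lib.MP_4a944d_co.Hc

open Finset

variable {V : Type*} [DecidableEq V]

/-- `U` carries a matching of `G` with `j` edges -/
def Mt (G : SimpleGraph V) : ℕ → Finset V → Prop
  | 0, _ => True
  | j + 1, U => ∃ a ∈ U, ∃ b ∈ U, G.Adj a b ∧ Mt G j ((U.erase a).erase b)

variable {G G' : SimpleGraph V}

lemma Mt.mono : ∀ {j : ℕ} {U U' : Finset V}, Mt G j U → U ⊆ U' → Mt G j U'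
  | 0, _, _, _, _ => trivial
  | _ + 1, _, _, ⟨a, ha, b, hb, h, k⟩, s =>
    ⟨a, s ha, b, s hb, h, k.mono (erase_subset_erase _ (erase_subset_erase _ s))⟩

lemma Mt.congr : ∀ {j : ℕ} {U : Finset V}, Mt G j U →
    (∀ a ∈ U, ∀ b ∈ U, G.Adj a b → G'.Adj a b) → Mt G' j U
  | 0, _, _, _ => trivial
  | _ + 1, _, ⟨a, ha, b, hb, h, k⟩, s =>
    ⟨a, ha, b, hb, s a ha b hb h, k.congr fun x hx y hy =>
      s x (mem_of_mem_erase (mem_of_mem_erase hx)) y (mem_of_mem_erase (mem_of_mem_erase hy))⟩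

lemma Mt.iso {v : V} (hv : ∀ b, ¬ G.Adj v b) : ∀ {j : ℕ} {U : Finset V},
    Mt G j (insert v U) → Mt G j U
  | 0, _, _ => trivial
  | _ + 1, U, ⟨a, ha, b, hb, h, k⟩ => by
    refine ⟨a, (mem_insert.1 ha).resolve_left fun e => hv b (e ▸ h), b,
      (mem_insert.1 hb).resolve_left fun e => hv a (e ▸ h.symm), h, Mt.iso hv (k.mono ?_)⟩
    intro x
    simp only [mem_erase, mem_insert]
    tauto

lemma Mt.new {u v : V} (h : ∀ a b, G'.Adj a b → G.Adj a b ∨ (a = u ∧ b = v) ∨ (a = v ∧ b = u)) :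
    ∀ {j : ℕ} {U : Finset V}, Mt G' (j + 1) U →
      Mt G (j + 1) U ∨ (u ∈ U ∧ v ∈ U ∧ Mt G j ((U.erase u).erase v)) := by
  have out : ∀ {j : ℕ} {U : Finset V}, Mt G' j U → u ∉ U ∨ v ∉ U → Mt G j U := fun k n =>
    k.congr fun a ha b hb e => (h a b e).resolve_right (by
      rintro (⟨rfl, rfl⟩ | ⟨rfl, rfl⟩) <;> tauto)
  intro j
  induction j with
  | zero =>
    rintro U ⟨a, ha, b, hb, e, -⟩
    rcases h a b e with e | ⟨rfl, rfl⟩ | ⟨rfl, rfl⟩
    exacts [.inl ⟨a, ha, b, hb, e, trivial⟩, .inr ⟨ha, hb, trivial⟩, .inr ⟨hb, ha, trivial⟩]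
  | succ j ih =>
    rintro U ⟨a, ha, b, hb, e, k⟩
    rcases h a b e with e | ⟨rfl, rfl⟩ | ⟨rfl, rfl⟩
    · rcases ih k with k | ⟨hu, hv, k⟩
      · exact .inl ⟨a, ha, b, hb, e, k⟩
      · simp only [mem_erase] at hu hv
        refine .inr ⟨hu.2.2, hv.2.2, a, ?_, b, ?_, e, k.mono ?_⟩
        · simp only [mem_erase]
          exact ⟨hv.2.1.symm, hu.2.1.symm, ha⟩
        · simp only [mem_erase]
          exact ⟨hv.1.symm, hu.1.symm, hb⟩
        · intro x
          simp only [mem_erase]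
          tauto
    · exact .inr ⟨ha, hb, out k (.inr (notMem_erase _ _))⟩
    · exact .inr ⟨hb, ha, erase_right_comm (s := U) ▸ out k (.inl (notMem_erase _ _))⟩

open scoped Classical in
lemma Mt.deg {u v : V} (huv : u ≠ v) : ∀ {j : ℕ} {U : Finset V}, u ∉ U → v ∉ U → Mt G j U →
    ¬ Mt G (j + 1) (insert u (insert v U)) →
      (U.filter (G.Adj u)).card + (U.filter (G.Adj v)).card ≤ 2 * j := by
  intro j
  induction j with
  | zero =>
    intro U _ _ _ n
    rw [filter_false_of_mem, filter_false_of_mem]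
    · simp
    · exact fun b hb e => n ⟨v, by simp, b, by simp [hb], e, trivial⟩
    · exact fun b hb e => n ⟨u, by simp, b, by simp [hb], e, trivial⟩
  | succ j ih =>
    rintro U hu hv ⟨a, ha, b, hb, e, k⟩ n
    have au : a ≠ u := fun h => hu (h ▸ ha)
    have av : a ≠ v := fun h => hv (h ▸ ha)
    have bu : b ≠ u := fun h => hu (h ▸ hb)
    have bv : b ≠ v := fun h => hv (h ▸ hb)
    have i := ih (U := (U.erase a).erase b) (by simp [hu]) (by simp [hv]) k fun m =>
      n ⟨a, by simp [ha], b, by simp [hb], e, m.mono (by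
        intro x
        simp only [mem_erase, mem_insert]
        rintro (rfl | rfl | h)
        · exact ⟨bu.symm, au.symm, .inl rfl⟩
        · exact ⟨bv.symm, av.symm, .inr (.inl rfl)⟩
        · tauto)⟩
    have cr : ∀ a ∈ U, ∀ b ∈ U, a ≠ b → Mt G j ((U.erase a).erase b) → G.Adj u a → ¬ G.Adj v b := by
      intro a ha b hb ab k e1 e2
      have bu : b ≠ u := fun h => hu (h ▸ hb)
      refine n ⟨u, by simp, a, by simp [ha], e1, v, ?_, b, ?_, e2, k.mono ?_⟩
      · simp only [mem_erase, mem_insert]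
        exact ⟨fun h => hv (h ▸ ha), huv.symm, .inr (.inl trivial)⟩
      · simp only [mem_erase, mem_insert]
        exact ⟨ab.symm, bu, .inr (.inr hb)⟩
      · intro x
        simp only [mem_erase, mem_insert]
        rintro ⟨h1, h2, h3⟩
        exact ⟨h1, fun h => hv (h ▸ h3), h2, fun h => hu (h ▸ h3), .inr (.inr h3)⟩
    have c1 := cr a ha b hb e.ne k
    have c2 := cr b hb a ha e.ne' (erase_right_comm (s := U) ▸ k)
    have d : ∀ w, (U.filter (G.Adj w)).card = (((U.erase a).erase b).filter (G.Adj w)).card +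
        (if G.Adj w b then 1 else 0) + if G.Adj w a then 1 else 0 := by
      intro w
      simp only [card_filter]
      rw [sum_erase_add _ _ (mem_erase.2 ⟨e.ne', hb⟩), sum_erase_add _ _ ha]
    rw [d u, d v]
    split_ifs <;> first | omega | tauto

lemma Mt.of_clique : ∀ {k : ℕ} {Q : Finset V}, (∀ a ∈ Q, ∀ b ∈ Q, a ≠ b → G.Adj a b) →
    2 * k ≤ Q.card → Mt G k Q
  | 0, _, _, _ => trivial
  | k + 1, Q, h, c => by
    obtain ⟨a, ha, b, hb, ab⟩ := one_lt_card.1 (show 1 < Q.card by omega)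
    refine ⟨a, ha, b, hb, h a ha b hb ab, Mt.of_clique (fun x hx y hy =>
      h x (mem_of_mem_erase (mem_of_mem_erase hx)) y (mem_of_mem_erase (mem_of_mem_erase hy))) ?_⟩
    rw [card_erase_of_mem (mem_erase.2 ⟨ab.symm, hb⟩), card_erase_of_mem ha]
    omega

end Pool.Agent.Lib.MP_4a944d_co.Hc
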