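import Pool.Agent.Lib.MP_4a944d_co.HMt

/-! The blocking potential. -/

set_option autoImplicit false

noncomputable section

namespace Pool.Agent.Lib.MP_4a944d_co.Hc

open Finset
open scoped Classical

variable {V : Type*} [LinearOrder V]

def In (U : Finset V) (e : V × V) : Prop := e.1 ∈ U ∧ e.2 ∈ U

def Up (S : Finset (V × V)) : Prop := ∀ e ∈ S, e.1 < e.2

def pr (v w : V) : V × V := if v < w then (v, w) else (w, v)

def supp (S : Finset (V × V)) : Finset V := S.image Prod.fst ∪ S.image Prod.snd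

def Cl (S : Finset (V × V)) (Q : Finset V) : Prop := ∀ x ∈ Q, ∀ y ∈ Q, x < y → (x, y) ∈ S

def Ed (A : Finset V) : Finset (V × V) := {x ∈ A ×ˢ A | x.1 < x.2}

lemma mem_Ed {A : Finset V} {e : V × V} : e ∈ Ed A ↔ e.1 ∈ A ∧ e.2 ∈ A ∧ e.1 < e.2 := by
  simp [Ed, and_assoc]

lemma card_Ed (A : Finset V) : (Ed A).card = A.card.choose 2 := by
  convert card_product_filter_lt (s := A)
  rfl

lemma Up.insert {S : Finset (V × V)} (h : Up S) {e : V × V} (he : e.1 < e.2) : Up (insert e S) :=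
  fun f hf => (mem_insert.1 hf).elim (fun a => a ▸ he) (h f)

lemma card_in {S : Finset (V × V)} (hS : Up S) (v : V) (U : Finset V) :
    (S.filter (In (insert v U))).card ≤ (S.filter (In U)).card + (U.filter ((gr S).Adj v)).card := by
  refine le_trans (card_le_card (t := S.filter (In U) ∪ (U.filter ((gr S).Adj v)).image (pr v)) ?_)
    ((card_union_le _ _).trans (Nat.add_le_add_left card_image_le _))
  rintro ⟨a, b⟩ he
  obtain ⟨h1, h2, h3⟩ := mem_filter.1 he
  have lt : a < b := hS _ h1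
  simp only [mem_union, mem_filter, mem_image, gr_adj, In]
  rcases mem_insert.1 h2 with rfl | h2 <;> rcases mem_insert.1 h3 with h | h3
  · exact absurd h lt.ne'
  · exact .inr ⟨b, ⟨h3, lt.ne, .inl h1⟩, if_pos lt⟩
  · obtain rfl : v = b := h.symm
    exact .inr ⟨a, ⟨h2, lt.ne', .inr h1⟩, if_neg lt.not_gt⟩
  · exact .inl ⟨h1, h2, h3⟩

variable (τ θ : ℝ) (k : ℕ)

def bb : ℕ → ℝ
  | 0 => 1
  | j + 1 => bb j / (τ * θ ^ (2 * j))

def wt (F S : Finset (V × V)) (j : ℕ) (U : Finset V) : ℝ :=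
  if (∀ e ∈ F, ¬ In U e) ∧ Mt (gr S) j U then τ ^ U.card * θ ^ (S.filter (In U)).card * bb τ θ j
  else 0

def Ps (Y : Finset V) (F S : Finset (V × V)) : ℝ :=
  ∑ j ∈ range (k + 1), ∑ U ∈ Y.powerset, wt τ θ F S j U

def Px (x : V × V) (Y : Finset V) (F S : Finset (V × V)) : ℝ :=
  ∑ j ∈ range (k + 1), ∑ U ∈ Y.powerset, if In U x then wt τ θ F S j U else 0

/-- the blocking potential -/
def psi (F S : Finset (V × V)) : ℝ := Ps τ θ k (supp S) F S

/-- the part of it through one edge -/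
def psx (x : V × V) (F S : Finset (V × V)) : ℝ := Px τ θ k x (supp S) F S

variable {τ θ k} {F S : Finset (V × V)} {x y : V × V} {j : ℕ} {U Y : Finset V}

lemma psi_F : psi τ θ k (insert x F) S = psi τ θ k F S - psx τ θ k x F S := by
  simp only [psi, psx, Ps, Px, ← sum_sub_distrib]
  refine sum_congr rfl fun j _ => sum_congr rfl fun U _ => ?_
  simp only [wt, forall_mem_insert]
  by_cases h : In U x <;> simp [h]

lemma psi_empty : psi τ θ k (∅ : Finset (V × V)) ∅ = 1 := by
  simp only [psi, Ps, supp, image_empty, union_empty, powerset_empty, sum_singleton]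
  rw [sum_range_succ', sum_eq_zero fun j _ => by simp [wt, Mt]]
  simp [wt, Mt, bb]

variable (h0 : 0 < τ) (h1 : τ ≤ 1) (h2 : 1 ≤ θ) (h3 : θ ≤ 2)

include h0 h2

lemma bb_pos : ∀ j, 0 < bb τ θ j
  | 0 => one_pos
  | j + 1 => div_pos (bb_pos j) (by positivity)

lemma bb_eq : ∀ j, bb τ θ j * (τ ^ j * θ ^ (j * (j - 1))) = 1
  | 0 => by simp [bb]
  | j + 1 => by
    have e : (j + 1) * (j + 1 - 1) = j * (j - 1) + 2 * j := by
      cases j with
      | zero => rfl
      | succ i => simp only [Nat.add_sub_cancel]; ring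
    have : θ ≠ 0 := by positivity
    rw [e, ← bb_eq j, bb, pow_succ, pow_add]
    field_simp

lemma wt_nonneg : 0 ≤ wt τ θ F S j U := by
  have := bb_pos h0 h2 j
  unfold wt
  split_ifs <;> positivity

lemma Ps_nonneg : 0 ≤ Ps τ θ k Y F S :=
  sum_nonneg fun _ _ => sum_nonneg fun _ _ => wt_nonneg h0 h2

lemma psi_nonneg : 0 ≤ psi τ θ k F S := Ps_nonneg h0 h2

lemma psx_nonneg : 0 ≤ psx τ θ k x F S := by
  unfold psx Px
  refine sum_nonneg fun _ _ => sum_nonneg fun _ _ => ?_
  split_ifs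
  exacts [wt_nonneg h0 h2, le_rfl]

lemma psx_F : psx τ θ k y (insert x F) S ≤ psx τ θ k y F S := by
  unfold psx Px
  refine sum_le_sum fun j _ => sum_le_sum fun U _ => ?_
  split_ifs
  · rw [wt]
    split_ifs with h
    · rw [wt, if_pos ⟨fun e he => h.1 e (mem_insert_of_mem he), h.2⟩]
    · exact wt_nonneg h0 h2
  · rfl

lemma wt_iso (hS : Up S) {v : V} (hv : ∀ b, ¬ (gr S).Adj v b) (hU : v ∉ U) :
    wt τ θ F S j (insert v U) ≤ τ * wt τ θ F S j U := by
  have := bb_pos h0 h2 j
  rw [wt]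
  split_ifs with h
  · rw [wt, if_pos ⟨fun e he a => h.1 e he ⟨mem_insert_of_mem a.1, mem_insert_of_mem a.2⟩,
      h.2.iso hv⟩, card_insert_of_notMem hU, pow_succ']
    have c := card_in hS v U
    rw [filter_false_of_mem (s := U) fun b _ => hv b, card_empty, add_zero] at c
    have := pow_le_pow_right₀ h2 c
    calc _ ≤ τ * τ ^ U.card * θ ^ (S.filter (In U)).card * bb τ θ j := by gcongr
      _ = _ := by ring
  · exact mul_nonneg h0.le (wt_nonneg h0 h2)

lemma Ps_insert (hS : Up S) {v : V} (hv : v ∈ Y ∨ ∀ b, ¬ (gr S).Adj v b) :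
    Ps τ θ k (insert v Y) F S ≤ (1 + τ) * Ps τ θ k Y F S := by
  by_cases hY : v ∈ Y
  · rw [insert_eq_of_mem hY]
    nlinarith [Ps_nonneg (k := k) (Y := Y) (F := F) (S := S) h0 h2]
  · simp only [Ps, mul_sum]
    refine sum_le_sum fun j _ => ?_
    rw [sum_powerset_insert hY, ← sum_add_distrib]
    refine sum_le_sum fun U hU => ?_
    have := wt_iso (F := F) (j := j) h0 h2 hS (hv.resolve_left hY)
      (notMem_mono (mem_powerset.1 hU) hY)
    linarith

lemma Px_mono {Y' : Finset V} (h : Y ⊆ Y') :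
    Px τ θ k x Y' F S ≤ Px τ θ k x Y F S + (Ps τ θ k Y' F S - Ps τ θ k Y F S) := by
  simp only [Px, Ps, ← sum_sub_distrib, ← sum_add_distrib]
  refine sum_le_sum fun j _ => ?_
  rw [← sum_sdiff (powerset_mono.2 h), ← sum_sdiff (powerset_mono.2 h), add_sub_cancel_right,
    add_comm]
  refine add_le_add le_rfl (sum_le_sum fun U _ => ?_)
  split_ifs
  exacts [le_rfl, wt_nonneg h0 h2]

lemma wt_S (hS : Up S) (hy : y.1 < y.2) (hyS : y ∉ S) :
    wt τ θ F (insert y S) j U ≤ wt τ θ F S j U +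
      (θ - 1) * (if In U y then wt τ θ F S j U else 0) + τ * θ *
        if In U y ∧ j ≠ 0 then wt τ θ F S (j - 1) ((U.erase y.1).erase y.2) else 0 := by
  have b0 := bb_pos h0 h2 j
  have n1 := wt_nonneg (F := F) (S := S) (j := j) (U := U) h0 h2
  have n2 := wt_nonneg (F := F) (S := S) (j := j - 1) (U := (U.erase y.1).erase y.2) h0 h2
  have n3 : 0 ≤ τ * θ * if In U y ∧ j ≠ 0 then wt τ θ F S (j - 1) ((U.erase y.1).erase y.2)
      else 0 := by split_ifs <;> positivity
  have n4 : 0 ≤ (θ - 1) * if In U y then wt τ θ F S j U else 0 :=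
    mul_nonneg (by linarith) (by split_ifs <;> positivity)
  by_cases h : (∀ e ∈ F, ¬ In U e) ∧ Mt (gr (insert y S)) j U
  swap
  · rw [wt, if_neg h]
    linarith
  rw [wt, if_pos h, filter_insert]
  by_cases m : Mt (gr S) j U
  · refine le_trans (le_of_eq ?_) (le_add_of_nonneg_right n3)
    rw [show wt τ θ F S j U = _ from if_pos ⟨h.1, m⟩]
    split_ifs
    · rw [card_insert_of_notMem fun a => hyS (mem_filter.1 a).1]
      ring
    · ring
  obtain ⟨i, rfl⟩ : ∃ i, j = i + 1 := by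
    cases j with
    | zero => exact absurd trivial m
    | succ i => exact ⟨i, rfl⟩
  obtain ⟨u, v⟩ := y
  obtain ⟨hu, hv, m'⟩ := (Mt.new (G := gr S) (u := u) (v := v) (fun a b e => by
    simp only [gr_adj, mem_insert, Prod.mk.injEq] at e ⊢
    tauto) h.2).resolve_left m
  have hv' : v ∈ U.erase u := mem_erase.2 ⟨hy.ne', hv⟩
  set U' := (U.erase u).erase v with hU'
  have e : insert u (insert v U') = U := by rw [hU', insert_erase hv', insert_erase hu]
  have d := Mt.deg (G := gr S) (u := u) (v := v) hy.ne (by simp [hU']) (by simp [hU']) m' (e ▸ m)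
  have c1 := card_in hS u (insert v U')
  have c2 := card_in hS v U'
  rw [e, filter_insert, if_neg fun a => (gr_adj.1 a).2.elim hyS fun b => hy.not_gt (hS _ b)] at c1
  have c3 : U.card = U'.card + 2 := by
    rw [hU', card_erase_of_mem hv', card_erase_of_mem hu]
    have := card_pos.2 ⟨v, hv'⟩
    rw [card_erase_of_mem hu] at this
    omega
  have hI : In U (u, v) := ⟨hu, hv⟩
  refine le_trans ?_ (le_add_of_nonneg_left (add_nonneg n1 n4))
  rw [if_pos hI, if_pos ⟨hI, i.succ_ne_zero⟩, Nat.add_sub_cancel, wt, if_pos ⟨fun e he a => h.1 e he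
    ⟨mem_of_mem_erase (mem_of_mem_erase a.1), mem_of_mem_erase (mem_of_mem_erase a.2)⟩, m'⟩,
    card_insert_of_notMem fun a => hyS (mem_filter.1 a).1, c3, bb]
  have b1 := bb_pos h0 h2 i
  have p := pow_le_pow_right₀ h2
    (show (S.filter (In U)).card + 1 ≤ (S.filter (In U')).card + 2 * i + 1 by omega)
  have : θ ≠ 0 := by positivity
  calc _ ≤ τ ^ (U'.card + 2) * θ ^ ((S.filter (In U')).card + 2 * i + 1) *
        (bb τ θ i / (τ * θ ^ (2 * i))) := by gcongr
    _ = _ := by
      simp only [pow_add]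
      field_simp

lemma Ps_S (hS : Up S) (hy : y.1 < y.2) (hyS : y ∉ S) :
    Ps τ θ k Y F (insert y S) ≤ Ps τ θ k Y F S + (θ - 1) * Px τ θ k y Y F S +
      τ * θ * Ps τ θ k Y F S := by
  refine le_trans (sum_le_sum fun j _ => sum_le_sum fun U _ => wt_S h0 h2 hS hy hyS) ?_
  simp only [sum_add_distrib, ← mul_sum]
  refine add_le_add le_rfl (mul_le_mul_of_nonneg_left ?_ (by positivity))
  rw [sum_range_succ', Ps, sum_range_succ]
  refine add_le_add (sum_le_sum fun j _ => ?_) ?_
  · simp only [ne_eq, j.succ_ne_zero, not_false_eq_true, and_true, Nat.add_sub_cancel]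
    rw [← sum_filter, ← sum_image (g := fun U : Finset V => (U.erase y.1).erase y.2)
      (f := wt τ θ F S j)]
    · refine sum_le_sum_of_subset_of_nonneg (image_subset_iff.2 fun U hU => mem_powerset.2
        (((erase_subset _ _).trans (erase_subset _ _)).trans
          (mem_powerset.1 (mem_filter.1 hU).1))) fun _ _ _ => wt_nonneg h0 h2
    · intro U hU U' hU' e
      have a := (mem_filter.1 hU).2
      have b := (mem_filter.1 hU').2
      rw [← insert_erase a.1, ← insert_erase b.1, ← insert_erase (mem_erase.2 ⟨hy.ne', a.2⟩),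
        ← insert_erase (mem_erase.2 ⟨hy.ne', b.2⟩)]
      exact congrArg (fun Z => insert y.1 (insert y.2 Z)) e
  · simpa using sum_nonneg fun _ _ => wt_nonneg h0 h2

include h1 h3 in
lemma psi_S (hS : Up S) (hy : y.1 < y.2) (hyS : y ∉ S) :
    psi τ θ k F (insert y S) ≤ psi τ θ k F S + (θ - 1) * psx τ θ k y F S +
      14 * τ * psi τ θ k F S := by
  have e : supp (insert y S) = insert y.1 (insert y.2 (supp S)) := by
    ext v
    simp only [supp, image_insert, mem_union, mem_insert]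
    tauto
  have iso : ∀ v, v ∈ supp S ∨ ∀ b, ¬ (gr S).Adj v b := fun v => or_iff_not_imp_left.2 fun h b a =>
    h ((gr_adj.1 a).2.elim (fun c => mem_union_left _ (mem_image_of_mem _ c))
      fun c => mem_union_right _ (mem_image_of_mem _ c))
  have a1 := Ps_insert (k := k) (F := F) h0 h2 hS (iso y.2)
  have a2 := Ps_insert (k := k) (F := F) (Y := insert y.2 (supp S)) h0 h2 hS
    ((iso y.1).imp_left mem_insert_of_mem)
  have a3 := Ps_S (k := k) (F := F) (Y := insert y.1 (insert y.2 (supp S))) h0 h2 hS hy hyS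
  have a4 := Px_mono (k := k) (F := F) (S := S) (x := y) h0 h2
    ((subset_insert y.2 (supp S)).trans (subset_insert y.1 _))
  have n := Ps_nonneg (k := k) (F := F) (S := S) (Y := supp S) h0 h2
  have n' := psx_nonneg (k := k) (F := F) (S := S) (x := y) h0 h2
  unfold psi psx at *
  rw [e]
  set P := Ps τ θ k (supp S) F S
  set P2 := Ps τ θ k (insert y.1 (insert y.2 (supp S))) F S
  have tP : 0 ≤ τ * P := by positivity
  have b1 : P2 ≤ P + 3 * τ * P := by nlinarith
  have b2 : τ * θ * P2 ≤ 8 * τ * P := by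
    calc τ * θ * P2 ≤ τ * θ * (P + 3 * τ * P) := by gcongr
      _ = θ * (1 + 3 * τ) * (τ * P) := by ring
      _ ≤ 2 * (1 + 3 * 1) * (τ * P) := by gcongr
      _ = _ := by ring
  have b3 := mul_le_mul_of_nonneg_left (a4.trans (add_le_add le_rfl (sub_le_iff_le_add'.2 b1)))
    (sub_nonneg.2 h2)
  nlinarith

lemma psi_clique (hF : Up F) (hd : Disjoint F S) {Q : Finset V} (hQ : Cl S Q) (hk : 2 * k ≤ Q.card)
    (hq : 2 ≤ Q.card) : τ ^ Q.card * θ ^ Q.card.choose 2 * bb τ θ k ≤ psi τ θ k F S := by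
  have sub : Q ⊆ supp S := fun v hv => by
    obtain ⟨w, hw, ne⟩ := exists_mem_ne (show 1 < Q.card by omega) v
    rcases lt_or_gt_of_ne ne with l | l
    · exact mem_union_right _ (mem_image_of_mem _ (hQ w hw v hv l))
    · exact mem_union_left _ (mem_image_of_mem _ (hQ v hv w hw l))
  refine le_trans ?_ (single_le_sum (f := fun j => ∑ U ∈ (supp S).powerset, wt τ θ F S j U)
    (fun _ _ => sum_nonneg fun _ _ => wt_nonneg h0 h2) (self_mem_range_succ k))
  refine le_trans ?_ (single_le_sum (fun _ _ => wt_nonneg h0 h2) (mem_powerset.2 sub))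
  rw [wt, if_pos ⟨fun e he a => disjoint_left.1 hd he (hQ _ a.1 _ a.2 (hF e he)),
    Mt.of_clique (fun a ha b hb ab => gr_adj.2 ⟨ab, (lt_or_gt_of_ne ab).imp (hQ a ha b hb)
      (hQ b hb a ha)⟩) hk⟩, ← card_Ed]
  have := bb_pos h0 h2 k
  gcongr
  intro e he
  obtain ⟨a, b, c⟩ := mem_Ed.1 he
  exact mem_filter.2 ⟨hQ _ a _ b c, a, b⟩

end Pool.Agent.Lib.MP_4a944d_co.Hc
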