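import Pool.Agent.Lib.MP_4a944d_co.HPot

/-! Building in a zone while blocking everywhere, without being stalled. -/

set_option autoImplicit false

noncomputable section

namespace Pool.Agent.Lib.MP_4a944d_co.Hc

open Finset
open scoped Classical

variable {V : Type*} [LinearOrder V]

/-- weight of a target set `E` when `X` is owned and `D` is dead -/
def nu (X D E : Finset (V × V)) : ℝ := if Disjoint E D then (1 / 2) ^ (E \ X).card else 0

def gn (y : V × V) (X D E : Finset (V × V)) : ℝ := if y ∈ E then nu X D E else 0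

def g2 (x y : V × V) (X D E : Finset (V × V)) : ℝ := if x ∈ E ∧ y ∈ E then nu X D E else 0

variable {X D E : Finset (V × V)} {x y : V × V}

lemma nu_nonneg : 0 ≤ nu X D E := by
  unfold nu
  split_ifs <;> positivity

lemma nu_le_one : nu X D E ≤ 1 := by
  unfold nu
  split_ifs
  exacts [pow_le_one₀ (by norm_num) (by norm_num), zero_le_one]

lemma nu_X (h : x ∉ X) : nu (insert x X) D = nu X D + gn x X D := by
  funext E
  simp only [Pi.add_apply, gn, nu]
  rw [sdiff_insert]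
  split_ifs with a b b
  · rw [← card_erase_add_one (mem_sdiff.2 ⟨b, h⟩), pow_succ]
    ring
  · rw [erase_eq_of_notMem fun c => b (mem_sdiff.1 c).1, add_zero]
  · simp
  · simp

lemma nu_D : nu X (insert y D) = nu X D - gn y X D := by
  funext E
  simp only [Pi.sub_apply, gn, nu, disjoint_insert_right]
  by_cases a : y ∈ E <;> simp [a]

lemma gn_X (h : x ∉ X) : gn y (insert x X) D = gn y X D + g2 x y X D := by
  funext E
  simp only [Pi.add_apply, gn, g2, nu_X h]
  by_cases a : y ∈ E <;> simp [a]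

lemma Win.add {A B : Finset (V × V) → Prop} {t : ℕ} {F S : Finset (V × V)} (h : Win A B t F S) :
    ∀ s, Win A B (s + t) F S
  | 0 => (zero_add t).symm ▸ h
  | s + 1 => Nat.add_right_comm s t 1 ▸ (Win.add h s).succ

theorem zone [Fintype V] {A B : Finset (V × V) → Prop} {τ θ : ℝ} {k : ℕ} (h0 : 0 < τ) (h1 : τ ≤ 1)
    (h2 : 1 ≤ θ) (h3 : θ ≤ 2) (Λ : (Finset (V × V) → ℝ) →ₗ[ℝ] ℝ) {A₀ F₀ : Finset (V × V)}
    {μ κ u γ Lm L1 : ℝ} {t' d : ℕ} (hsupp : ∀ φ, (∀ E ⊆ A₀, φ E = 0) → Λ φ = 0) (hA₀ : Up A₀)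
    (hmax : ∀ X D, 0 ≤ Λ (nu X D) → Λ (nu X D) ≤ Lm ∧ ∀ x y, x ≠ y → Λ (g2 x y X D) ≤ γ)
    (hμ : 0 < μ) (hL1 : 0 ≤ L1) (hκ : 0 ≤ κ) (hγ : 0 ≤ γ) (hu0 : 0 ≤ u)
    (hu : u + γ + 14 * τ * Lm ≤ (2 - θ) * κ)
    (hB : ∀ F S, Up F → Disjoint F S → μ * psi τ θ k F S ≤ Lm → ¬ B S)
    (hc : ∀ F S X D, Up F → Up S → Disjoint F S → F₀ ⊆ F → X ⊆ F → A₀ ⊆ X ∪ D →
      F.card + S.card ≤ d → μ * psi τ θ k F S ≤ Lm → L1 ≤ Λ (nu X D) → Win A B t' F S) :
    ∀ (t : ℕ) (F S X D : Finset (V × V)), Up F → Up S → Disjoint F S → F₀ ⊆ F → X ⊆ F →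
      (∀ e ∈ A₀, e ∈ F ∨ e ∈ S → e ∈ X ∪ D) → F.card + S.card + 2 * t ≤ d →
      κ * (A₀ \ (X ∪ D)).card - Λ (nu X D) + μ * psi τ θ k F S ≤ -L1 →
      κ * (A₀ \ (X ∪ D)).card - Λ (nu X D) + μ * psi τ θ k F S + Lm < t * u →
      Win A B (t + t') F S := by
  have bd : ∀ {F S X D : Finset (V × V)},
      κ * (A₀ \ (X ∪ D)).card - Λ (nu X D) + μ * psi τ θ k F S ≤ -L1 →
      0 ≤ Λ (nu X D) ∧ L1 ≤ Λ (nu X D) ∧ μ * psi τ θ k F S ≤ Lm := fun {F S X D} h => by
    have a := mul_nonneg hμ.le (psi_nonneg (k := k) (F := F) (S := S) h0 h2)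
    have b := mul_nonneg hκ (Nat.cast_nonneg (A₀ \ (X ∪ D)).card)
    have c : 0 ≤ Λ (nu X D) := by linarith
    exact ⟨c, by linarith, by linarith [(hmax X D c).1]⟩
  intro t
  induction t with
  | zero =>
    intro F S X D _ _ _ _ _ _ _ m1 m2
    have a := mul_nonneg hμ.le (psi_nonneg (k := k) (F := F) (S := S) h0 h2)
    have b := mul_nonneg hκ (Nat.cast_nonneg (A₀ \ (X ∪ D)).card)
    have c := (hmax X D (bd m1).1).1
    simp only [Nat.cast_zero, zero_mul] at m2
    linarith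
  | succ t ih =>
    intro F S X D₀ hF hS hd hF₀ hX hz₀ hcard m1₀ m2₀
    obtain ⟨Z, hZ, hmin⟩ := exists_min_image A₀.powerset
      (fun Z => κ * (A₀ \ (X ∪ (D₀ ∪ Z))).card - Λ (nu X (D₀ ∪ Z))) ⟨∅, empty_mem_powerset _⟩
    have e0 := hmin ∅ (empty_mem_powerset _)
    rw [union_empty] at e0
    have cl : ∀ x ∈ A₀ \ (X ∪ (D₀ ∪ Z)), κ ≤ Λ (gn x X (D₀ ∪ Z)) := fun x hx => by
      have := hmin (insert x Z) (mem_powerset.2 (insert_subset (mem_sdiff.1 hx).1
        (mem_powerset.1 hZ)))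
      rw [union_insert, union_insert, sdiff_insert, nu_D, map_sub, ← card_erase_add_one hx] at this
      push_cast at this
      linarith
    have hz : ∀ e ∈ A₀, e ∈ F ∨ e ∈ S → e ∈ X ∪ (D₀ ∪ Z) := fun e he a =>
      union_subset_union_right subset_union_left (hz₀ e he a)
    generalize D₀ ∪ Z = D at e0 cl hz
    have m1 : κ * (A₀ \ (X ∪ D)).card - Λ (nu X D) + μ * psi τ θ k F S ≤ -L1 := by linarith
    have m2 : κ * (A₀ \ (X ∪ D)).card - Λ (nu X D) + μ * psi τ θ k F S + Lm < t * u + u := by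
      push_cast at m2₀
      linarith
    obtain ⟨p0, p1, p2⟩ := bd m1
    rcases (A₀ \ (X ∪ D)).eq_empty_or_nonempty with hE | ⟨x₀, hx₀⟩
    · exact Win.add (hc F S X D hF hS hd hF₀ hX (sdiff_eq_empty_iff_subset.1 hE) (by omega) p2 p1) _
    have fr : ∀ e ∈ A₀ \ (X ∪ D), Free F S e := fun e he => by
      obtain ⟨a, b⟩ := mem_sdiff.1 he
      exact ⟨hA₀ e a, fun c => b (hz e a (.inl c)), fun c => b (hz e a (.inr c))⟩
    have g0 : ∀ e, Free F S e → e ∉ A₀ \ (X ∪ D) → Λ (gn e X D) = 0 := fun e he hn =>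
      hsupp _ fun E hE => by
        unfold gn nu
        split_ifs with a b
        · exact absurd (mem_sdiff.2 ⟨hE a, fun c => (mem_union.1 c).elim (fun c => he.2.1 (hX c))
            (disjoint_left.1 b a)⟩) hn
        · rfl
        · rfl
    obtain ⟨x, hx, hxm⟩ := exists_max_image (univ.filter (Free F S))
      (fun e => Λ (gn e X D) + μ * psx τ θ k e F S) ⟨x₀, mem_filter.2 ⟨mem_univ _, fr _ hx₀⟩⟩
    have hx := (mem_filter.1 hx).2
    have gx : κ ≤ Λ (gn x X D) + μ * psx τ θ k x F S := by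
      have a := hxm x₀ (mem_filter.2 ⟨mem_univ _, fr _ hx₀⟩)
      have b := mul_nonneg hμ.le (psx_nonneg (k := k) (x := x₀) (F := F) (S := S) h0 h2)
      linarith [cl x₀ hx₀]
    rw [Nat.add_right_comm]
    refine ⟨x, hx, .inr fun y hy => ?_⟩
    have yx : x ≠ y := fun e => hy.2.1 (e ▸ mem_insert_self _ _)
    have hy' : Free F S y := ⟨hy.1, fun a => hy.2.1 (mem_insert_of_mem a), hy.2.2⟩
    have gy := hxm y (mem_filter.2 ⟨mem_univ _, hy'⟩)
    have q1 := mul_le_mul_of_nonneg_left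
      (psi_S (k := k) (F := insert x F) h0 h1 h2 h3 hS hy.1 hy.2.2) hμ.le
    have q2 := mul_le_mul_of_nonneg_left (mul_le_mul_of_nonneg_left
      (psx_F (k := k) (x := x) (y := y) (F := F) (S := S) h0 h2) hμ.le) (sub_nonneg.2 h2)
    have q3 := mul_nonneg hμ.le (psx_nonneg (k := k) (x := x) (F := F) (S := S) h0 h2)
    have q4 := mul_nonneg hμ.le (psx_nonneg (k := k) (x := y) (F := F) (S := S) h0 h2)
    rw [psi_F (S := S)] at q1
    have q5 : μ * psi τ θ k (insert x F) (insert y S) ≤ μ * psi τ θ k F S - μ * psx τ θ k x F S +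
        (θ - 1) * (μ * psx τ θ k y F S) + 14 * τ * Lm := by
      nlinarith [mul_le_mul_of_nonneg_left p2 h0.le, mul_nonneg h0.le q3]
    have q6 : (θ - 1) * (μ * psx τ θ k y F S) ≤ μ * psx τ θ k y F S := by nlinarith
    have q7 : (2 - θ) * κ ≤ κ := by nlinarith
    have cd : ∀ {e : V × V} {T : Finset (V × V)}, e ∈ A₀ \ (X ∪ D) → insert e (X ∪ D) ⊆ T →
        κ * (A₀ \ T).card ≤ κ * (A₀ \ (X ∪ D)).card - κ := fun {e T} he hT => by
      have a := card_le_card (sdiff_subset_sdiff (Subset.refl A₀) hT)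
      rw [sdiff_insert] at a
      rw [← card_erase_add_one he]
      push_cast
      have := mul_le_mul_of_nonneg_left (Nat.cast_le (α := ℝ).2 a) hκ
      linarith
    obtain ⟨X', a1, a2, a3, a4⟩ : ∃ X', X ⊆ X' ∧ X' ⊆ insert x F ∧ x ∉ A₀ \ (X' ∪ D) ∧
        κ * (A₀ \ (X' ∪ insert y D)).card - Λ (nu X' (insert y D)) +
          μ * psi τ θ k (insert x F) (insert y S) ≤
          κ * (A₀ \ (X ∪ D)).card - Λ (nu X D) + μ * psi τ θ k F S - u := by
      by_cases xz : x ∈ A₀ \ (X ∪ D)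
      · have xX : x ∉ X := fun a => hx.2.1 (hX a)
        refine ⟨insert x X, subset_insert _ _, insert_subset_insert _ hX, by simp, ?_⟩
        have c := cd (T := insert x X ∪ insert y D) xz (by
          rw [← insert_union]
          exact union_subset_union_right (subset_insert _ _))
        rw [nu_D, gn_X xX, nu_X xX, map_sub, map_add, map_add]
        linarith [(hmax X D p0).2 x y yx]
      · refine ⟨X, Subset.refl _, hX.trans (subset_insert _ _), xz, ?_⟩
        rw [nu_D, map_sub]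
        rw [g0 x hx xz] at gx gy
        by_cases yz : y ∈ A₀ \ (X ∪ D)
        · have c := cd (T := X ∪ insert y D) yz (union_insert _ _ _).ge
          linarith
        · rw [g0 y hy' yz] at gy ⊢
          have c := mul_le_mul_of_nonneg_left (Nat.cast_le (α := ℝ).2 (card_le_card
            (sdiff_subset_sdiff (Subset.refl A₀) (union_subset_union_right (s := X)
              (subset_insert y D))))) hκ
          nlinarith
    have hd' : Disjoint (insert x F) (insert y S) :=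
      disjoint_insert_right.2 ⟨hy.2.1, disjoint_insert_left.2 ⟨hx.2.2, hd⟩⟩
    have m1' := a4.trans (show _ ≤ -L1 by linarith)
    refine ⟨hB _ _ (hF.insert hx.1) hd' (bd m1').2.2, ih _ _ X' (insert y D) (hF.insert hx.1)
      (hS.insert hy.1) hd' (hF₀.trans (subset_insert _ _)) a2 (fun e he a => ?_) ?_ m1' (by linarith)⟩
    · have s : X ∪ D ⊆ X' ∪ insert y D := union_subset_union a1 (subset_insert _ _)
      simp only [mem_insert] at a
      rcases a with (rfl | a) | rfl | a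
      · exact union_subset_union_right (subset_insert _ _)
          (not_not.1 fun c => a3 (mem_sdiff.2 ⟨he, c⟩))
      · exact s (hz e he (.inl a))
      · simp
      · exact s (hz e he (.inr a))
    · have := card_insert_le x F
      have := card_insert_le y S
      omega

end Pool.Agent.Lib.MP_4a944d_co.Hc
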