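import Pool.Agent.Lib.MP_4a944d_co.Game

set_option autoImplicit false
set_option linter.unusedSectionVars false

namespace Pool.Agent.Lib.MP_4a944d_co

open Finset

variable {V : Type*} [LinearOrder V]

/-- pool sizes -/
def sz (b : ℕ) : ℕ → ℕ
  | 0 => 0
  | r + 1 => b * (2 * sz b r) + 1

/-- total number of tempo moves -/
def tot (b : ℕ) : ℕ → ℕ
  | 0 => 0
  | r + 1 => tot b r + sz b (r + 1)

def TA (q : ℕ) (F : Finset (V × V)) : Prop := ¬ (gr F).CliqueFree q

def TB (q : ℕ) (S : Finset (V × V)) : Prop :=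
  ∀ T : SimpleGraph V, T.IsAcyclic → ¬ (gr S \ T).CliqueFree q

structure Inv (q K w : ℕ) (F S X Y U : Finset (V × V)) (Z C D N : Finset V) (v : V) (r : ℕ)
    (ρ : V → ℕ) : Prop where
  hX : X ⊆ S
  hS : S ⊆ X ∪ U
  hY : Y ⊆ F ∪ U
  hU : U ⊆ S
  hXf : (gr X).CliqueFree q
  hac : (gr U).IsAcyclic
  hρ : ∀ e ∈ U, ρ e.1 = ρ e.2
  hinj : ∀ x ∈ insert v (D ∪ N), ∀ y ∈ insert v (D ∪ N), ρ x = ρ y → x = y
  hvD : v ∉ D
  hvN : v ∉ N
  hDN : ∀ x ∈ D, x ∉ N
  hZ : ∀ e ∈ S, e.1 ∈ Z ∧ e.2 ∈ Z
  hRZ : insert v (D ∪ N) ⊆ Z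
  hZc : Z.card + 2 * tot (2 * q - 1) r ≤ K + 2 * N.card + 2 * w
  hvC : v ∈ C
  hC : (gr F).IsClique C
  hCc : C.card + r = q
  hCD : ∀ x ∈ C, x ≠ v → ∀ d ∈ D, (gr F).Adj x d
  hCN : ∀ x ∈ C, ∀ d ∈ N, (gr F).Adj x d
  hD : ∀ d ∈ D, ¬ (gr S).Adj v d
  hN : N.card < sz (2 * q - 1) r
  hDc : 2 * sz (2 * q - 1) r ≤ D.card + 2 * N.card + w
  hF : F.card + w ≤ S.card + 1

def Good (q K w : ℕ) (F S X Y : Finset (V × V)) : Prop :=
  ∃ U Z C D N v r ρ, Inv q K w F S X Y U Z C D N v r ρ

lemma sz_le_tot (b r : ℕ) : sz b r ≤ tot b r := by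
  cases r with
  | zero => simp [sz, tot]
  | succ r => simp [tot]

lemma Good.notB {q K w : ℕ} {F S X Y : Finset (V × V)} (h : Good q K w F S X Y) : ¬ TB q S := by
  obtain ⟨U, Z, C, D, N, v, r, ρ, h⟩ := h
  intro hB
  exact hB _ h.hac (h.hXf.anti (gr_sdiff_le h.hS))

lemma Good.card_le {q K w : ℕ} {F S X Y : Finset (V × V)} (h : Good q K w F S X Y) (hw : w ≤ 1) :
    S.card ≤ K * K ∧ F.card + w ≤ S.card + 1 := by
  obtain ⟨U, Z, C, D, N, v, r, ρ, h⟩ := h
  refine ⟨?_, h.hF⟩
  have h1 : S ⊆ Z ×ˢ Z := fun e he => mem_product.2 (h.hZ e he)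
  have h2 := card_le_card h1
  rw [card_product] at h2
  have h3 : Z.card ≤ K := by
    have := h.hZc
    have := h.hN
    have := sz_le_tot (2 * q - 1) r
    omega
  exact h2.trans (Nat.mul_le_mul h3 h3)

lemma rho_of_reachable {U : Finset (V × V)} {ρ : V → ℕ} (hρ : ∀ e ∈ U, ρ e.1 = ρ e.2) {x y : V}
    (h : (gr U).Reachable x y) : ρ x = ρ y := by
  obtain ⟨p⟩ := h
  induction p with
  | nil => rfl
  | cons hadj _ ih =>
    rw [← ih]
    rcases (gr_adj.1 hadj).2 with h | h
    · exact hρ _ h
    · exact (hρ _ h).symm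

lemma not_reachable_of_isolated {U : Finset (V × V)} {x y : V} (hx : ∀ e ∈ U, e.1 ≠ x ∧ e.2 ≠ x)
    (hxy : x ≠ y) : ¬ (gr U).Reachable x y := by
  rintro ⟨p⟩
  cases p with
  | nil => exact hxy rfl
  | cons hadj _ =>
    rcases (gr_adj.1 hadj).2 with h | h
    · exact (hx _ h).1 rfl
    · exact (hx _ h).2 rfl

/-- an ignored move touching a new vertex -/
lemma Inv.progress {q K : ℕ} {F S X Y U : Finset (V × V)} {Z C D N : Finset V} {v : V} {r : ℕ}
    {ρ : V → ℕ} (h : Inv q K 0 F S X Y U Z C D N v r ρ) {f : V × V} (hf : Free F S f)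
    {x y : V} (hxy : f = (x, y) ∨ f = (y, x)) (hx : x ∉ Z) :
    Good q K 1 F (insert f S) X Y := by
  have hne : x ≠ y := by
    have := hf.1
    rcases hxy with rfl | rfl
    · exact ne_of_lt this
    · exact (ne_of_lt this).symm
  have hxU : ∀ e ∈ U, e.1 ≠ x ∧ e.2 ≠ x := fun e he =>
    ⟨fun hh => hx (hh ▸ (h.hZ e (h.hU he)).1), fun hh => hx (hh ▸ (h.hZ e (h.hU he)).2)⟩
  have hxR : ∀ z ∈ insert v (D ∪ N), z ≠ x := fun z hz hh => hx (hh ▸ h.hRZ hz)
  refine ⟨insert f U, insert x (insert y Z), C, D, N, v, r, Function.update ρ x (ρ y), ?_⟩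
  refine { hX := h.hX.trans (subset_insert _ _), hS := ?_, hY := ?_,
           hU := insert_subset_insert _ h.hU, hXf := h.hXf, hac := ?_, hρ := ?_, hinj := ?_,
           hvD := h.hvD, hvN := h.hvN, hDN := h.hDN, hZ := ?_, hRZ := ?_, hZc := ?_, hvC := h.hvC,
           hC := h.hC, hCc := h.hCc, hCD := h.hCD, hCN := h.hCN, hD := ?_, hN := h.hN,
           hDc := ?_, hF := ?_ }
  · intro e he
    rcases mem_insert.1 he with rfl | he
    · simp
    · rcases mem_union.1 (h.hS he) with h1 | h1 <;> simp [h1]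
  · exact h.hY.trans (union_subset_union (Subset.refl _) (subset_insert _ _))
  · rw [gr_insert]
    refine h.hac.sup_edge_of_not_reachable ?_
    rcases hxy with rfl | rfl
    · exact not_reachable_of_isolated hxU hne
    · exact fun hr => not_reachable_of_isolated hxU hne hr.symm
  · intro e he
    rcases mem_insert.1 he with rfl | he
    · rcases hxy with rfl | rfl <;> simp [Function.update_of_ne hne.symm]
    · rw [Function.update_of_ne (hxU e he).1, Function.update_of_ne (hxU e he).2]
      exact h.hρ e he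
  · intro a ha b hb hab
    rw [Function.update_of_ne (hxR a ha), Function.update_of_ne (hxR b hb)] at hab
    exact h.hinj a ha b hb hab
  · intro e he
    rcases mem_insert.1 he with rfl | he
    · rcases hxy with rfl | rfl <;> simp
    · have := h.hZ e he
      simp [this.1, this.2]
  · exact h.hRZ.trans ((subset_insert _ _).trans (subset_insert _ _))
  · have h1 := card_insert_le x (insert y Z)
    have h2 := card_insert_le y Z
    have := h.hZc
    omega
  · intro d hd hadj
    rw [gr_insert, SimpleGraph.sup_adj, SimpleGraph.edge_adj] at hadj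
    rcases hadj with hadj | hadj
    · exact h.hD d hd hadj
    · have h1 := hxR v (by simp)
      have h2 := hxR d (by simp [hd])
      rcases hxy with rfl | rfl <;> simp_all
  · have := h.hDc
    omega
  · rw [card_insert_of_notMem hf.2.2]
    have := h.hF
    omega

/-- an ignored move in the current star -/
lemma Inv.kill {q K : ℕ} {F S X Y U : Finset (V × V)} {Z C D N : Finset V} {v : V} {r : ℕ}
    {ρ : V → ℕ} (h : Inv q K 0 F S X Y U Z C D N v r ρ) {f : V × V} (hf : Free F S f)
    {d : V} (hd : d ∈ D) (hxy : f = (v, d) ∨ f = (d, v)) :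
    Good q K 1 F (insert f S) X Y := by
  have hne : v ≠ d := fun hh => h.hvD (hh ▸ hd)
  have hρne : ρ v ≠ ρ d := fun hh => hne (h.hinj v (by simp) d (by simp [hd]) hh)
  refine ⟨insert f U, Z, C, D.erase d, N, v, r, fun z => if ρ z = ρ d then ρ v else ρ z, ?_⟩
  have hsub : insert v (D.erase d ∪ N) ⊆ insert v (D ∪ N) :=
    insert_subset_insert _ (union_subset_union (erase_subset _ _) (Subset.refl _))
  have hnd : ∀ a ∈ insert v (D.erase d ∪ N), ρ a ≠ ρ d := by
    intro a ha hh
    have := h.hinj a (hsub ha) d (by simp [hd]) hh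
    subst this
    simp only [mem_insert, mem_union, mem_erase, ne_eq, not_true_eq_false, false_and,
      false_or] at ha
    rcases ha with ha | ha
    · exact hne ha.symm
    · exact h.hDN a hd ha
  refine { hX := h.hX.trans (subset_insert _ _), hS := ?_, hY := ?_,
           hU := insert_subset_insert _ h.hU, hXf := h.hXf, hac := ?_, hρ := ?_, hinj := ?_,
           hvD := fun hh => h.hvD (mem_of_mem_erase hh), hvN := h.hvN,
           hDN := fun x hx => h.hDN x (mem_of_mem_erase hx), hZ := ?_, hRZ := hsub.trans h.hRZ,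
           hZc := ?_, hvC := h.hvC,
           hC := h.hC, hCc := h.hCc, hCD := fun x hx hxv a ha => h.hCD x hx hxv a (mem_of_mem_erase ha),
           hCN := h.hCN, hD := ?_, hN := h.hN,
           hDc := ?_, hF := ?_ }
  · intro e he
    rcases mem_insert.1 he with rfl | he
    · simp
    · rcases mem_union.1 (h.hS he) with h1 | h1 <;> simp [h1]
  · exact h.hY.trans (union_subset_union (Subset.refl _) (subset_insert _ _))
  · rw [gr_insert]
    refine h.hac.sup_edge_of_not_reachable ?_
    rcases hxy with rfl | rfl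
    · exact fun hr => hρne (rho_of_reachable h.hρ hr)
    · exact fun hr => hρne (rho_of_reachable h.hρ hr).symm
  · intro e he
    rcases mem_insert.1 he with rfl | he
    · rcases hxy with rfl | rfl <;> simp
    · rw [h.hρ e he]
  · intro a ha b hb hab
    simp only [hnd a ha, hnd b hb, if_false] at hab
    exact h.hinj a (hsub ha) b (hsub hb) hab
  · intro e he
    rcases mem_insert.1 he with rfl | he
    · have h1 : v ∈ Z := h.hRZ (by simp)
      have h2 : d ∈ Z := h.hRZ (by simp [hd])
      rcases hxy with rfl | rfl <;> simp [h1, h2]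
    · exact h.hZ e he
  · have := h.hZc
    omega
  · intro a ha hadj
    rw [gr_insert, SimpleGraph.sup_adj, SimpleGraph.edge_adj] at hadj
    rcases hadj with hadj | hadj
    · exact h.hD a (mem_of_mem_erase ha) hadj
    · have h1 := ne_of_mem_erase ha
      rcases hxy with rfl | rfl <;> simp_all
  · have := h.hDc
    rw [card_erase_of_mem hd]
    have := card_pos.2 ⟨d, hd⟩
    omega
  · rw [card_insert_of_notMem hf.2.2]
    have := h.hF
    omega

/-- a move that is passed on to the imaginary game, together with the reply -/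
lemma Inv.feed {q K : ℕ} {F S X Y U : Finset (V × V)} {Z C D N : Finset V} {v : V} {r : ℕ}
    {ρ : V → ℕ} (h : Inv q K 0 F S X Y U Z C D N v r ρ) {f : V × V} (hf : Free F S f)
    (h1 : f.1 ∈ Z) (h2 : f.2 ∈ Z) (hk : ∀ d ∈ D, f ≠ (v, d) ∧ f ≠ (d, v))
    (hA : (gr (insert f X)).CliqueFree q) {g e : V × V} (hge : g ∈ insert e F ∪ U) :
    Inv q K 0 (insert e F) (insert f S) (insert f X) (insert g Y) U Z C D N v r ρ := by
  have hm : gr F ≤ gr (insert e F) := gr_mono (subset_insert _ _)
  refine { hX := insert_subset_insert _ h.hX, hS := ?_, hY := ?_,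
           hU := h.hU.trans (subset_insert _ _), hXf := hA, hac := h.hac, hρ := h.hρ,
           hinj := h.hinj,
           hvD := h.hvD, hvN := h.hvN, hDN := h.hDN, hZ := ?_, hRZ := h.hRZ, hZc := h.hZc,
           hvC := h.hvC,
           hC := h.hC.mono hm, hCc := h.hCc, hCD := fun x hx hxv a ha => hm (h.hCD x hx hxv a ha),
           hCN := fun x hx a ha => hm (h.hCN x hx a ha), hD := ?_, hN := h.hN,
           hDc := h.hDc, hF := ?_ }
  · intro a ha
    rcases mem_insert.1 ha with rfl | ha
    · simp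
    · rcases mem_union.1 (h.hS ha) with h1 | h1 <;> simp [h1]
  · exact insert_subset hge
      (h.hY.trans (union_subset_union (subset_insert _ _) (Subset.refl _)))
  · intro a ha
    rcases mem_insert.1 ha with rfl | ha
    · exact ⟨h1, h2⟩
    · exact h.hZ a ha
  · intro a ha hadj
    rw [gr_insert, SimpleGraph.sup_adj, SimpleGraph.edge_adj] at hadj
    rcases hadj with hadj | hadj
    · exact h.hD a ha hadj
    · have := hk a ha
      obtain ⟨f1, f2⟩ := f
      simp only [ne_eq, Prod.mk.injEq, not_and] at this hadj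
      rcases hadj.1 with ⟨rfl, rfl⟩ | ⟨rfl, rfl⟩
      · exact this.1 rfl rfl
      · exact this.2 rfl rfl
  · rw [card_insert_of_notMem hf.2.2]
    have := h.hF
    have := card_insert_le e F
    omega

/-- a tempo move -/
lemma Good.bonus [Fintype V] {q K : ℕ} {F S X Y : Finset (V × V)} (hq : 0 < q)
    (hV : 2 * (K * K) + 2 < Fintype.card V) (h : Good q K 1 F S X Y) :
    ∃ e, Free F S e ∧ (TA q (insert e F) ∨ Good q K 0 (insert e F) S X Y) := by
  classical
  have hB := h.notB
  have hcard := h.card_le le_rfl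
  obtain ⟨U, Z, C, D, N, v, r, ρ, h⟩ := h
  have hD : 0 < D.card := by
    have := h.hN
    have := h.hDc
    omega
  obtain ⟨d, hd⟩ := card_pos.1 hD
  have hne : v ≠ d := fun hh => h.hvD (hh ▸ hd)
  obtain ⟨e, he, hadj⟩ : ∃ e, Free F S e ∧ (gr (insert e F)).Adj v d := by
    by_cases hF : (gr F).Adj v d
    · obtain ⟨e, he⟩ := exists_free (F := F) (S := S) (by omega)
      exact ⟨e, he, gr_mono (subset_insert _ _) hF⟩
    · have hS := h.hD d hd
      rw [gr_adj] at hF hS
      rcases lt_or_gt_of_ne hne with hlt | hlt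
      · exact ⟨(v, d), ⟨hlt, fun hh => hF ⟨hne, Or.inl hh⟩, fun hh => hS ⟨hne, Or.inl hh⟩⟩,
          gr_adj.2 ⟨hne, Or.inl (mem_insert_self _ _)⟩⟩
      · exact ⟨(d, v), ⟨hlt, fun hh => hF ⟨hne, Or.inr hh⟩, fun hh => hS ⟨hne, Or.inr hh⟩⟩,
          gr_adj.2 ⟨hne, Or.inr (mem_insert_self _ _)⟩⟩
  refine ⟨e, he, ?_⟩
  have hm : gr F ≤ gr (insert e F) := gr_mono (subset_insert _ _)
  have hdN := h.hDN d hd
  have hCN' : ∀ x ∈ C, ∀ a ∈ insert d N, (gr (insert e F)).Adj x a := by
    intro x hx a ha
    rcases mem_insert.1 ha with rfl | ha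
    · by_cases hxv : x = v
      · exact hxv ▸ hadj
      · exact hm (h.hCD x hx hxv a hd)
    · exact hm (h.hCN x hx a ha)
  have hsub : insert v (D.erase d ∪ insert d N) ⊆ insert v (D ∪ N) := by
    intro a ha
    simp only [mem_insert, mem_union, mem_erase] at ha ⊢
    rcases ha with ha | ha | ha | ha
    · exact Or.inl ha
    · exact Or.inr (Or.inl ha.2)
    · exact Or.inr (Or.inl (ha ▸ hd))
    · exact Or.inr (Or.inr ha)
  have hY' : Y ⊆ insert e F ∪ U :=
    h.hY.trans (union_subset_union (subset_insert _ _) (Subset.refl _))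
  have hF' : (insert e F).card + 0 ≤ S.card + 1 := by
    have := h.hF
    have := card_insert_le e F
    omega
  by_cases hlt : N.card + 1 < sz (2 * q - 1) r
  · right
    refine ⟨U, Z, C, D.erase d, insert d N, v, r, ρ, ?_⟩
    refine { hX := h.hX, hS := h.hS, hY := hY', hU := h.hU, hXf := h.hXf, hac := h.hac, hρ := h.hρ,
             hinj := fun a ha b hb => h.hinj a (hsub ha) b (hsub hb),
             hvD := fun hh => h.hvD (mem_of_mem_erase hh), hvN := ?_, hDN := ?_, hZ := h.hZ,
             hRZ := hsub.trans h.hRZ, hZc := ?_, hvC := h.hvC, hC := h.hC.mono hm, hCc := h.hCc,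
             hCD := fun x hx hxv a ha => hm (h.hCD x hx hxv a (mem_of_mem_erase ha)),
             hCN := hCN', hD := fun a ha => h.hD a (mem_of_mem_erase ha), hN := ?_, hDc := ?_,
             hF := hF' }
    · simp [hne, h.hvN]
    · intro x hx hh
      rcases mem_insert.1 hh with rfl | hh
      · exact ne_of_mem_erase hx rfl
      · exact h.hDN x (mem_of_mem_erase hx) hh
    · rw [card_insert_of_notMem hdN]
      have := h.hZc
      omega
    · rw [card_insert_of_notMem hdN]
      exact hlt
    · rw [card_insert_of_notMem hdN, card_erase_of_mem hd]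
      have := h.hDc
      omega
  · have hN := h.hN
    obtain ⟨r, rfl⟩ : ∃ r', r = r' + 1 := by
      cases r with
      | zero => simp [sz] at hN
      | succ r => exact ⟨r, rfl⟩
    have hNc : (insert d N).card = (2 * q - 1) * (2 * sz (2 * q - 1) r) + 1 := by
      rw [card_insert_of_notMem hdN]
      have : sz (2 * q - 1) (r + 1) = (2 * q - 1) * (2 * sz (2 * q - 1) r) + 1 := rfl
      omega
    have hfree : (gr S).CliqueFree (2 * q - 1) :=
      cliqueFree_of_forest hq h.hac (h.hXf.anti (gr_sdiff_le h.hS))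
    obtain ⟨v', hv', hbig⟩ : ∃ v' ∈ insert d N, 2 * sz (2 * q - 1) r <
        ((insert d N).filter (fun x => ¬ (gr S).Adj v' x)).card := by
      by_contra hcon
      push Not at hcon
      obtain ⟨Q, -, hQ⟩ := turan (gr S) (2 * sz (2 * q - 1) r) (2 * q - 1) (insert d N)
        (by omega) hcon
      exact hfree Q hQ
    have hv'C : v' ∉ C := fun hh => (hCN' v' hh v' hv').ne rfl
    have hC' : (gr (insert e F)).IsClique ((insert v' C : Finset V) : Set V) := by
      rw [coe_insert]
      exact (h.hC.mono hm).insert (fun b hb _ => (hCN' b hb v' hv').symm)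
    have hCc' : (insert v' C).card + r = q := by
      rw [card_insert_of_notMem hv'C]
      have := h.hCc
      omega
    rcases Nat.eq_zero_or_pos r with rfl | hr
    · left
      exact fun hh => hh (insert v' C) ⟨hC', by omega⟩
    · right
      set D' := ((insert d N).filter (fun x => ¬ (gr S).Adj v' x)).erase v' with hD'
      have hD'sub : D' ⊆ insert d N := (erase_subset _ _).trans (filter_subset _ _)
      have hsub' : insert v' (D' ∪ ∅) ⊆ insert v (D ∪ N) := by
        refine Subset.trans ?_ hsub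
        rw [union_empty]
        exact (insert_subset hv' hD'sub).trans (subset_union_right.trans (subset_insert _ _))
      refine ⟨U, Z, insert v' C, D', ∅, v', r, ρ, ?_⟩
      refine { hX := h.hX, hS := h.hS, hY := hY', hU := h.hU, hXf := h.hXf, hac := h.hac,
               hρ := h.hρ, hinj := fun a ha b hb => h.hinj a (hsub' ha) b (hsub' hb),
               hvD := notMem_erase _ _, hvN := notMem_empty _, hDN := fun _ _ => notMem_empty _,
               hZ := h.hZ, hRZ := hsub'.trans h.hRZ, hZc := ?_, hvC := mem_insert_self _ _,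
               hC := hC', hCc := hCc', hCD := ?_, hCN := fun _ _ a ha => absurd ha (notMem_empty _),
               hD := fun a ha => (mem_filter.1 (mem_of_mem_erase ha)).2, hN := ?_, hDc := ?_,
               hF := hF' }
      · have h1 := h.hZc
        have : tot (2 * q - 1) (r + 1) = tot (2 * q - 1) r + sz (2 * q - 1) (r + 1) := rfl
        simp only [card_empty]
        omega
      · intro x hx hxv a ha
        rcases mem_insert.1 hx with rfl | hx
        · exact absurd rfl hxv
        · exact hCN' x hx a (hD'sub ha)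
      · obtain ⟨r, rfl⟩ : ∃ r', r = r' + 1 := ⟨r - 1, by omega⟩
        simp [sz]
      · have := pred_card_le_card_erase
          (s := (insert d N).filter (fun x => ¬ (gr S).Adj v' x)) (a := v')
        rw [← hD'] at this
        simp only [card_empty]
        omega

end Pool.Agent.Lib.MP_4a944d_co
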