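import Pool.Agent.Lib.MP_4a944d_co.Inv

set_option autoImplicit false
set_option linter.unusedSectionVars false

namespace Pool.Agent.Lib.MP_4a944d_co

open Finset

variable {V : Type*} [LinearOrder V]

lemma step [Fintype V] {q K : ℕ} (hq : 0 < q) (hV : 2 * (K * K) + 3 < Fintype.card V) :
    ∀ (t : ℕ) (F S X Y : Finset (V × V)), Good q K 0 F S X Y → ¬ Win (TA q) (TB q) t X Y →
      K * K < S.card + t →
      ∀ f, Free F S f → ¬ TB q (insert f S) ∧ Win (TA q) (TB q) t F (insert f S) := by
  intro t
  induction t with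
  | zero =>
    intro F S X Y hG _ hK
    have := (hG.card_le (by omega)).1
    omega
  | succ t ih =>
    intro F S X Y hG hsafe hK f hf
    have hcard := hG.card_le (by omega)
    have hK' : K * K < (insert f S).card + t := by
      rw [card_insert_of_notMem hf.2.2]
      omega
    have ign : Good q K 1 F (insert f S) X Y →
        ¬ TB q (insert f S) ∧ Win (TA q) (TB q) (t + 1) F (insert f S) := by
      intro hG'
      refine ⟨hG'.notB, ?_⟩
      obtain ⟨e, he, h⟩ := hG'.bonus hq (by omega)
      refine ⟨e, he, h.imp id fun h => ?_⟩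
      exact ih _ _ X Y h (fun hw => hsafe hw.succ) hK'
    obtain ⟨U, Z, C, D, N, v, r, ρ, h⟩ := hG
    by_cases h1 : f.1 ∈ Z
    swap
    · exact ign (h.progress hf (x := f.1) (y := f.2) (Or.inl rfl) h1)
    by_cases h2 : f.2 ∈ Z
    swap
    · exact ign (h.progress hf (x := f.2) (y := f.1) (Or.inr rfl) h2)
    by_cases hk : ∃ d ∈ D, f = (v, d) ∨ f = (d, v)
    · obtain ⟨d, hd, hk⟩ := hk
      exact ign (h.kill hf hd hk)
    have hk' : ∀ d ∈ D, f ≠ (v, d) ∧ f ≠ (d, v) := fun d hd =>
      ⟨fun hh => hk ⟨d, hd, Or.inl hh⟩, fun hh => hk ⟨d, hd, Or.inr hh⟩⟩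
    have hfX : Free X Y f := by
      refine ⟨hf.1, fun hh => hf.2.2 (h.hX hh), fun hh => ?_⟩
      rcases mem_union.1 (h.hY hh) with h3 | h3
      · exact hf.2.1 h3
      · exact hf.2.2 (h.hU h3)
    have hs : ¬ (TA q (insert f X) ∨ ∀ g, Free (insert f X) Y g →
        ¬ TB q (insert g Y) ∧ Win (TA q) (TB q) t (insert f X) (insert g Y)) :=
      fun hh => hsafe ⟨f, hfX, hh⟩
    rw [not_or] at hs
    obtain ⟨hA, hs⟩ := hs
    have hA' : (gr (insert f X)).CliqueFree q := not_not.1 hA
    obtain ⟨g, hs⟩ := not_forall.1 hs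
    obtain ⟨hg, hs⟩ := Classical.not_imp.1 hs
    obtain ⟨e, he, hge⟩ : ∃ e, Free F (insert f S) e ∧ g ∈ insert e F ∪ U := by
      by_cases hgF : g ∈ F ∪ U
      · obtain ⟨e, he⟩ := exists_free (F := F) (S := insert f S) (by
          have := card_insert_le f S
          omega)
        exact ⟨e, he, union_subset_union (subset_insert _ _) (Subset.refl _) hgF⟩
      · refine ⟨g, ⟨hg.1, fun hh => hgF (mem_union_left _ hh), fun hh => ?_⟩, by simp⟩
        rcases mem_insert.1 hh with h3 | h3
        · exact hg.2.1 (h3 ▸ mem_insert_self _ _)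
        · rcases mem_union.1 (h.hS h3) with h4 | h4
          · exact hg.2.1 (mem_insert_of_mem h4)
          · exact hgF (mem_union_right _ h4)
    have hI := h.feed hf h1 h2 hk' hA' hge
    have hG' : Good q K 0 (insert e F) (insert f S) (insert f X) (insert g Y) :=
      ⟨U, Z, C, D, N, v, r, ρ, hI⟩
    refine ⟨hG'.notB, e, he, ?_⟩
    by_cases hB : TB q (insert g Y)
    · left
      exact fun hh => hB _ h.hac (hh.anti (gr_sdiff_le hI.hY))
    · right
      exact ih _ _ _ _ hG' (fun hw => hs ⟨hB, hw⟩) hK'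

lemma win_start (q : ℕ) (hq : 0 < q) : ∃ t n₀ : ℕ, ∀ n : ℕ, n₀ ≤ n →
    Win (TA q) (TB q) t (∅ : Finset (Fin n × Fin n)) ∅ := by
  set m := 2 * sz (2 * q - 1) (q - 1) + 1 with hm
  set K := m + 2 * tot (2 * q - 1) (q - 1) with hK
  refine ⟨K * K + 2, 2 * (K * K) + 4 + m, fun n hn => ?_⟩
  by_contra hsafe
  have hV : 2 * (K * K) + 3 < Fintype.card (Fin n) := by
    rw [Fintype.card_fin]
    omega
  obtain ⟨e, he⟩ := exists_free (F := (∅ : Finset (Fin n × Fin n))) (S := ∅) (by
    simp only [card_empty]
    omega)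
  refine hsafe ⟨e, he, ?_⟩
  rcases Nat.lt_or_ge 1 q with hq1 | hq1
  · right
    obtain ⟨R, -, hR⟩ := exists_subset_card_eq (s := (univ : Finset (Fin n))) (n := m) (by
      rw [card_univ, Fintype.card_fin]
      omega)
    obtain ⟨v, hv⟩ := card_pos.1 (show 0 < R.card by omega)
    have hbot : gr (∅ : Finset (Fin n × Fin n)) = ⊥ := by
      ext x y
      simp [gr_adj]
    refine step hq hV _ _ ∅ ∅ ∅ ⟨∅, R, {v}, R.erase v, ∅, v, q - 1, Fin.val, ?_⟩
      (fun hw => hsafe hw.succ) (by omega)
    refine { hX := Subset.refl _, hS := empty_subset _, hY := empty_subset _, hU := Subset.refl _,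
             hXf := ?_, hac := ?_, hρ := fun e he => absurd he (notMem_empty _),
             hinj := fun a _ b _ hab => Fin.ext hab, hvD := notMem_erase _ _,
             hvN := notMem_empty _, hDN := fun _ _ => notMem_empty _,
             hZ := fun e he => absurd he (notMem_empty _), hRZ := ?_, hZc := ?_,
             hvC := mem_singleton_self _, hC := ?_, hCc := ?_, hCD := ?_,
             hCN := fun _ _ a ha => absurd ha (notMem_empty _), hD := ?_, hN := ?_, hDc := ?_,
             hF := ?_ }
    · rw [hbot]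
      exact SimpleGraph.cliqueFree_bot hq1
    · rw [hbot]
      exact SimpleGraph.isAcyclic_bot
    · rw [union_empty, insert_erase hv]
    · simp only [card_empty]
      omega
    · simp
    · simp only [card_singleton]
      omega
    · intro x hx hxv
      exact absurd (mem_singleton.1 hx) hxv
    · intro d _
      simp [hbot]
    · obtain ⟨r, hr⟩ : ∃ r, q - 1 = r + 1 := ⟨q - 2, by omega⟩
      rw [hr]
      simp [sz]
    · rw [card_erase_of_mem hv]
      simp only [card_empty]
      omega
    · simp
  · left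
    obtain rfl : q = 1 := by omega
    exact fun hh => hh {e.1} (by simp)

/-- positions reached when the first player uses the move function `mv` -/
def pos (mv : ℕ → Finset (V × V) → Finset (V × V) → V × V) :
    (i : ℕ) → (Fin i → V × V) → Finset (V × V) × Finset (V × V)
  | 0, _ => (∅, ∅)
  | i + 1, h =>
    (insert (mv i (pos mv i (fun l => h l.castSucc)).1 (pos mv i (fun l => h l.castSucc)).2)
      (pos mv i (fun l => h l.castSucc)).1,
     insert (h (Fin.last i)) (pos mv i (fun l => h l.castSucc)).2)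

lemma strategy {A B : Finset (V × V) → Prop} {t : ℕ} (hW : Win A B t ∅ ∅) :
    ∃ σ : (i : ℕ) → (Fin i → V × V) → V × V, ∀ b : ℕ → V × V,
      (∀ i < t, (b i).1 < (b i).2 ∧ (∀ j ≤ i, b i ≠ σ j (fun l : Fin j => b l.val)) ∧
        (∀ j < i, b i ≠ b j)) →
      ∃ k < t,
        (∀ i ≤ k, (σ i (fun l : Fin i => b l.val)).1 < (σ i (fun l : Fin i => b l.val)).2 ∧
          (∀ j < i, σ i (fun l : Fin i => b l.val) ≠ σ j (fun l : Fin j => b l.val)) ∧
          (∀ j < i, σ i (fun l : Fin i => b l.val) ≠ b j)) ∧
        A ((range (k + 1)).image (fun i => σ i (fun l : Fin i => b l.val))) ∧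
        ∀ j < k, ¬ B ((range (j + 1)).image b) := by
  classical
  have hne : Nonempty (V × V) := by
    cases t with
    | zero => exact hW.elim
    | succ t => exact ⟨hW.choose⟩
  have hch : ∀ (s : ℕ) (F S : Finset (V × V)), ∃ e, Win A B (s + 1) F S →
      Free F S e ∧ (A (insert e F) ∨
        ∀ f, Free (insert e F) S f → ¬ B (insert f S) ∧ Win A B s (insert e F) (insert f S)) := by
    intro s F S
    by_cases h : Win A B (s + 1) F S
    · obtain ⟨e, he⟩ := h
      exact ⟨e, fun _ => he⟩
    · exact ⟨hne.some, fun h' => absurd h' h⟩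
  choose mv hmv using hch
  let mv' : ℕ → Finset (V × V) → Finset (V × V) → V × V := fun i => mv (t - i - 1)
  refine ⟨fun i h => mv' i (pos mv' i h).1 (pos mv' i h).2, fun b hb => ?_⟩
  set a : ℕ → V × V := fun i => mv' i (pos mv' i (fun l : Fin i => b l.val)).1
    (pos mv' i (fun l : Fin i => b l.val)).2 with ha
  have hpos : ∀ i, pos mv' i (fun l : Fin i => b l.val) = ((range i).image a, (range i).image b) := by
    intro i
    induction i with
    | zero => simp [pos]
    | succ i ih =>
      rw [range_add_one, image_insert, image_insert, pos]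
      have e1 : (fun l : Fin i => b (l.castSucc).val) = fun l : Fin i => b l.val := rfl
      simp only [e1, Fin.val_last]
      congr 1
      · rw [show (pos mv' i (fun l : Fin i => b l.val)).1 = (range i).image a from by rw [ih]]
        congr 1
        simp only [ha, ih]
      · rw [ih]
  have ha' : ∀ i, a i = mv (t - i - 1) ((range i).image a) ((range i).image b) := by
    intro i
    conv_lhs => simp only [ha]
    rw [hpos]
  change (∀ i < t, (b i).1 < (b i).2 ∧ (∀ j ≤ i, b i ≠ a j) ∧ (∀ j < i, b i ≠ b j)) at hb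
  change ∃ k < t, (∀ i ≤ k, (a i).1 < (a i).2 ∧ (∀ j < i, a i ≠ a j) ∧ (∀ j < i, a i ≠ b j)) ∧
    A ((range (k + 1)).image a) ∧ ∀ j < k, ¬ B ((range (j + 1)).image b)
  have key : ∀ s i, i + s = t → Win A B s ((range i).image a) ((range i).image b) →
      (∀ i' < i, (a i').1 < (a i').2 ∧ (∀ j < i', a i' ≠ a j) ∧ (∀ j < i', a i' ≠ b j)) →
      (∀ j < i, ¬ B ((range (j + 1)).image b)) →
      ∃ k < t, (∀ i ≤ k, (a i).1 < (a i).2 ∧ (∀ j < i, a i ≠ a j) ∧ (∀ j < i, a i ≠ b j)) ∧
        A ((range (k + 1)).image a) ∧ ∀ j < k, ¬ B ((range (j + 1)).image b) := by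
    intro s
    induction s with
    | zero => intro i _ hw; exact hw.elim
    | succ s ih =>
      intro i hi hw hleg hnB
      have h1 := hmv s _ _ hw
      have hs : t - i - 1 = s := by omega
      rw [← hs, ← ha' i, hs] at h1
      obtain ⟨hfree, h1⟩ := h1
      have hleg' : ∀ i' ≤ i, (a i').1 < (a i').2 ∧ (∀ j < i', a i' ≠ a j) ∧
          (∀ j < i', a i' ≠ b j) := by
        intro i' hi'
        rcases lt_or_eq_of_le hi' with hlt | rfl
        · exact hleg i' hlt
        · exact ⟨hfree.1, fun j hj hh => hfree.2.1 (mem_image.2 ⟨j, mem_range.2 hj, hh.symm⟩),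
            fun j hj hh => hfree.2.2 (mem_image.2 ⟨j, mem_range.2 hj, hh.symm⟩)⟩
      rcases h1 with h1 | h1
      · refine ⟨i, by omega, hleg', ?_, hnB⟩
        rw [range_add_one, image_insert]
        exact h1
      · obtain ⟨hb1, hb2, hb3⟩ := hb i (by omega)
        have hfb : Free (insert (a i) ((range i).image a)) ((range i).image b) (b i) := by
          refine ⟨hb1, fun hh => ?_, fun hh => ?_⟩
          · rcases mem_insert.1 hh with hh | hh
            · exact hb2 i le_rfl hh
            · obtain ⟨j, hj, hh⟩ := mem_image.1 hh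
              exact hb2 j (mem_range.1 hj).le hh.symm
          · obtain ⟨j, hj, hh⟩ := mem_image.1 hh
            exact hb3 j (mem_range.1 hj) hh.symm
        obtain ⟨h2, h3⟩ := h1 _ hfb
        refine ih (i + 1) (by omega) ?_ (fun i' hi' => hleg' i' (by omega)) ?_
        · rw [range_add_one, image_insert, image_insert]
          exact h3
        · intro j hj
          rcases lt_or_eq_of_le (Nat.lt_succ_iff.1 hj) with hlt | rfl
          · exact hnB j hlt
          · rw [range_add_one, image_insert]
            exact h2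
  exact key t 0 (by omega) (by simpa using hW) (fun _ h => absurd h (by omega))
    (fun _ h => absurd h (by omega))

end Pool.Agent.Lib.MP_4a944d_co
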