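import Pool.Agent.Lib.MP_4a944d_co.HPot

/-! The interface of a blocking potential. -/

set_option autoImplicit false

namespace Pool.Agent.Lib.MP_4a944d_co.Hc

open Finset

/-- `psi F S` is a potential for the owner of `F`, who keeps the owner of `S` from a `K_r` while
`S` has at most `N` edges and the potential is at most `G`. -/
structure Pot {V : Type*} [LinearOrder V] (θ τ G : ℝ) (N r : ℕ)
    (psi : Finset (V × V) → Finset (V × V) → ℝ)
    (psx : V × V → Finset (V × V) → Finset (V × V) → ℝ) : Prop where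
  nonneg : ∀ F S, 0 ≤ psi F S
  xnonneg : ∀ x F S, 0 ≤ psx x F S
  psiF : ∀ x F S, psi (insert x F) S = psi F S - psx x F S
  psxF : ∀ x y F S, psx y (insert x F) S ≤ psx y F S
  psiS : ∀ y F S, Up S → y.1 < y.2 → y ∉ S → S.card < N → psi F S ≤ G →
    psi F (insert y S) ≤ psi F S + (θ - 1) * psx y F S + 14 * τ * psi F S
  empty : psi ∅ ∅ ≤ 1
  clique : ∀ F S Q, Up F → Disjoint F S → psi F S ≤ G → Cl S Q → Q.card ≠ r

/-- The statement to be proved about the new potential. -/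
def PotSt : Prop :=
  ∀ θ β c : ℝ, 1 < θ → θ ≤ 2 → 0 < β → 3 / 2 * β < c * Real.log θ → ∃ ε : ℝ, 0 < ε ∧
    ∀ᶠ q : ℕ in Filter.atTop, ∀ (τ : ℝ) (N r : ℕ), Real.exp (-(β * q)) ≤ τ → τ ≤ 1 →
      (N : ℝ) ≤ Real.exp (β * q) → c * q ≤ r → r ≤ c * q + 1 →
      ∀ (V : Type) [LinearOrder V], ∃ psi psx, Pot (V := V) θ τ (Real.exp (ε * q ^ 2)) N r psi psx

end Pool.Agent.Lib.MP_4a944d_co.Hc
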