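import Pool.Agent.Lib.MP_4a944d_co.HZone
import Pool.Agent.Lib.MP_4a944d_co.NDef

/-! Building in a zone while blocking everywhere, for an abstract potential. -/

set_option autoImplicit false

noncomputable section

namespace Pool.Agent.Lib.MP_4a944d_co.Hc

open Finset
open scoped Classical

variable {V : Type*} [LinearOrder V]

theorem zoneN [Fintype V] {A B : Finset (V × V) → Prop} {τ θ G : ℝ} {N r : ℕ}
    {ps : Finset (V × V) → Finset (V × V) → ℝ} {px : V × V → Finset (V × V) → Finset (V × V) → ℝ}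
    (P : Pot θ τ G N r ps px) (h0 : 0 < τ) (h2 : 1 ≤ θ) (h3 : θ ≤ 2) (Λ : (Finset (V × V) → ℝ) →ₗ[ℝ] ℝ) {A₀ F₀ : Finset (V × V)}
    {μ κ u γ Lm L1 : ℝ} {t' d : ℕ} (hsupp : ∀ φ, (∀ E ⊆ A₀, φ E = 0) → Λ φ = 0) (hA₀ : Up A₀)
    (hmax : ∀ X D, 0 ≤ Λ (nu X D) → Λ (nu X D) ≤ Lm ∧ ∀ x y, x ≠ y → Λ (g2 x y X D) ≤ γ)
    (hμ : 0 < μ) (hL1 : 0 ≤ L1) (hκ : 0 ≤ κ) (hγ : 0 ≤ γ) (hu0 : 0 ≤ u)
    (hu : u + γ + 14 * τ * Lm ≤ (2 - θ) * κ) (hG : ∀ x, μ * x ≤ Lm → x ≤ G) (hN : d ≤ N)
    (hB : ∀ F S, Up F → Disjoint F S → μ * ps F S ≤ Lm → ¬ B S)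
    (hc : ∀ F S X D, Up F → Up S → Disjoint F S → F₀ ⊆ F → X ⊆ F → A₀ ⊆ X ∪ D →
      F.card + S.card ≤ d → μ * ps F S ≤ Lm → L1 ≤ Λ (nu X D) → Win A B t' F S) :
    ∀ (t : ℕ) (F S X D : Finset (V × V)), Up F → Up S → Disjoint F S → F₀ ⊆ F → X ⊆ F →
      (∀ e ∈ A₀, e ∈ F ∨ e ∈ S → e ∈ X ∪ D) → F.card + S.card + 2 * t ≤ d →
      κ * (A₀ \ (X ∪ D)).card - Λ (nu X D) + μ * ps F S ≤ -L1 →
      κ * (A₀ \ (X ∪ D)).card - Λ (nu X D) + μ * ps F S + Lm < t * u →
      Win A B (t + t') F S := by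
  have bd : ∀ {F S X D : Finset (V × V)},
      κ * (A₀ \ (X ∪ D)).card - Λ (nu X D) + μ * ps F S ≤ -L1 →
      0 ≤ Λ (nu X D) ∧ L1 ≤ Λ (nu X D) ∧ μ * ps F S ≤ Lm := fun {F S X D} h => by
    have a := mul_nonneg hμ.le (P.nonneg F S)
    have b := mul_nonneg hκ (Nat.cast_nonneg (A₀ \ (X ∪ D)).card)
    have c : 0 ≤ Λ (nu X D) := by linarith
    exact ⟨c, by linarith, by linarith [(hmax X D c).1]⟩
  intro t
  induction t with
  | zero =>
    intro F S X D _ _ _ _ _ _ _ m1 m2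
    have a := mul_nonneg hμ.le (P.nonneg F S)
    have b := mul_nonneg hκ (Nat.cast_nonneg (A₀ \ (X ∪ D)).card)
    have c := (hmax X D (bd m1).1).1
    simp only [Nat.cast_zero, zero_mul] at m2
    linarith
  | succ t ih =>
    intro F S X D₀ hF hS hd hF₀ hX hz₀ hcard m1₀ m2₀
    obtain ⟨Z, hZ, hmin⟩ := exists_min_image A₀.powerset
      (fun Z => κ * (A₀ \ (X ∪ (D₀ ∪ Z))).card - Λ (nu X (D₀ ∪ Z))) ⟨∅, empty_mem_powerset _⟩
    have e0 := hmin ∅ (empty_mem_powerset _)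
    rw [union_empty] at e0
    have cl : ∀ x ∈ A₀ \ (X ∪ (D₀ ∪ Z)), κ ≤ Λ (gn x X (D₀ ∪ Z)) := fun x hx => by
      have := hmin (insert x Z) (mem_powerset.2 (insert_subset (mem_sdiff.1 hx).1
        (mem_powerset.1 hZ)))
      rw [union_insert, union_insert, sdiff_insert, nu_D, map_sub, ← card_erase_add_one hx] at this
      push_cast at this
      linarith
    have hz : ∀ e ∈ A₀, e ∈ F ∨ e ∈ S → e ∈ X ∪ (D₀ ∪ Z) := fun e he a =>
      union_subset_union_right subset_union_left (hz₀ e he a)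
    generalize D₀ ∪ Z = D at e0 cl hz
    have m1 : κ * (A₀ \ (X ∪ D)).card - Λ (nu X D) + μ * ps F S ≤ -L1 := by linarith
    have m2 : κ * (A₀ \ (X ∪ D)).card - Λ (nu X D) + μ * ps F S + Lm < t * u + u := by
      push_cast at m2₀
      linarith
    obtain ⟨p0, p1, p2⟩ := bd m1
    rcases (A₀ \ (X ∪ D)).eq_empty_or_nonempty with hE | ⟨x₀, hx₀⟩
    · exact Win.add (hc F S X D hF hS hd hF₀ hX (sdiff_eq_empty_iff_subset.1 hE) (by omega) p2 p1) _
    have fr : ∀ e ∈ A₀ \ (X ∪ D), Free F S e := fun e he => by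
      obtain ⟨a, b⟩ := mem_sdiff.1 he
      exact ⟨hA₀ e a, fun c => b (hz e a (.inl c)), fun c => b (hz e a (.inr c))⟩
    have g0 : ∀ e, Free F S e → e ∉ A₀ \ (X ∪ D) → Λ (gn e X D) = 0 := fun e he hn =>
      hsupp _ fun E hE => by
        unfold gn nu
        split_ifs with a b
        · exact absurd (mem_sdiff.2 ⟨hE a, fun c => (mem_union.1 c).elim (fun c => he.2.1 (hX c))
            (disjoint_left.1 b a)⟩) hn
        · rfl
        · rfl
    obtain ⟨x, hx, hxm⟩ := exists_max_image (univ.filter (Free F S))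
      (fun e => Λ (gn e X D) + μ * px e F S) ⟨x₀, mem_filter.2 ⟨mem_univ _, fr _ hx₀⟩⟩
    have hx := (mem_filter.1 hx).2
    have gx : κ ≤ Λ (gn x X D) + μ * px x F S := by
      have a := hxm x₀ (mem_filter.2 ⟨mem_univ _, fr _ hx₀⟩)
      have b := mul_nonneg hμ.le (P.xnonneg x₀ F S)
      linarith [cl x₀ hx₀]
    rw [Nat.add_right_comm]
    refine ⟨x, hx, .inr fun y hy => ?_⟩
    have yx : x ≠ y := fun e => hy.2.1 (e ▸ mem_insert_self _ _)
    have hy' : Free F S y := ⟨hy.1, fun a => hy.2.1 (mem_insert_of_mem a), hy.2.2⟩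
    have gy := hxm y (mem_filter.2 ⟨mem_univ _, hy'⟩)
    have q1 := mul_le_mul_of_nonneg_left (P.psiS y (insert x F) S hS hy.1 hy.2.2 (by omega)
      (by rw [P.psiF]; linarith [hG _ p2, P.xnonneg x F S])) hμ.le
    have q2 := mul_le_mul_of_nonneg_left (mul_le_mul_of_nonneg_left
      (P.psxF x y F S) hμ.le) (sub_nonneg.2 h2)
    have q3 := mul_nonneg hμ.le (P.xnonneg x F S)
    have q4 := mul_nonneg hμ.le (P.xnonneg y F S)
    rw [P.psiF x F S] at q1
    have q5 : μ * ps (insert x F) (insert y S) ≤ μ * ps F S - μ * px x F S +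
        (θ - 1) * (μ * px y F S) + 14 * τ * Lm := by
      nlinarith [mul_le_mul_of_nonneg_left p2 h0.le, mul_nonneg h0.le q3]
    have q6 : (θ - 1) * (μ * px y F S) ≤ μ * px y F S := by nlinarith
    have q7 : (2 - θ) * κ ≤ κ := by nlinarith
    have cd : ∀ {e : V × V} {T : Finset (V × V)}, e ∈ A₀ \ (X ∪ D) → insert e (X ∪ D) ⊆ T →
        κ * (A₀ \ T).card ≤ κ * (A₀ \ (X ∪ D)).card - κ := fun {e T} he hT => by
      have a := card_le_card (sdiff_subset_sdiff (Subset.refl A₀) hT)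
      rw [sdiff_insert] at a
      rw [← card_erase_add_one he]
      push_cast
      have := mul_le_mul_of_nonneg_left (Nat.cast_le (α := ℝ).2 a) hκ
      linarith
    obtain ⟨X', a1, a2, a3, a4⟩ : ∃ X', X ⊆ X' ∧ X' ⊆ insert x F ∧ x ∉ A₀ \ (X' ∪ D) ∧
        κ * (A₀ \ (X' ∪ insert y D)).card - Λ (nu X' (insert y D)) +
          μ * ps (insert x F) (insert y S) ≤
          κ * (A₀ \ (X ∪ D)).card - Λ (nu X D) + μ * ps F S - u := by
      by_cases xz : x ∈ A₀ \ (X ∪ D)
      · have xX : x ∉ X := fun a => hx.2.1 (hX a)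
        refine ⟨insert x X, subset_insert _ _, insert_subset_insert _ hX, by simp, ?_⟩
        have c := cd (T := insert x X ∪ insert y D) xz (by
          rw [← insert_union]
          exact union_subset_union_right (subset_insert _ _))
        rw [nu_D, gn_X xX, nu_X xX, map_sub, map_add, map_add]
        linarith [(hmax X D p0).2 x y yx]
      · refine ⟨X, Subset.refl _, hX.trans (subset_insert _ _), xz, ?_⟩
        rw [nu_D, map_sub]
        rw [g0 x hx xz] at gx gy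
        by_cases yz : y ∈ A₀ \ (X ∪ D)
        · have c := cd (T := X ∪ insert y D) yz (union_insert _ _ _).ge
          linarith
        · rw [g0 y hy' yz] at gy ⊢
          have c := mul_le_mul_of_nonneg_left (Nat.cast_le (α := ℝ).2 (card_le_card
            (sdiff_subset_sdiff (Subset.refl A₀) (union_subset_union_right (s := X)
              (subset_insert y D))))) hκ
          nlinarith
    have hd' : Disjoint (insert x F) (insert y S) :=
      disjoint_insert_right.2 ⟨hy.2.1, disjoint_insert_left.2 ⟨hx.2.2, hd⟩⟩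
    have m1' := a4.trans (show _ ≤ -L1 by linarith)
    refine ⟨hB _ _ (hF.insert hx.1) hd' (bd m1').2.2, ih _ _ X' (insert y D) (hF.insert hx.1)
      (hS.insert hy.1) hd' (hF₀.trans (subset_insert _ _)) a2 (fun e he a => ?_) ?_ m1' (by linarith)⟩
    · have s : X ∪ D ⊆ X' ∪ insert y D := union_subset_union a1 (subset_insert _ _)
      simp only [mem_insert] at a
      rcases a with (rfl | a) | rfl | a
      · exact union_subset_union_right (subset_insert _ _)
          (not_not.1 fun c => a3 (mem_sdiff.2 ⟨he, c⟩))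
      · exact s (hz e he (.inl a))
      · simp
      · exact s (hz e he (.inr a))
    · have := card_insert_le x F
      have := card_insert_le y S
      omega

end Pool.Agent.Lib.MP_4a944d_co.Hc
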