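import Pool.Agent.Lib.MP_4a944d_co.HStage
import Pool.Agent.Lib.MP_4a944d_co.NZone

/-! Star stages and the final stage, for an abstract potential. -/

set_option autoImplicit false

noncomputable section

namespace Pool.Agent.Lib.MP_4a944d_co.Hc

open Finset
open scoped Classical

variable {V : Type*} [LinearOrder V]

variable [Fintype V] {A B : Finset (V × V) → Prop} {τ Γ G : ℝ} {M r w a : ℕ} {F S : Finset (V × V)}
  {ps : Finset (V × V) → Finset (V × V) → ℝ} {px : V × V → Finset (V × V) → Finset (V × V) → ℝ}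
  (P : Pot (2 - 1 / w) τ G M r ps px) (h0 : 0 < τ) (hw : 1 ≤ w) (hΓ : 0 < Γ) (hF : Up F) (hS : Up S) (hd : Disjoint F S)
  (hψ : ps F S ≤ Γ)

include P h0 hw hΓ hF hS hd hψ

theorem lastN {W C : Finset V} {p t : ℕ} (hp : 3 ≤ p) (ha : p ≤ 2 * a)
    (hM : 12 * p ^ 2 * 2 ^ a ≤ W.card) (H1 : (32 * w * (1728 * p ^ 7) ^ 2) ^ 4 ≤ W.card)
    (ht : t = 65 * w * (1728 * p ^ 7) ^ 2 * W.card ^ 2) (hτ : 14 * τ * t ≤ 1) (hC : Cl F C)
    (hCW : ∀ c ∈ C, ∀ u ∈ W, pr c u ∈ F) (hdj : Disjoint C W)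
    (hc : (F.card + S.card) * (8 * p ^ 2) ≤ W.card ^ 2)
    (hB : ∀ F S, Up F → Disjoint F S → ps F S ≤ 16 * (1728 * p ^ 7) ^ 2 * Γ → ¬ B S)
    (hG : 16 * (1728 * p ^ 7) ^ 2 * Γ ≤ G) (hN : F.card + S.card + 2 * t ≤ M)
    (hV : F.card + S.card + 2 * t + 1 < Fintype.card V) : Win (Has (C.card + p)) B (t + 1) F S := by
  have M2 := two_p hp hM
  have M0 : (0 : ℝ) < W.card := by exact_mod_cast (show 0 < W.card by omega)
  have w1 : (1 : ℝ) ≤ w := by exact_mod_cast hw
  have p1 : (1 : ℝ) ≤ p := by exact_mod_cast (show 1 ≤ p by omega)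
  have up := beck_up hp ha hM (F ∪ S)
  have low := beck_low hp hM ((Nat.mul_le_mul_right _ (card_union_le F S)).trans hc)
  have H1' : (32 * w * (1728 * p ^ 7) ^ 2 : ℝ) ^ 4 ≤ W.card := by exact_mod_cast H1
  have ht' : (t : ℝ) = 65 * w * (1728 * p ^ 7) ^ 2 * W.card ^ 2 := by exact_mod_cast ht
  have b0 : (0 : ℝ) < W.card.choose p * (1 / 2) ^ p.choose 2 :=
    mul_pos (by exact_mod_cast Nat.choose_pos (by omega)) (by positivity)
  have β1 : (1 : ℝ) ≤ 1728 * p ^ 7 := by nlinarith [one_le_pow₀ (n := 7) p1]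
  generalize (W.card.choose p * (1 / 2) ^ p.choose 2 : ℝ) = b at up low b0
  generalize (1728 * p ^ 7 : ℝ) = β at up β1 H1' ht' hB hG
  have i1 : 1 / (w : ℝ) ≤ 1 := by rwa [div_le_one (by positivity)]
  have i0 : 0 ≤ 1 / (w : ℝ) := by positivity
  have t1 : (1 : ℝ) ≤ t := by
    rw [ht']
    have : (1 : ℝ) ≤ W.card := by exact_mod_cast (show 1 ≤ W.card by omega)
    calc (1 : ℝ) ≤ 65 * 1 * 1 ^ 2 * 1 ^ 2 := by norm_num
      _ ≤ _ := by gcongr
  have e1 : (W.card : ℝ) ^ 3 * (2 * β ^ 2 * b / W.card ^ 3) = 2 * β ^ 2 * b := by field_simp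
  have m1 : b / (8 * W.card ^ 2) * (Ed W \ (∅ ∪ (F ∪ S))).card -
      (La W p - ((2 * β ^ 2 * b / W.card ^ 3) ^ 3)⁻¹ • Lb W p) (nu ∅ (F ∪ S)) +
      b / (8 * Γ) * ps F S ≤ -(b / 8) := by
    have c1 : ((Ed W \ (∅ ∪ (F ∪ S))).card : ℝ) ≤ W.card ^ 2 := by
      exact_mod_cast (card_le_card sdiff_subset).trans ((card_Ed W).trans_le (Nat.choose_le_pow _ _))
    have c2 : b / (8 * W.card ^ 2) * (Ed W \ (∅ ∪ (F ∪ S))).card ≤ b / 8 :=
      (mul_le_mul_of_nonneg_left c1 (by positivity)).trans_eq (by field_simp)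
    have c3 : b / (8 * Γ) * ps F S ≤ b / 8 :=
      (mul_le_mul_of_nonneg_left hψ (by positivity)).trans_eq (by field_simp)
    have c4 : ((2 * β ^ 2 * b / W.card ^ 3) ^ 3)⁻¹ * Lb W p (nu ∅ (F ∪ S)) ≤ b / 8 :=
      calc _ ≤ _ := mul_le_mul_of_nonneg_left up (by positivity)
        _ = b / 8 / β ^ 2 := by field_simp; norm_num
        _ ≤ _ := div_le_self (by positivity) (one_le_pow₀ β1)
    simp only [LinearMap.sub_apply, LinearMap.smul_apply, smul_eq_mul]
    linarith
  have hx : ∀ {x : ℝ}, b / (8 * Γ) * x ≤ W.card ^ 3 * (2 * β ^ 2 * b / W.card ^ 3) →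
      x ≤ 16 * β ^ 2 * Γ := fun c => by
    rw [e1, div_mul_eq_mul_div, div_le_iff₀ (by positivity)] at c
    nlinarith
  refine zoneN P h0 (by linarith) (by linarith) _ (F₀ := F)
    (u := b / (32 * w * W.card ^ 2)) (d := F.card + S.card + 2 * t) (beck_supp _)
    (fun e he => (mem_Ed.1 he).2.2) (beck_max hp (σ := W.card / (32 * w * β ^ 2)) (by positivity)
      (by positivity) ?_) (by positivity) (by positivity) (by positivity) (by positivity)
    (by positivity) ?_ (fun _ c => (hx c).trans hG) hN (fun F S a b c => hB F S a b (hx c))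
    (fun F' S' X D a1 a2 a3 a4 a5 a6 a7 _ a9 => ?_)
    t F S ∅ (F ∪ S) hF hS hd (Subset.refl _) (empty_subset _)
    (fun e _ h => mem_union_right _ (mem_union.2 h)) le_rfl m1 ?_
  · rw [div_pow, le_div_iff₀ (by positivity), pow_succ (W.card : ℝ) 3]
    gcongr
  · have c : 14 * τ * (2 * β ^ 2 * b) ≤ b / (32 * w * W.card ^ 2) := by
      rw [le_div_iff₀ (by positivity)]
      rw [ht'] at hτ
      nlinarith [mul_le_mul_of_nonneg_left hτ b0.le,
        show 0 ≤ τ * (w * β ^ 2 * W.card ^ 2) * b by positivity]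
    rw [e1]
    refine (add_le_add le_rfl c).trans_eq ?_
    field_simp
    ring
  · obtain ⟨e, he⟩ := exists_free (F := F') (S := S') (by omega)
    have l0 := Lb_nonneg (W := W) (p := p) (φ := nu X D) fun _ => nu_nonneg
    simp only [LinearMap.sub_apply, LinearMap.smul_apply, smul_eq_mul] at a9
    obtain ⟨Q, q1, q2, q3⟩ := beck_end (p := p) (by
      linarith [mul_nonneg (show 0 ≤ ((2 * β ^ 2 * b / W.card ^ 3) ^ 3)⁻¹ by positivity) l0]) a6
    exact ⟨e, he, .inl ⟨C ∪ Q, by rw [card_union_of_disjoint (hdj.mono_right q1), q2],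
      ((hC.mono a4).union (fun x hx y hy l => a5 (q3 (mem_Ed.2 ⟨hx, hy, l⟩)))
        fun c hc u hu => a4 (hCW c hc u (q1 hu))).mono (subset_insert _ _)⟩⟩
  · have : (t : ℝ) * (b / (32 * w * W.card ^ 2)) = 65 / 32 * (β ^ 2 * b) := by
      rw [ht']
      field_simp
    rw [e1, this]
    nlinarith [show 0 < β ^ 2 * b by positivity]

theorem starN {K : Finset V} {h N t t' : ℕ} (ha : 1 ≤ a) (hh : 1 ≤ h) (h1 : 2 * N + h ≤ K.card)
    (h2 : K.card ≤ 2 * a * h) (h3 : 2 * K.card + 4 * (F.card + S.card) ≤ h * K.card)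
    (ht : t = 65 * a ^ 2 * w * h) (hτ : 14 * τ * t ≤ 1)
    (hB : ∀ F S, Up F → Disjoint F S → ps F S ≤ 16 * a * Γ → ¬ B S)
    (hG : 16 * a * Γ ≤ G) (hN : F.card + S.card + 2 * t ≤ M)
    (hc : ∀ F' S' v K', v ∈ K → K' ⊆ K.erase v → K'.card = N → (∀ u ∈ K', pr v u ∈ F') → Up F' →
      Up S' → Disjoint F' S' → F ⊆ F' → F'.card + S'.card ≤ F.card + S.card + 2 * t →
      ps F' S' ≤ 16 * a * Γ → Win A B t' F' S') : Win A B (t + t') F S := by
  have w1 : (1 : ℝ) ≤ w := by exact_mod_cast hw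
  have a1 : (1 : ℝ) ≤ a := by exact_mod_cast ha
  have hh' : (1 : ℝ) ≤ h := by exact_mod_cast hh
  have i1 : 1 / (w : ℝ) ≤ 1 := by rwa [div_le_one (by positivity)]
  have i0 : 0 ≤ 1 / (w : ℝ) := by positivity
  have ht' : (t : ℝ) = 65 * a ^ 2 * w * h := by exact_mod_cast ht
  have t1 : (1 : ℝ) ≤ t := by
    rw [ht']
    calc (1 : ℝ) ≤ 65 * 1 ^ 2 * 1 * 1 := by norm_num
      _ ≤ _ := by gcongr
  obtain ⟨v, hv, dv⟩ : ∃ v ∈ K, (K.filter fun u => pr v u ∈ F ∪ S).card * K.card ≤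
      2 * (F.card + S.card) := by
    refine exists_le_of_sum_le (card_pos.1 (by omega)) ?_
    rw [← sum_mul, sum_const, smul_eq_mul, mul_comm K.card]
    refine Nat.mul_le_mul_right _ ?_
    simp only [card_filter]
    rw [← sum_product', ← card_filter]
    refine (card_le_card (t := (F ∪ S) ∪ (F ∪ S).image Prod.swap) fun e he => ?_).trans ?_
    · have := (mem_filter.1 he).2
      unfold pr at this
      split_ifs at this
      exacts [mem_union_left _ this, mem_union_right _ (mem_image.2 ⟨_, this, rfl⟩)]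
    · have := card_union_le (F ∪ S) ((F ∪ S).image Prod.swap)
      have := card_image_le (s := F ∪ S) (f := Prod.swap)
      have := card_union_le F S
      omega
  have d1 : 2 + 2 * (K.filter fun u => pr v u ∈ F ∪ S).card ≤ h :=
    Nat.le_of_mul_le_mul_right (by nlinarith) (show 0 < K.card by omega)
  let Λ : (Finset (V × V) → ℝ) →ₗ[ℝ] ℝ := ∑ u ∈ K.erase v, LinearMap.proj {pr v u}
  have eΛ : ∀ φ, Λ φ = ∑ u ∈ K.erase v, φ {pr v u} := fun φ => by
    simp only [Λ, LinearMap.sum_apply, LinearMap.proj_apply]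
  have k2 : (K.card : ℝ) ≤ 2 * a * h := by exact_mod_cast h2
  have psi' : ∀ {x : ℝ}, h / (8 * Γ) * x ≤ 2 * a * h → x ≤ 16 * a * Γ := fun c => by
    rw [div_mul_eq_mul_div, div_le_iff₀ (by positivity)] at c
    nlinarith
  have m1 : 1 / (16 * a) * (((K.erase v).image (pr v) \ (∅ ∪ (F ∪ S))).card : ℝ) -
      Λ (nu ∅ (F ∪ S)) + h / (8 * Γ) * ps F S ≤ -(N : ℝ) := by
    have c1 : (((K.erase v).image (pr v) \ (∅ ∪ (F ∪ S))).card : ℝ) ≤ 2 * a * h :=
      le_trans (by exact_mod_cast (card_le_card sdiff_subset).trans (card_image_le.trans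
        card_erase_le)) k2
    have c2 := (mul_le_mul_of_nonneg_left c1 (show (0 : ℝ) ≤ 1 / (16 * a) by positivity)).trans_eq
      (show _ = (h : ℝ) / 8 by field_simp; norm_num)
    have c3 : h / (8 * Γ) * ps F S ≤ h / 8 :=
      (mul_le_mul_of_nonneg_left hψ (by positivity)).trans_eq (by field_simp)
    have c4 : Λ (nu ∅ (F ∪ S)) = ((K.erase v).filter fun u => ¬ pr v u ∈ F ∪ S).card / 2 := by
      simp only [eΛ, nu, disjoint_singleton_left, sdiff_empty, card_singleton, pow_one]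
      rw [← sum_filter, sum_const, nsmul_eq_mul, mul_one_div]
    have c5 := card_filter_add_card_filter_not (s := K.erase v) fun u => pr v u ∈ F ∪ S
    have c6 := card_le_card (filter_subset_filter (fun u => pr v u ∈ F ∪ S) (erase_subset v K))
    have c7 := card_erase_add_one hv
    have c8 : (4 * N + h : ℝ) ≤ 2 * ((K.erase v).filter fun u => ¬ pr v u ∈ F ∪ S).card := by
      exact_mod_cast (by omega)
    linarith
  refine zoneN P h0 (by linarith) (by linarith) Λ (F₀ := F) (γ := 0) (Lm := 2 * a * h)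
    (u := 1 / (32 * a * w)) (d := F.card + S.card + 2 * t) (fun φ e => ?_) (fun e he => ?_)
    (fun X D _ => ⟨?_, fun x y xy => ?_⟩) (by positivity) (by positivity) (by positivity) le_rfl
    (by positivity) ?_ (fun _ c => (psi' c).trans hG) hN (fun F S a b c => hB F S a b (psi' c))
    (fun F' S' X D a1 a2 a3 a4 a5 a6 a7 a8 a9 => ?_) t F S ∅ (F ∪ S) hF hS hd (Subset.refl _)
    (empty_subset _) (fun e _ h => mem_union_right _ (mem_union.2 h)) le_rfl m1 ?_
  · rw [eΛ]
    exact sum_eq_zero fun u hu => e _ (singleton_subset_iff.2 (mem_image_of_mem _ hu))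
  · obtain ⟨u, hu, rfl⟩ := mem_image.1 he
    rcases lt_or_gt_of_ne (mem_erase.1 hu).1 with l | l
    exacts [pr_gt l ▸ l, pr_lt l ▸ l]
  · rw [eΛ]
    refine (sum_le_card_nsmul _ _ 1 fun _ _ => nu_le_one).trans (le_trans ?_ k2)
    rw [nsmul_eq_mul, mul_one]
    exact_mod_cast card_erase_le
  · rw [eΛ]
    exact (sum_eq_zero fun u _ => if_neg fun c =>
      xy ((mem_singleton.1 c.1).trans (mem_singleton.1 c.2).symm)).le
  · have c : 14 * τ * (2 * a * h) ≤ 1 / (32 * a * w) := by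
      rw [le_div_iff₀ (by positivity)]
      rw [ht'] at hτ
      nlinarith [show 0 ≤ τ * (a ^ 2 * w * h) by positivity]
    refine (add_le_add le_rfl c).trans_eq ?_
    field_simp
    ring
  · have c : N ≤ ((K.erase v).filter fun u => pr v u ∈ X).card := by
      rw [← Nat.cast_le (α := ℝ), card_filter]
      push_cast
      refine a9.trans ((eΛ _).trans_le (sum_le_sum fun u hu => ?_))
      split_ifs with c
      · exact nu_le_one
      · exact (if_neg fun e => disjoint_singleton_left.1 e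
          ((mem_union.1 (a6 (mem_image_of_mem _ hu))).resolve_left c)).le
    obtain ⟨K', b1, b2⟩ := exists_subset_card_eq c
    exact hc F' S' v K' hv (b1.trans (filter_subset _ _)) b2
      (fun u hu => a5 (mem_filter.1 (b1 hu)).2) a1 a2 a3 a4 a7 (psi' a8)
  · have : (t : ℝ) * (1 / (32 * a * w)) = 65 / 32 * (a * h) := by
      rw [ht']
      field_simp
    rw [this]
    nlinarith [show (0 : ℝ) < a * h by positivity, show (0 : ℝ) ≤ N by positivity]

end Pool.Agent.Lib.MP_4a944d_co.Hc
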