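import Pool.Agent.Lib.MP_4a944d_co.HWin
import Pool.Agent.Lib.MP_4a944d_co.NStage

/-! The whole strategy with explicit parameters, for an abstract potential. -/

set_option autoImplicit false

noncomputable section

namespace Pool.Agent.Lib.MP_4a944d_co.Hc

open Finset
open scoped Classical

variable {V : Type*} [LinearOrder V] [Fintype V]

theorem stagesN {B : Finset (V × V) → Prop} {τ G : ℝ} {M r w a p m z t : ℕ}
    {ps : Finset (V × V) → Finset (V × V) → ℝ} {px : V × V → Finset (V × V) → Finset (V × V) → ℝ}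
    (P : Pot (2 - 1 / w) τ G M r ps px) (h0 : 0 < τ) (hw : 1 ≤ w)
    (hp : 3 ≤ p) (ha : p ≤ 2 * a) (hz : z = 65 * a ^ 2 * w) (hm : m = 128 * 2 ^ a * z)
    (H1 : (32 * w * (1728 * p ^ 7) ^ 2) ^ 4 ≤ m * a)
    (ht : t = 65 * w * (1728 * p ^ 7) ^ 2 * (m * a) ^ 2) (hτ : 14 * τ * t ≤ 1)
    (hB : ∀ F S, Up F → Disjoint F S →
      ps F S ≤ 16 * (1728 * p ^ 7) ^ 2 * (16 * a) ^ a → ¬ B S)
    (hG : 16 * (1728 * p ^ 7) ^ 2 * (16 * a) ^ a ≤ G) (hN : 4 * 2 ^ a * m * z + 2 * t ≤ M)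
    (hV : 4 * 2 ^ a * m * z + 2 * t + 1 < Fintype.card V) :
    ∀ (s : ℕ) (F S : Finset (V × V)) (C K : Finset V), Up F → Up S → Disjoint F S → Cl F C →
      C.card + s = a → (∀ c ∈ C, ∀ u ∈ K, pr c u ∈ F) → Disjoint C K →
      K.card = 2 ^ s * m * (a + s) → ps F S ≤ (16 * a) ^ C.card →
      F.card + S.card + 4 * 2 ^ s * m * z ≤ 4 * 2 ^ a * m * z →
      Win (Has (a + p)) B (2 * 2 ^ s * m * z + (t + 1)) F S := by
  have a1 : 1 ≤ a := by omega
  have a1' : (1 : ℝ) ≤ a := by exact_mod_cast a1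
  have z1 : a ^ 2 ≤ z := by rw [hz]; nlinarith [Nat.mul_le_mul_left (a ^ 2) hw]
  have z0 : 1 ≤ z := (Nat.one_le_pow _ _ a1).trans z1
  have m2 : 128 ≤ m := by rw [hm]; nlinarith [Nat.mul_le_mul (Nat.one_le_two_pow (n := a)) z0]
  have mm : 32 * (4 * 2 ^ a * m * z) = m * m := by rw [hm]; ring
  have β1 : 1 ≤ (1728 * p ^ 7) ^ 2 := Nat.one_le_pow _ _ (by positivity)
  intro s
  induction s with
  | zero =>
    intro F S C K hF hS hd hC c1 c2 c3 c4 c5 c6
    obtain rfl : C.card = a := c1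
    simp only [pow_zero, one_mul, add_zero] at c4
    refine Win.add (lastN P h0 hw (by positivity) hF hS hd c5 hp ha ?_ (c4 ▸ H1) (c4 ▸ ht) hτ hC c2 c3
      ?_ hB hG (by omega) (by omega)) _
    · rw [c4, hm]
      calc _ ≤ 12 * (2 * C.card) ^ 2 * 2 ^ C.card := by gcongr
        _ = 48 * 2 ^ C.card * C.card ^ 2 * 1 := by ring
        _ ≤ _ := by gcongr; norm_num
    · rw [c4]
      calc _ ≤ (4 * 2 ^ C.card * m * z) * (8 * (2 * C.card) ^ 2) := by gcongr; omega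
        _ = 32 * (4 * 2 ^ C.card * m * z) * C.card ^ 2 := by ring
        _ = _ := by rw [mm]; ring
  | succ s ih =>
    intro F S C K hF hS hd hC c1 c2 c3 c4 c5 c6
    have s1 : 1 ≤ 2 ^ s := Nat.one_le_two_pow
    have h2 : 2 * m ≤ 2 ^ (s + 1) * m := by rw [pow_succ]; nlinarith
    rw [show 2 * 2 ^ (s + 1) * m * z + (t + 1) = z * (2 ^ (s + 1) * m) +
      (2 * 2 ^ s * m * z + (t + 1)) by ring]
    have g1 : (16 * a * (16 * a) ^ C.card : ℝ) ≤ 16 * (1728 * p ^ 7) ^ 2 * (16 * a) ^ a := by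
      rw [← pow_succ']
      refine (pow_le_pow_right₀ (by linarith) (by omega)).trans
        (le_mul_of_one_le_left (by positivity) ?_)
      have : (1 : ℝ) ≤ (1728 * p ^ 7) ^ 2 := by exact_mod_cast β1
      linarith
    refine starN P h0 hw (by positivity) hF hS hd c5 (K := K) (h := 2 ^ (s + 1) * m)
      (N := 2 ^ s * m * (a + s)) a1 (by omega) (by rw [c4]; exact le_of_eq (by ring)) ?_ ?_
      (by rw [hz]) (le_trans ?_ hτ) (fun F S a b c => hB F S a b (c.trans g1)) (g1.trans hG)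
      (by nlinarith)
      fun F' S' v K' b1 b2 b3 b4 b5 b6 b7 b8 b9 b10 => ?_
    · rw [c4, mul_comm]
      gcongr
      omega
    · have : 2 * m ≤ K.card := by rw [c4]; nlinarith
      have e : F.card + S.card ≤ 4 * 2 ^ a * m * z := by omega
      obtain ⟨x, hx⟩ := Nat.exists_eq_add_of_le (show 2 ≤ 2 ^ (s + 1) * m by omega)
      rw [hx]
      have : m * m ≤ x * K.card := Nat.mul_le_mul (by omega) (by omega)
      nlinarith
    · gcongr
      rw [ht]
      calc z * (2 ^ (s + 1) * m) ≤ z * (2 ^ a * m) := by gcongr; exacts [one_le_two, by omega]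
        _ ≤ m * m := by rw [← mm]; nlinarith
        _ = 1 * 1 * 1 * (m * 1) ^ 2 := by ring
        _ ≤ _ := by gcongr; norm_num
    · have vC : v ∉ C := disjoint_right.1 c3 b1
      have sub : K' ⊆ K := b2.trans (erase_subset _ _)
      refine ih F' S' (insert v C) K' b5 b6 b7 ?_ (by rw [card_insert_of_notMem vC]; omega)
        (forall_mem_insert .. |>.2 ⟨b4, fun c hc u hu => b8 (c2 c hc u (sub hu))⟩)
        (disjoint_insert_left.2 ⟨fun h => notMem_erase _ _ (b2 h), c3.mono_right sub⟩) b3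
        (by rwa [card_insert_of_notMem vC, pow_succ']) ?_
      · rw [insert_eq, union_comm]
        exact (hC.mono b8).union (fun x hx y hy l => absurd ((mem_singleton.1 hx).trans
          (mem_singleton.1 hy).symm) l.ne) fun c hc u hu => mem_singleton.1 hu ▸ b8 (c2 c hc v b1)
      · rw [pow_succ] at c6 b9
        nlinarith

theorem win_paramN {w a p r : ℕ} {G : ℝ} (hw : 1 ≤ w) (hp : 3 ≤ p) (ha : p ≤ 2 * a)
    (H1 : (32 * w * (1728 * p ^ 7) ^ 2) ^ 4 ≤ 2 ^ a)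
    (hG : 16 * (1728 * p ^ 7) ^ 2 * (16 * a) ^ a ≤ G)
    (H2 : ∀ n, ∃ ps px, Pot (V := Fin n) (2 - 1 / w) (14 * tt a p w : ℝ)⁻¹ G (14 * tt a p w) r
      ps px) :
    ∃ n₀, ∀ n, n₀ ≤ n → Win (V := Fin n) (Has (a + p)) (fun S => ∃ Q, r ≤ Q.card ∧ Cl S Q)
      (14 * tt a p w) ∅ ∅ := by
  obtain ⟨z, hz⟩ : ∃ z, z = 65 * a ^ 2 * w := ⟨_, rfl⟩
  obtain ⟨m, hm⟩ : ∃ m, m = 128 * 2 ^ a * z := ⟨_, rfl⟩
  have a1 : 1 ≤ a := by omega
  have z0 : 1 ≤ z := by rw [hz]; exact Nat.succ_le_of_lt (by positivity)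
  have ht : tt a p w = 65 * w * (1728 * p ^ 7) ^ 2 * (m * a) ^ 2 := by rw [hm, hz, tt]
  have m1 : 2 * 2 ^ a * z ≤ m := by rw [hm]; gcongr; norm_num
  have t1 : 2 * 2 ^ a * m * z ≤ tt a p w := by
    rw [ht]
    calc _ = 1 * 1 * 1 * (m * (2 * 2 ^ a * z) * 1) := by ring
      _ ≤ 65 * w * (1728 * p ^ 7) ^ 2 * (m * m * a ^ 2) := by
        gcongr
        exacts [by norm_num, Nat.one_le_pow _ _ (by positivity), Nat.one_le_pow _ _ a1]
      _ = _ := by ring
  have t0 : 0 < tt a p w := lt_of_lt_of_le (by rw [hm]; positivity) t1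
  generalize tt a p w = t at *
  have t0' : (0 : ℝ) < t := by exact_mod_cast t0
  refine ⟨2 ^ a * m * (a + a) + (4 * 2 ^ a * m * z + 2 * t + 2), fun n hn => ?_⟩
  obtain ⟨K, -, hK⟩ := exists_subset_card_eq (s := (univ : Finset (Fin n)))
    (n := 2 ^ a * m * (a + a)) (by rw [card_fin]; omega)
  obtain ⟨x, hx⟩ := Nat.exists_eq_add_of_le' (show 2 * 2 ^ a * m * z + (t + 1) ≤ 14 * t by omega)
  obtain ⟨ps, px, P⟩ := H2 n
  rw [hx]
  refine Win.add (stagesN P (by positivity) hw hp ha hz hm (H1.trans ?_) ht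
    (le_of_eq (by field_simp)) ?_ hG (by linarith) (by rw [Fintype.card_fin]; omega) a ∅ ∅ ∅ K
    (fun _ h => absurd h (notMem_empty _)) (fun _ h => absurd h (notMem_empty _))
    (disjoint_empty_left _) (fun _ h => absurd h (notMem_empty _)) (by simp)
    (fun _ h => absurd h (notMem_empty _)) (disjoint_empty_left _) hK
    (by rw [card_empty, pow_zero]; exact P.empty) (by simp)) _
  · calc 2 ^ a = 1 * 2 ^ a * 1 * 1 := by ring
      _ ≤ _ := by rw [hm]; gcongr; norm_num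
  · rintro F S hF hd hψ ⟨Q, q1, q2⟩
    obtain ⟨Q', s1, s2⟩ := exists_subset_card_eq q1
    exact P.clique F S Q' hF hd (hψ.trans hG) (fun x hx y hy => q2 x (s1 hx) y (s1 hy)) s2

end Pool.Agent.Lib.MP_4a944d_co.Hc
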