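import Pool.Agent.Lib.MP_4a944d_co.HAsy
import Pool.Agent.Lib.MP_4a944d_co.NWin

/-! Choice of the parameters, for an abstract potential. -/

set_option autoImplicit false

noncomputable section

namespace Pool.Agent.Lib.MP_4a944d_co.Hc

open Finset Filter Real
open scoped Classical Topology

lemma constsN {c α : ℝ} (hc : 1 < c) (hα : 2 / 3 < α) : ∃ (β : ℝ) (w : ℕ), 2 ≤ w ∧
    2 / 3 * log 2 < β ∧ β < α * log 2 ∧ 3 / 2 * β < c * log (2 - 1 / w) := by
  have L0 : 0 < log 2 := log_pos one_lt_two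
  obtain ⟨w, hw, w1⟩ : ∃ w : ℕ, 2 / 3 * log 2 < 2 / 3 * c * log (2 - 1 / w) ∧ 2 ≤ w := by
    have t1 : Tendsto (fun w : ℕ => 2 / 3 * c * log (2 - 1 / (w : ℝ))) atTop
        (𝓝 (2 / 3 * c * log (2 - 0))) :=
      ((tendsto_const_nhds.sub tendsto_one_div_atTop_nhds_zero_nat).log (by norm_num)).const_mul _
    exact ((t1.eventually (lt_mem_nhds (by rw [sub_zero]; nlinarith))).and
      (eventually_ge_atTop 2)).exists
  obtain ⟨β, b1, b2⟩ := exists_between (lt_min hw (mul_lt_mul_of_pos_right hα L0))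
  obtain ⟨b2, b3⟩ := lt_min_iff.1 b2
  exact ⟨β, w, w1, b1, b3, by linarith⟩

theorem win_asyN (H : PotSt) {c α : ℝ} (hc : 1 < c) (hα : 2 / 3 < α) :
    ∀ᶠ q : ℕ in atTop, ∃ t n₀ : ℕ, (t : ℝ) ≤ 2 ^ (α * q) ∧ ∀ n, n₀ ≤ n →
      Win (V := Fin n) (Has q) (fun S => ∃ Q : Finset (Fin n), c * q ≤ Q.card ∧ Cl S Q) t ∅ ∅ := by
  obtain ⟨β, w, w2, b1, b3, b4⟩ := constsN hc hα
  have L0 : 0 < log 2 := log_pos one_lt_two
  have b0 : 0 < β := by linarith
  have w2' : (2 : ℝ) ≤ w := by exact_mod_cast w2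
  have i1 : 1 / (w : ℝ) ≤ 1 / 2 := by gcongr
  have i0 : 0 ≤ 1 / (w : ℝ) := by positivity
  obtain ⟨ε, hε, H⟩ := H (2 - 1 / w) β c (by linarith) (by linarith) b0 b4
  filter_upwards [ev_poly (14 * 65 * w * 1728 ^ 2 * (128 * 65 * w) ^ 2 * 4) 20 (sub_pos.2 b1),
    ev_poly ((32 * w * 1728 ^ 2) ^ 4) 56 (show 0 < log 2 / 3 by positivity),
    ev_poly (16 * 1728 ^ 2) 14 (show 0 < ε / 8 by positivity),
    ev_poly 16 1 (show 0 < ε / 8 by positivity), eventually_ge_atTop 6, H]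
    with q e1 e2 e3 e4 q6 e5
  obtain ⟨a, ha⟩ : ∃ a, a = (q + 2) / 3 := ⟨_, rfl⟩
  obtain ⟨p, hp⟩ : ∃ p, q = a + p := ⟨q - a, by omega⟩
  have q1 : (1 : ℝ) ≤ q := by exact_mod_cast (by omega)
  have aq : (a : ℝ) ≤ q := by exact_mod_cast (by omega)
  have pq : (p : ℝ) ≤ q := by exact_mod_cast (by omega)
  have E1 := est_time aq pq (by exact_mod_cast (by omega)) e1
  have E2 := est_board (a := a) pq (by exact_mod_cast (by omega)) e2
  have E3 := (est_grow hε q1 aq pq e3 e4).trans (exp_le_exp.2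
    (show ε / 4 * q ^ 2 ≤ ε * q ^ 2 by nlinarith [show 0 ≤ ε * q ^ 2 by positivity]))
  clear e1 e2 e3 e4
  have t1 : (1 : ℝ) ≤ tt a p w := by
    have a0 : 0 < a := by omega
    have p0 : 0 < p := by omega
    have w0 : 0 < w := by omega
    exact_mod_cast Nat.succ_le_of_lt (show 0 < tt a p w by unfold tt; positivity)
  have cr := Nat.le_ceil (c * q)
  have cr' := (Nat.ceil_lt_add_one (show 0 ≤ c * q by positivity)).le
  simp only [← Nat.ceil_le]
  obtain ⟨n₀, h⟩ := win_paramN (a := a) (p := p) (r := ⌈c * q⌉₊) (by omega) (by omega) (by omega)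
    E2 E3 fun n => e5 _ _ _ (by
      rw [exp_neg]
      exact inv_anti₀ (by positivity) E1) (inv_le_one_of_one_le₀ (by linarith))
      (by push_cast; exact E1) cr cr' (Fin n)
  refine ⟨14 * tt a p w, n₀, ?_, hp ▸ h⟩
  push_cast
  refine E1.trans ?_
  rw [rpow_def_of_pos two_pos]
  exact exp_le_exp.2 (by linarith [mul_le_mul_of_nonneg_right b3.le (Nat.cast_nonneg q)])

end Pool.Agent.Lib.MP_4a944d_co.Hc
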