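import Pool.Agent.Lib.MP_4a944d_co.NLev

/-! The count at one moment. -/

set_option autoImplicit false

noncomputable section

namespace Pool.Agent.Lib.MP_4a944d_co.Hc

open Finset
open scoped Classical

variable {V : Type*} [LinearOrder V] {θ : ℝ} {F S E E' : Finset (V × V)}

lemma mon_union_le (hθ : 1 ≤ θ) {n : ℕ} (hn : E'.card ≤ n) :
    mon θ F S (E ∪ E') ≤ mon θ F S E * θ ^ n := by
  rw [← union_sdiff_self_eq_union, mon_union disjoint_sdiff]
  exact mul_le_mul_of_nonneg_left (mon_le_pow hθ ((card_le_card sdiff_subset).trans hn))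
    (mon_nonneg hθ)

lemma mon_bip_le (hθ : 1 ≤ θ) {W T : Finset V} {a : V} {n : ℕ} (hn : T.card ≤ n) :
    mon θ F S (bip (W ∪ T) {a}) ≤ mon θ F S (bip W {a}) * θ ^ n := by
  rw [bip_union_left]
  exact mon_union_le hθ (card_bip.trans (by simpa using hn))

lemma Rn.edge {l k u : ℕ} {D X : Finset V} (hS : Up S) (hD : D.card < l)
    (h : Rn S l k (u + 2) D X) : ∃ e ∈ S, e.1 ∈ X ∧ e.2 ∈ X ∧
      Rn S l k u (insert e.2 (insert e.1 D)) ((X.erase e.1).erase e.2) := by
  obtain ⟨a, ha, b, hb, hab, H⟩ := h.two hS hD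
  unfold pr at hab
  split_ifs at hab
  · exact ⟨_, hab, ha, hb, H⟩
  · exact ⟨_, hab, hb, ha, by rwa [insert_comm, erase_right_comm]⟩

/-- the exponent -/
def gx (l u t : ℝ) : ℝ := u * (l / 2 + t) + (l / 2 - t) ^ 2 / 2

theorem run {δ C M ρ : ℝ} {Y : Finset V} {l k r h R : ℕ} (hθ : 1 ≤ θ) (hθ2 : θ ≤ 2) (hS : Up S)
    (hδ : 0 < δ) (hC : 0 < C) (hM : 1 ≤ M) (h4 : A4 θ δ R Y F S) (hR : 1 ≤ R)
    (hh : 256 * R ≤ δ * h) (hY : supp S ⊆ Y) (hr : k + l ≤ r)
    (h5 : ∀ B : Finset V, B.card ≤ r →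
      ∑ z ∈ Y.filter (fun z => z ∉ B ∧ dg S z B ≤ l), mon θ F S (bip B {z}) ≤ M)
    (hρ : 2 * ((l * (h + 2) + h + 2 * R : ℕ) : ℝ) ≤ ρ)
    (hρ2 : 2 * (C * (1 + δ) ^ l * θ) ≤ ρ ^ 2 * θ ^ l) :
    ∀ (u : ℕ) (W T H : Finset V) (f t : ℕ), W ⊆ H → (W ∪ T).card + u ≤ l → f + u ≤ l →
      H.card ≤ f * (h + 2) → Om θ F S W H ≤ C * (1 + δ) ^ f → T.card ≤ t →
      ∑ X ∈ Y.powerset.filter (Rn S l k u (W ∪ T)), rel θ F S (W ∪ T) X ≤
        ρ ^ u * θ ^ gx l u t * M ^ (k + 1) := by
  have ρ1 : 1 ≤ ρ := le_trans (by exact_mod_cast (by omega)) hρ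
  have θ0 : 0 < θ := by linarith
  have base : ∀ (u : ℕ) (D : Finset V) (t : ℕ), u ≤ 1 → D.card + u ≤ l →
      ∑ X ∈ Y.powerset.filter (Rn S l k u D), rel θ F S D X ≤
        ρ ^ u * θ ^ gx l u t * M ^ (k + 1) := fun u D t hu hD => by
    calc _ ≤ _ := sum_le_sum_of_subset_of_nonneg (fun X hX => mem_filter.2
          ⟨(mem_filter.1 hX).1, (mem_filter.1 hX).2.fin hD⟩) fun _ _ _ => rel_nonneg hθ
      _ ≤ M ^ (k + u) := sum_gd hθ (by linarith) h5 _ _ (by omega)
      _ ≤ 1 * 1 * M ^ (k + 1) := by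
        rw [one_mul, one_mul]
        exact pow_le_pow_right₀ hM (by omega)
      _ ≤ _ := by
        gcongr
        exacts [one_le_pow₀ ρ1, Real.one_le_rpow hθ (by unfold gx; positivity)]
  intro u
  induction u using Nat.twoStepInduction with
  | zero => exact fun W T H f t _ a _ _ _ _ => base 0 _ t (by omega) a
  | one => exact fun W T H f t _ a _ _ _ _ => base 1 _ t (by omega) a
  | more u ih0 ih1 =>
    intro W T H f t hW hD hf hH hO hT
    obtain ⟨H', Sp, a1, a2, a3, a4, a5⟩ := level hθ hθ2 hW (by positivity) hO h4 hR hh hY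
    have key := sum_mark (Y.powerset.filter (Rn S l k (u + 2) (W ∪ T)))
      (Sp.disjSum (S.filter fun e => e.1 ∉ Sp ∧ e.2 ∉ Sp))
      (Sum.elim (fun a => {a}) fun e => {e.1, e.2})
      (Sum.elim (fun a => Y.powerset.filter (Rn S l k (u + 1) (W ∪ insert a T)))
        fun e => Y.powerset.filter (Rn S l k u (W ∪ {e.1, e.2} ∪ T))) (rel θ F S (W ∪ T))
      (Sum.elim (fun a X => θ ^ (W ∪ T).card * rel θ F S (W ∪ insert a T) X)
        fun e X => mu θ F S W H e * θ ^ (2 * t + 1) * rel θ F S (W ∪ {e.1, e.2} ∪ T) X)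
      (by
        rintro (a | e) X
        · exact mul_nonneg (by positivity) (rel_nonneg hθ)
        · exact mul_nonneg (mul_nonneg (mu_nonneg hθ e) (by positivity)) (rel_nonneg hθ))
      (fun X hX => by
        obtain ⟨hX1, hX⟩ := mem_filter.1 hX
        have hX1 := mem_powerset.1 hX1
        obtain ⟨⟨a, b⟩, he, ha, hb, H2⟩ := hX.edge hS (by omega)
        have ab : a ≠ b := (hS _ he).ne
        have one : ∀ a b : V, a ≠ b → a ∈ X → b ∈ X → a ∈ Sp →
            Rn S l k u (insert b (insert a (W ∪ T))) ((X.erase a).erase b) →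
            Sum.inl a ∈ Sp.disjSum (S.filter fun e => e.1 ∉ Sp ∧ e.2 ∉ Sp) ∧ {a} ⊆ X ∧
              X \ {a} ∈ Y.powerset.filter (Rn S l k (u + 1) (W ∪ insert a T)) ∧
              rel θ F S (W ∪ T) X ≤
                θ ^ (W ∪ T).card * rel θ F S (W ∪ insert a T) (X \ {a}) :=
          fun a b ab ha hb hs H2 => by
            rw [sdiff_singleton_eq_erase, union_insert]
            refine ⟨inl_mem_disjSum.2 hs, singleton_subset_iff.2 ha, mem_filter.2
              ⟨mem_powerset.2 ((erase_subset _ _).trans hX1), H2.one ab hb hX.1 hX.2.2⟩, ?_⟩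
            rw [rel_step ha (disjoint_right.1 hX.1 ha)]
            exact mul_le_mul_of_nonneg_right (mon_le_pow hθ (card_bip.trans (by simp)))
              (rel_nonneg hθ)
        by_cases sa : a ∈ Sp
        · exact ⟨.inl a, one a b ab ha hb sa H2⟩
        by_cases sb : b ∈ Sp
        · exact ⟨.inl b, one b a ab.symm hb ha sb (by rwa [insert_comm, erase_right_comm])⟩
        have e1 : W ∪ {a, b} ∪ T = insert b (insert a (W ∪ T)) := by
          ext x
          simp only [mem_union, mem_insert, mem_singleton]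
          tauto
        have e2 : X \ {a, b} = (X.erase a).erase b := by
          rw [sdiff_insert, sdiff_singleton_eq_erase, erase_right_comm]
        have hb' : b ∈ X.erase a := mem_erase.2 ⟨ab.symm, hb⟩
        have dH : Disjoint {a, b} H := disjoint_insert_left.2 ⟨fun c => sa (a2 (a1 c)),
          disjoint_singleton_left.2 fun c => sb (a2 (a1 c))⟩
        refine ⟨.inr (a, b), inr_mem_disjSum.2 (mem_filter.2 ⟨he, sa, sb⟩),
          insert_subset ha (singleton_subset_iff.2 hb), ?_, ?_⟩ <;>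
          simp only [Sum.elim_inr, e1, e2]
        · exact mem_filter.2 ⟨mem_powerset.2
            (((erase_subset _ _).trans (erase_subset _ _)).trans hX1), H2⟩
        · rw [rel_step ha (disjoint_right.1 hX.1 ha), rel_step hb' (by
            simp only [mem_insert, not_or]
            exact ⟨ab.symm, disjoint_right.1 hX.1 hb⟩), ← mul_assoc]
          refine mul_le_mul_of_nonneg_right ?_ (rel_nonneg hθ)
          rw [mu, if_pos dH, mon_bip_prod (dH.mono_right hW).symm, prod_pair ab, ← union_insert]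
          calc _ ≤ mon θ F S (bip W {a}) * θ ^ t * (mon θ F S (bip W {b}) * θ ^ (t + 1)) :=
                mul_le_mul (mon_bip_le hθ hT) (mon_bip_le hθ
                  ((card_insert_le _ _).trans (by omega))) (mon_nonneg hθ)
                  (mul_nonneg (mon_nonneg hθ) (by positivity))
            _ = _ := by ring)
    rw [sum_disjSum] at key
    simp only [Sum.elim_inl, Sum.elim_inr, ← mul_sum] at key
    have M0 : 0 ≤ M ^ (k + 1) := by positivity
    have b1 : ∑ a ∈ Sp, ∑ X ∈ Y.powerset.filter (Rn S l k (u + 1) (W ∪ insert a T)),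
        rel θ F S (W ∪ insert a T) X ≤
        ρ / 2 * (ρ ^ (u + 1) * θ ^ gx l (u + 1 : ℕ) (t + 1 : ℕ) * M ^ (k + 1)) := by
      refine (sum_le_card_nsmul _ _ _ fun a _ => ih1 W (insert a T) H f (t + 1) hW ?_ (by omega) hH
        hO ((card_insert_le _ _).trans (by omega))).trans ?_
      · have := card_insert_le a (W ∪ T)
        rw [union_insert]
        omega
      · rw [nsmul_eq_mul]
        refine mul_le_mul_of_nonneg_right ?_ (by positivity)
        have : Sp.card ≤ l * (h + 2) + h + 2 * R := by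
          have := Nat.mul_le_mul_right (h + 2) (show f ≤ l by omega)
          omega
        have : (Sp.card : ℝ) ≤ (l * (h + 2) + h + 2 * R : ℕ) := by exact_mod_cast this
        linarith
    have b2 : ∑ e ∈ S.filter fun e => e.1 ∉ Sp ∧ e.2 ∉ Sp, mu θ F S W H e * θ ^ (2 * t + 1) *
        ∑ X ∈ Y.powerset.filter (Rn S l k u (W ∪ {e.1, e.2} ∪ T)),
          rel θ F S (W ∪ {e.1, e.2} ∪ T) X ≤
        C * (1 + δ) ^ l * (θ ^ (2 * t + 1) * (ρ ^ u * θ ^ gx l u t * M ^ (k + 1))) := by
      refine le_trans (sum_le_sum fun e he => ?_) ((sum_mul _ _ _).ge.trans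
        (mul_le_mul_of_nonneg_right ((sum_le_sum_of_subset_of_nonneg (filter_subset _ S)
          fun e _ _ => mu_nonneg hθ e).trans (hO.trans ?_)) (by positivity)))
      · obtain ⟨c1, c2, c3⟩ := mem_filter.1 he
        rw [← mul_assoc]
        refine mul_le_mul_of_nonneg_left (ih0 _ T (H' ∪ {e.1, e.2}) (f + 1) t
          (union_subset_union_left (hW.trans a1)) ?_ (by omega) ?_ ?_ hT)
          (mul_nonneg (mu_nonneg hθ e) (by positivity))
        · rw [union_right_comm]
          have := card_union_le (W ∪ T) {e.1, e.2}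
          have := card_le_two (a := e.1) (b := e.2)
          omega
        · have := card_union_le H' {e.1, e.2}
          have := card_le_two (a := e.1) (b := e.2)
          rw [add_mul]
          omega
        · refine (a5 _ (hY (mem_union_left _ (mem_image_of_mem Prod.fst c1))) _
            (hY (mem_union_right _ (mem_image_of_mem Prod.snd c1))) c2 c3).trans_eq ?_
          ring
      · gcongr
        exacts [by linarith, by omega]
    have b3 : θ ^ (W ∪ T).card * θ ^ gx l (u + 1 : ℕ) (t + 1 : ℕ) ≤ θ ^ gx l (u + 2 : ℕ) t := by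
      rw [← Real.rpow_natCast, ← Real.rpow_add θ0]
      refine Real.rpow_le_rpow_of_exponent_le hθ ?_
      have : ((W ∪ T).card : ℝ) + (u + 2) ≤ l := by exact_mod_cast hD
      unfold gx
      push_cast
      nlinarith
    have b4 : θ ^ gx l (u + 2 : ℕ) t = θ ^ l * θ ^ (2 * t) * θ ^ gx l u t := by
      rw [← Real.rpow_natCast, ← Real.rpow_natCast, ← Real.rpow_add θ0, ← Real.rpow_add θ0]
      congr 1
      unfold gx
      push_cast
      ring
    refine key.trans ((add_le_add (mul_le_mul_of_nonneg_left b1 (by positivity)) b2).trans ?_)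
    have b5 := mul_le_mul_of_nonneg_right b3 (show 0 ≤ ρ ^ (u + 2) / 2 * M ^ (k + 1) by positivity)
    have b6 := mul_le_mul_of_nonneg_right hρ2
      (show 0 ≤ θ ^ (2 * t) * (ρ ^ u * θ ^ gx l u t * M ^ (k + 1)) / 2 by positivity)
    rw [b4] at b5 ⊢
    calc _ = θ ^ (W ∪ T).card * θ ^ gx l (u + 1 : ℕ) (t + 1 : ℕ) *
          (ρ ^ (u + 2) / 2 * M ^ (k + 1)) + 2 * (C * (1 + δ) ^ l * θ) *
          (θ ^ (2 * t) * (ρ ^ u * θ ^ gx l u t * M ^ (k + 1)) / 2) := by ring
      _ ≤ _ := add_le_add b5 b6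
      _ = _ := by ring

end Pool.Agent.Lib.MP_4a944d_co.Hc
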