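import Pool.Agent.Lib.MP_4a944d_co.NMon

/-! Good sets and the exchange argument. -/

set_option autoImplicit false

noncomputable section

namespace Pool.Agent.Lib.MP_4a944d_co.Hc

open Finset
open scoped Classical

variable {V : Type*} [LinearOrder V]

/-- no edge of `S` inside `I` -/
def Ind (S : Finset (V × V)) (I : Finset V) : Prop := ∀ a ∈ I, ∀ b ∈ I, pr a b ∉ S

/-- the `m` vertices of `X` can be added to `B` one by one, each with at most `l` neighbours -/
def Gd (S : Finset (V × V)) (l : ℕ) : ℕ → Finset V → Finset V → Prop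
  | 0, _, X => X = ∅
  | m + 1, B, X => ∃ z ∈ X, z ∉ B ∧ dg S z B ≤ l ∧ Gd S l m (insert z B) (X.erase z)

variable {S : Finset (V × V)} {l : ℕ}

lemma dg_mono {z : V} {B B' : Finset V} (h : B ⊆ B') : dg S z B ≤ dg S z B' :=
  card_le_card (filter_subset_filter _ h)

lemma Gd.card : ∀ {m : ℕ} {B X : Finset V}, Gd S l m B X → X.card = m
  | 0, _, _, h => card_eq_zero.2 h
  | _ + 1, _, _, ⟨_, hz, _, _, h⟩ => by rw [← card_erase_add_one hz, h.card]

lemma Gd.disj : ∀ {m : ℕ} {B X : Finset V}, Gd S l m B X → Disjoint B X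
  | 0, _, _, h => by
    obtain rfl : _ = ∅ := h
    exact disjoint_empty_right _
  | _ + 1, _, _, ⟨_, hz, hB, _, h⟩ => by
    rw [← insert_erase hz]
    exact disjoint_insert_right.2 ⟨hB, h.disj.mono_left (subset_insert _ _)⟩

lemma Gd.prepend {m : ℕ} {R : Finset V} (P : Finset V) : ∀ {B : Finset V}, Disjoint B P →
    (∀ x ∈ P, dg S x (B ∪ P) ≤ l) → Gd S l m (B ∪ P) R → Gd S l (m + P.card) B (P ∪ R) := by
  induction P using Finset.induction_on with
  | empty => intro B _ _ h; simpa using h
  | insert x P hx ih =>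
    intro B hd h1 h2
    have e : insert x B ∪ P = B ∪ insert x P := by rw [insert_union, union_insert]
    have hxR : x ∉ R := disjoint_left.1 h2.disj (mem_union_right _ (mem_insert_self _ _))
    rw [card_insert_of_notMem hx]
    refine ⟨x, mem_union_left _ (mem_insert_self _ _), (disjoint_insert_right.1 hd).1,
      (dg_mono subset_union_left).trans (h1 x (mem_insert_self _ _)), ?_⟩
    rw [insert_union, erase_insert (by simp [hx, hxR])]
    exact ih (disjoint_insert_left.2 ⟨hx, (disjoint_insert_right.1 hd).2⟩)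
      (fun y hy => e ▸ h1 y (mem_insert_of_mem hy)) (e ▸ h2)

lemma Gd.pre {m : ℕ} : ∀ (s : ℕ) {B X : Finset V}, Gd S l (m + s) B X →
    ∃ P ⊆ X, P.card = s ∧ Gd S l m (B ∪ P) (X \ P)
  | 0, B, X, h => ⟨∅, empty_subset _, rfl, by simpa using h⟩
  | s + 1, B, X, ⟨z, hz, _, _, h⟩ => by
    obtain ⟨P, h1, h2, h3⟩ := Gd.pre s h
    refine ⟨insert z P, insert_subset hz (h1.trans (erase_subset _ _)),
      by rw [card_insert_of_notMem fun a => notMem_erase _ _ (h1 a), h2], ?_⟩
    rwa [union_insert, ← insert_union, sdiff_insert, ← erase_sdiff_comm]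

lemma Gd.exch (hS : Up S) {D : Finset V} (hD : D.card < l) : ∀ {m : ℕ} {P R : Finset V},
    Disjoint D P → Gd S l m (D ∪ P) R → Ind S P → ¬ Ind S (P ∪ R) →
    ∃ a ∈ P ∪ R, ∃ b ∈ P ∪ R, pr a b ∈ S ∧
      ∃ n, Gd S l n (insert b (insert a D)) (((P ∪ R).erase a).erase b) := by
  intro m
  induction m with
  | zero =>
    intro P R _ h h1 h2
    obtain rfl : R = ∅ := h
    exact absurd (by simpa using h1) h2
  | succ m ih =>
    rintro P R hd ⟨z, hz, hzB, -, h⟩ h1 h2
    have zD : z ∉ D := fun a => hzB (mem_union_left _ a)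
    have zP : z ∉ P := fun a => hzB (mem_union_right _ a)
    have e : insert z P ∪ R.erase z = P ∪ R := by rw [insert_union, ← union_insert, insert_erase hz]
    by_cases hI : Ind S (insert z P)
    · have := ih (P := insert z P) (R := R.erase z) (disjoint_insert_right.2 ⟨zD, hd⟩)
        (by rwa [union_insert]) hI (e ▸ h2)
      rwa [e] at this
    · obtain ⟨u, hu, huz⟩ : ∃ u ∈ P, pr u z ∈ S := by
        by_contra hn
        refine hI fun a ha b hb hab => ?_
        rcases mem_insert.1 ha with rfl | ha <;> rcases mem_insert.1 hb with hb | hb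
        · exact pr_ne hS hab hb.symm
        · exact hn ⟨b, hb, by rwa [pr_comm]⟩
        · exact hn ⟨a, ha, hb ▸ hab⟩
        · exact h1 a ha b hb hab
      have e1 : insert z (insert u D) ∪ P.erase u = insert z (D ∪ P) := by
        rw [insert_union, insert_union, ← union_insert, insert_erase hu]
      have uR : u ∉ R.erase z :=
        disjoint_left.1 h.disj (mem_insert_of_mem (mem_union_right _ hu))
      have e2 : ((P ∪ R).erase u).erase z = P.erase u ∪ R.erase z := by
        rw [erase_right_comm, erase_union_distrib, erase_eq_of_notMem zP, erase_union_distrib,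
          erase_eq_of_notMem uR]
      refine ⟨u, mem_union_left _ hu, z, mem_union_right _ hz, huz, _, e2 ▸
        Gd.prepend (m := m) (P.erase u) ?_ (fun x hx => ?_) (e1 ▸ h)⟩
      · exact disjoint_insert_left.2 ⟨fun a => zP (mem_of_mem_erase a), disjoint_insert_left.2
          ⟨notMem_erase _ _, hd.mono_right (erase_subset _ _)⟩⟩
      · rw [e1]
        refine (card_le_card (t := insert z D) fun a ha => ?_).trans
          ((card_insert_le _ _).trans hD)
        obtain ⟨h3, h4⟩ := mem_filter.1 ha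
        rcases mem_insert.1 h3 with rfl | h3
        · exact mem_insert_self _ _
        · exact mem_insert_of_mem ((mem_union.1 h3).resolve_right fun c =>
            h1 a c x (mem_of_mem_erase hx) h4)

/-- the invariant of the run -/
def Rn (S : Finset (V × V)) (l k u : ℕ) (D X : Finset V) : Prop :=
  Disjoint D X ∧ (∃ P ⊆ X, P.card = u ∧ Gd S l k (D ∪ P) (X \ P)) ∧
    ∀ I ⊆ X, Ind S I → I.card ≤ k

variable {k u : ℕ} {D X : Finset V}

lemma Rn.card (h : Rn S l k u D X) : X.card = k + u := by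
  obtain ⟨-, ⟨P, h1, h2, h3⟩, -⟩ := h
  rw [← card_sdiff_add_card_eq_card h1, h3.card, h2]

lemma Rn.two (hS : Up S) (hD : D.card < l) (h : Rn S l k (u + 2) D X) :
    ∃ a ∈ X, ∃ b ∈ X, pr a b ∈ S ∧
      Rn S l k u (insert b (insert a D)) ((X.erase a).erase b) := by
  have hc := h.card
  obtain ⟨hd, ⟨P, h1, h2, h3⟩, h4⟩ := h
  suffices H : ∃ a ∈ X, ∃ b ∈ X, pr a b ∈ S ∧ ∃ P' ⊆ (X.erase a).erase b, P'.card = u ∧
      Gd S l k (insert b (insert a D) ∪ P') ((X.erase a).erase b \ P') by
    obtain ⟨a, ha, b, hb, hab, H⟩ := H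
    refine ⟨a, ha, b, hb, hab, ?_, H, fun I hI =>
      h4 I (hI.trans ((erase_subset _ _).trans (erase_subset _ _)))⟩
    exact disjoint_insert_left.2 ⟨notMem_erase _ _, disjoint_insert_left.2
      ⟨fun c => notMem_erase _ _ (mem_of_mem_erase c),
        hd.mono_right ((erase_subset _ _).trans (erase_subset _ _))⟩⟩
  by_cases hI : Ind S P
  · have e : P ∪ X \ P = X := union_sdiff_of_subset h1
    obtain ⟨a, ha, b, hb, hab, n, H⟩ := Gd.exch hS hD (hd.mono_right h1) h3 hI fun c => by
      have := h4 X (Subset.refl _) (e ▸ c)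
      omega
    rw [e] at ha hb H
    have hn := H.card
    rw [card_erase_of_mem (mem_erase.2 ⟨(pr_ne hS hab).symm, hb⟩), card_erase_of_mem ha] at hn
    obtain rfl : n = k + u := by omega
    exact ⟨a, ha, b, hb, hab, Gd.pre u H⟩
  · simp only [Ind, not_forall, not_not] at hI
    obtain ⟨a, ha, b, hb, hab⟩ := hI
    have hb' : b ∈ P.erase a := mem_erase.2 ⟨(pr_ne hS hab).symm, hb⟩
    refine ⟨a, h1 ha, b, h1 hb, hab, (P.erase a).erase b,
      erase_subset_erase _ (erase_subset_erase _ h1), ?_, ?_⟩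
    · rw [card_erase_of_mem hb', card_erase_of_mem ha]
      omega
    · convert h3 using 1
      · rw [insert_union, ← union_insert, insert_erase hb', insert_union, ← union_insert,
          insert_erase ha]
      · ext x
        simp only [mem_sdiff, mem_erase]
        constructor
        · tauto
        · rintro ⟨c, d⟩
          exact ⟨⟨fun e => d (e ▸ hb), fun e => d (e ▸ ha), c⟩, fun e => d e.2.2⟩

lemma Rn.one {a b : V} (hab : a ≠ b) (hb : b ∈ X) (hd : Disjoint D X)
    (h4 : ∀ I ⊆ X, Ind S I → I.card ≤ k)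
    (h : Rn S l k u (insert b (insert a D)) ((X.erase a).erase b)) :
    Rn S l k (u + 1) (insert a D) (X.erase a) := by
  obtain ⟨-, ⟨P, h1, h2, h3⟩, -⟩ := h
  have hb' : b ∈ X.erase a := mem_erase.2 ⟨hab.symm, hb⟩
  refine ⟨disjoint_insert_left.2 ⟨notMem_erase _ _, hd.mono_right (erase_subset _ _)⟩,
    ⟨insert b P, insert_subset hb' (h1.trans (erase_subset _ _)),
      by rw [card_insert_of_notMem fun c => notMem_erase _ _ (h1 c), h2], ?_⟩,
    fun I hI => h4 I (hI.trans (erase_subset _ _))⟩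
  rwa [union_insert, ← insert_union, sdiff_insert, ← erase_sdiff_comm]

lemma Rn.fin (hD : D.card + u ≤ l) (h : Rn S l k u D X) :
    Gd S l (k + u) D X := by
  obtain ⟨hd, ⟨P, h1, h2, h3⟩, -⟩ := h
  have := Gd.prepend P (hd.mono_right h1) (fun x _ => ?_) h3
  · rwa [h2, union_sdiff_of_subset h1] at this
  · exact (card_filter_le _ _).trans ((card_union_le _ _).trans (by omega))

lemma Rn.start {U I : Finset V} (hI : I ⊆ U) (h1 : Ind S I) (h2 : I.card + l = U.card)
    (h3 : ∀ J ⊆ U, Ind S J → J.card + l ≤ U.card) : Rn S l I.card l ∅ U := by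
  have c := card_sdiff_add_card_eq_card hI
  refine ⟨disjoint_empty_left _, ⟨U \ I, sdiff_subset, by omega, ?_⟩, fun J a b => by
    have := h3 J a b
    omega⟩
  have := Gd.prepend (S := S) (l := l) (m := 0) (R := ∅) I (B := U \ I) sdiff_disjoint
    (fun x hx => ?_) rfl
  · rw [zero_add, union_empty] at this
    rwa [empty_union, Finset.sdiff_sdiff_eq_self hI]
  · refine (card_le_card (t := U \ I) fun a ha => ?_).trans (by omega)
    obtain ⟨c1, c2⟩ := mem_filter.1 ha
    exact (mem_union.1 c1).resolve_right fun c => h1 a c x hx c2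

/-- the sum over good sets -/
lemma sum_gd {θ M : ℝ} {F : Finset (V × V)} {Y : Finset V} {r : ℕ} (hθ : 1 ≤ θ) (hM : 0 ≤ M)
    (h5 : ∀ B : Finset V, B.card ≤ r →
      ∑ z ∈ Y.filter (fun z => z ∉ B ∧ dg S z B ≤ l), mon θ F S (bip B {z}) ≤ M) :
    ∀ (m : ℕ) (B : Finset V), B.card + m ≤ r →
      ∑ X ∈ Y.powerset.filter (Gd S l m B), rel θ F S B X ≤ M ^ m := by
  intro m
  induction m with
  | zero =>
    intro B _
    refine (sum_le_sum_of_subset_of_nonneg (t := {∅}) (fun X hX => ?_)
      fun _ _ _ => rel_nonneg hθ).trans ?_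
    · rw [mem_filter] at hX
      exact mem_singleton.2 hX.2
    simp [rel, mon_empty]
  | succ m ih =>
    intro B hB
    refine (sum_mark _ (Y.filter fun z => z ∉ B ∧ dg S z B ≤ l) (fun z => {z})
      (fun z => Y.powerset.filter (Gd S l m (insert z B))) _
      (fun z X => mon θ F S (bip B {z}) * rel θ F S (insert z B) X)
      (fun _ _ => mul_nonneg (mon_nonneg hθ) (rel_nonneg hθ)) fun X hX => ?_).trans ?_
    · obtain ⟨h1, z, hz, h2, h3, h4⟩ := mem_filter.1 hX
      have h1 := mem_powerset.1 h1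
      refine ⟨z, mem_filter.2 ⟨h1 hz, h2, h3⟩, singleton_subset_iff.2 hz, ?_, ?_⟩ <;>
        rw [sdiff_singleton_eq_erase]
      exacts [mem_filter.2 ⟨mem_powerset.2 ((erase_subset _ _).trans h1), h4⟩, (rel_step hz h2).le]
    · rw [pow_succ']
      refine le_trans (sum_le_sum fun z _ => ?_) ((sum_mul _ _ _).ge.trans
        (mul_le_mul_of_nonneg_right (h5 B (by omega)) (by positivity)))
      rw [← mul_sum]
      exact mul_le_mul_of_nonneg_left (ih _ (by have := card_insert_le z B; omega)) (mon_nonneg hθ)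

end Pool.Agent.Lib.MP_4a944d_co.Hc
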