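import Pool.Agent.Lib.MP_4a944d_co.NCnt

/-! The grid potentials. -/

set_option autoImplicit false

noncomputable section

namespace Pool.Agent.Lib.MP_4a944d_co.Hc

open Finset Real
open Fintype (piFinset mem_piFinset piFinset_subset piFinset_singleton)
open scoped Classical

variable {V : Type*} [LinearOrder V] {θ τ η : ℝ} {F S : Finset (V × V)} {Y : Finset V} {R : ℕ}

lemma sum_slots {ι : Type*} [Fintype ι] [DecidableEq ι] (h0 : 0 ≤ τ) {v : V} (f : (ι → Finset V) → ℝ)
    (f0 : ∀ φ, 0 ≤ f φ) (hf : ∀ φ, f φ ≤ f fun i => (φ i).erase v) :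
    ∑ φ ∈ piFinset fun _ : ι => (insert v Y).powerset, τ ^ (∑ i, (φ i).card) * f φ ≤
      (1 + τ) ^ Fintype.card ι *
        ∑ φ ∈ piFinset fun _ : ι => Y.powerset, τ ^ (∑ i, (φ i).card) * f φ := by
  rw [add_comm, ← card_univ, ← sum_pow_mul_eq_add_pow, sum_mul_sum, ← sum_product']
  let g : (ι → Finset V) → Finset ι × (ι → Finset V) :=
    fun φ => (univ.filter fun i => v ∈ φ i, fun i => (φ i).erase v)
  refine le_trans ?_ (sum_le_sum_of_subset_of_nonneg
    (s := (piFinset fun _ : ι => (insert v Y).powerset).image g) (image_subset_iff.2 fun φ hφ =>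
      mem_product.2 ⟨mem_powerset.2 (subset_univ _), mem_piFinset.2 fun i => mem_powerset.2
        (subset_insert_iff.1 (mem_powerset.1 (mem_piFinset.1 hφ i)))⟩)
    fun _ _ _ => mul_nonneg (by positivity) (mul_nonneg (by positivity) (f0 _)))
  rw [sum_image fun φ _ φ' _ e => ?_]
  · refine sum_le_sum fun φ _ => ?_
    rw [one_pow, mul_one, ← mul_assoc, ← pow_add]
    refine mul_le_mul (le_of_eq (congrArg _ ?_)) (hf φ) (f0 φ) (by positivity)
    simp only [g, card_filter, ← sum_add_distrib]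
    refine sum_congr rfl fun i _ => ?_
    split_ifs with h
    · rw [add_comm, card_erase_add_one h]
    · rw [erase_eq_of_notMem h, zero_add]
  · obtain ⟨e1, e2⟩ := Prod.mk.inj e
    funext i
    have e3 := congrFun e2 i
    have e4 : v ∈ φ i ↔ v ∈ φ' i := by simpa using Finset.ext_iff.1 e1 i
    by_cases h : v ∈ φ i
    · rw [← insert_erase h, ← insert_erase (e4.1 h)]
      exact congrArg _ e3
    · rwa [erase_eq_of_notMem h, erase_eq_of_notMem fun c => h (e4.2 c)] at e3

/-- objects of the grid potential -/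
abbrev Ob (V : Type*) (R : ℕ) := (Fin R ⊕ Fin R → Finset V) × Finset (Fin R × Fin R)

def gS (R : ℕ) (Y : Finset V) : Finset (Ob V R) :=
  (piFinset fun _ => Y.powerset) ×ˢ univ.powerset

def gC (τ η : ℝ) (o : Ob V R) : ℝ :=
  τ ^ (∑ i, (o.1 i).card) * (η ^ o.2.card * (1 - η) ^ (R * R - o.2.card))

def gE (o : Ob V R) : Finset (V × V) := o.2.biUnion fun p => bip (o.1 (.inl p.1)) (o.1 (.inr p.2))

/-- the inner sum -/
def gI (θ η : ℝ) (F S : Finset (V × V)) (φ : Fin R ⊕ Fin R → Finset V) : ℝ :=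
  ∑ J ∈ univ.powerset, η ^ J.card * (1 - η) ^ (R * R - J.card) * mon θ F S (gE (φ, J))

lemma grid_eq : fm θ (gS R Y) (gC τ η) gE F S =
    ∑ φ ∈ piFinset fun _ => Y.powerset, τ ^ (∑ i, (φ i).card) * gI (R := R) θ η F S φ := by
  simp only [fm, gS, sum_product, gC, gI, mul_sum, mul_assoc]

lemma gS_mono {Y' : Finset V} (h : Y ⊆ Y') : gS R Y ⊆ gS R Y' :=
  product_subset_product_left (piFinset_subset _ _ fun _ => powerset_mono.2 h)

lemma gI_eq {φ : Fin R ⊕ Fin R → Finset V}
    (h : ∀ p p' : Fin R × Fin R, p ≠ p' → Disjoint (bip (φ (.inl p.1)) (φ (.inr p.2)))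
      (bip (φ (.inl p'.1)) (φ (.inr p'.2)))) :
    gI θ η F S φ = ∏ p : Fin R × Fin R,
      (η * mon θ F S (bip (φ (.inl p.1)) (φ (.inr p.2))) + (1 - η)) := by
  rw [prod_add]
  refine sum_congr rfl fun J hJ => ?_
  rw [gE, mon_biUnion _ _ fun i _ j _ => h i j, prod_mul_distrib, prod_const, prod_const,
    card_sdiff_of_subset (subset_univ _)]
  simp only [card_univ, Fintype.card_prod, Fintype.card_fin]
  ring

lemma gI_empty : gI (R := R) θ η F S (fun _ => (∅ : Finset V)) = 1 := by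
  rw [gI_eq (by simp [bip])]
  simp [bip, mon_empty]

lemma grid_empty : fm θ (gS R (∅ : Finset V)) (gC τ η) gE F S = 1 := by
  rw [grid_eq, powerset_empty, piFinset_singleton, sum_singleton, gI_empty]
  simp

variable (hθ : 1 ≤ θ) (h0 : 0 ≤ τ) (e0 : 0 ≤ η) (e1 : η ≤ 1)

include h0 e0 e1 in
lemma gC_nonneg (o : Ob V R) : 0 ≤ gC τ η o :=
  mul_nonneg (by positivity) (mul_nonneg (by positivity) (pow_nonneg (sub_nonneg.2 e1) _))

include hθ e0 e1

lemma gI_nonneg (φ : Fin R ⊕ Fin R → Finset V) : 0 ≤ gI θ η F S φ :=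
  sum_nonneg fun _ _ => mul_nonneg (mul_nonneg (by positivity) (pow_nonneg (sub_nonneg.2 e1) _))
    (mon_nonneg hθ)

include h0

lemma grid_grow {v : V} (hv : v ∉ supp S) :
    fm θ (gS R (insert v Y)) (gC τ η) gE F S ≤ (1 + τ) ^ (R + R) * fm θ (gS R Y) (gC τ η) gE F S := by
  rw [grid_eq, grid_eq]
  refine (sum_slots h0 (gI θ η F S) (gI_nonneg hθ e0 e1) fun φ => ?_).trans_eq
    (by rw [Fintype.card_sum, Fintype.card_fin])
  refine sum_le_sum fun J _ => mul_le_mul_of_nonneg_left (mon_le hθ ?_ fun e he hS => ?_)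
      (mul_nonneg (by positivity) (pow_nonneg (sub_nonneg.2 e1) _))
  · exact biUnion_mono fun p _ => bip_mono (erase_subset _ _) (erase_subset _ _)
  · obtain ⟨p, hp, he⟩ := mem_biUnion.1 he
    exact mem_biUnion.2 ⟨p, hp, bip_iso hv he hS⟩

omit e0 e1 in
lemma grid5 {G : ℝ} {l r : ℕ} (h0' : 0 < τ) (h1 : τ ≤ 1) (hY : supp S ⊆ Y)
    (hG : fm θ (gS 1 Y) (gC τ 1) gE F S ≤ G) (B : Finset V) (hB : B.card ≤ r) :
    ∑ z ∈ Y.filter (fun z => z ∉ B ∧ dg S z B ≤ l), mon θ F S (bip B {z}) ≤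
      (τ⁻¹ + θ ^ l) * log (G * τ⁻¹ ^ r) := by
  set A := Y.filter (fun z => z ∉ B ∧ dg S z B ≤ l)
  have n : ∀ z, 0 ≤ τ * mon θ F S (bip B {z}) := fun z => mul_nonneg h0 (mon_nonneg hθ)
  have a1 : ∏ z ∈ A, (τ * mon θ F S (bip B {z}) + 1) ≤ G * τ⁻¹ ^ r := by
    rw [prod_add_one, inv_pow, ← div_eq_mul_inv, le_div_iff₀ (by positivity), sum_mul]
    refine le_trans ?_ (grid_eq.ge.trans hG)
    let g : Finset V → Fin 1 ⊕ Fin 1 → Finset V := fun Z => Sum.elim (fun _ => B ∩ Y) fun _ => Z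
    refine le_trans ?_ (sum_le_sum_of_subset_of_nonneg (s := A.powerset.image g)
      (image_subset_iff.2 fun Z hZ => mem_piFinset.2 ?_)
      fun _ _ _ => mul_nonneg (by positivity) (gI_nonneg hθ zero_le_one le_rfl _))
    · rw [sum_image fun Z _ Z' _ e => congrFun e (.inr 0)]
      refine sum_le_sum fun Z hZ => ?_
      rw [gI_eq fun p p' c => absurd (Subsingleton.elim _ _) c, prod_mul_distrib, prod_const,
        ← mon_bip_prod (disjoint_right.2 fun z hz => (mem_filter.1 (mem_powerset.1 hZ hz)).2.1),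
        Fintype.prod_subsingleton _ (0, 0)]
      simp only [g, Fintype.sum_sum_type, univ_unique, sum_singleton, Sum.elim_inl,
        Sum.elim_inr, one_mul, sub_self, add_zero, pow_add]
      rw [mul_comm, ← mul_assoc]
      refine mul_le_mul (mul_le_mul_of_nonneg_right (pow_le_pow_of_le_one h0 h1
        ((card_le_card inter_subset_left).trans hB)) (by positivity)) (mon_le hθ
          (bip_mono inter_subset_left (Subset.refl _)) fun e he hS => ?_) (mon_nonneg hθ)
        (by positivity)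
      obtain ⟨a, ha, z, hz, rfl⟩ := mem_bip.1 he
      exact mem_bip.2 ⟨a, mem_inter.2 ⟨ha, hY (pr_supp hS).1⟩, z, hz, rfl⟩
    · rintro (i | i)
      exacts [mem_powerset.2 inter_subset_right,
        mem_powerset.2 ((mem_powerset.1 hZ).trans (filter_subset _ _))]
  refine le_trans ?_ (mul_le_mul_of_nonneg_left (log_le_log (prod_pos fun z _ => by
    linarith [n z]) a1) (by positivity))
  rw [log_prod fun z _ => by linarith [n z], mul_sum]
  refine sum_le_sum fun z hz => ?_
  have a2 : mon θ F S (bip B {z}) ≤ θ ^ l := by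
    unfold mon
    split_ifs
    · exact pow_le_pow_right₀ hθ (card_bip_inter.trans_le (mem_filter.1 hz).2.2)
    · positivity
  have a3 := one_sub_inv_le_log_of_pos (show 0 < τ * mon θ F S (bip B {z}) + 1 by linarith [n z])
  have a4 := mon_nonneg (F := F) (S := S) (E := bip B {z}) hθ
  generalize mon θ F S (bip B {z}) = w at *
  calc w = (τ⁻¹ + w) * (1 - (τ * w + 1)⁻¹) := by field_simp; ring
    _ ≤ _ := mul_le_mul (by linarith) a3 (by
        rw [sub_nonneg]
        exact inv_le_one_of_one_le₀ (by nlinarith)) (by positivity)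

omit e0 e1 in
lemma grid4 {G δ : ℝ} (hθ2 : θ ≤ 2) (h1 : τ ≤ 1) (d0 : 0 < δ) (d1 : δ ≤ 1)
    (hG : fm θ (gS R Y) (gC τ (δ / 1800)) gE F S ≤ G)
    (h : G < τ ^ (4 * R) * exp (R ^ 2 * δ ^ 2 / 7200)) : A4 θ δ R Y F S := by
  intro a b x y c1 c2 c3 c4 c5
  by_contra hn
  rw [not_lt, sum_range, sum_congr rfl fun _ _ => sum_range _, ← sum_product'] at hn
  let φ : Fin R ⊕ Fin R → Finset V := Sum.elim (fun i => {a i, b i}) fun i => {x i, y i}
  have e0 : 0 ≤ δ / 1800 := by positivity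
  have e1 : δ / 1800 ≤ 1 := by linarith
  have a1 : τ ^ (∑ i, (φ i).card) * gI θ (δ / 1800) F S φ ≤ G :=
    (single_le_sum (f := fun φ => τ ^ (∑ i, (φ i).card) * gI θ (δ / 1800) F S φ)
      (fun _ _ => mul_nonneg (by positivity) (gI_nonneg hθ e0 e1 _)) (mem_piFinset.2 (by
        rintro (i | i)
        exacts [mem_powerset.2 (c1 i i.2), mem_powerset.2 (c2 i i.2)]))).trans (grid_eq.ge.trans hG)
  refine h.not_ge (le_trans (mul_le_mul (pow_le_pow_of_le_one h0 h1 ?_) ?_ (exp_pos _).le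
    (by positivity)) a1)
  · refine (sum_le_card_nsmul _ _ 2 ?_).trans_eq (by simp; ring)
    rintro (i | i) -
    exacts [card_le_two, card_le_two]
  · rw [gI_eq fun p p' c => bip_disj (c5 _ p.1.2 _ p'.2.2) ?_]
    · refine le_trans (exp_le_exp.2 ?_) ((exp_sum _ fun p : Fin R × Fin R =>
        δ / 1800 * mon θ F S (bip {a p.1, b p.1} {x p.2, y p.2}) - δ / 1800 - δ ^ 2 / 7200).le.trans
        (prod_le_prod (fun _ _ => (exp_pos _).le) fun p _ => ?_))
      · simp only [sum_sub_distrib, ← mul_sum, sum_const, card_univ, Fintype.card_prod,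
          Fintype.card_fin, nsmul_eq_mul, Nat.cast_mul]
        rw [univ_product_univ] at hn
        nlinarith [mul_le_mul_of_nonneg_left hn e0]
      · have a2 : mon θ F S (bip {a p.1, b p.1} {x p.2, y p.2}) ≤ 16 :=
          (mon_le_pow hθ (card_bip.trans (Nat.mul_le_mul card_le_two card_le_two))).trans
            ((pow_le_pow_left₀ (by linarith) hθ2 _).trans (by norm_num))
        have a4 := mon_nonneg (F := F) (S := S) (E := bip {a p.1, b p.1} {x p.2, y p.2}) hθ
        simp only [φ, Sum.elim_inl, Sum.elim_inr]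
        generalize mon θ F S (bip {a p.1, b p.1} {x p.2, y p.2}) = w at *
        have a5 : 1 / 2 ≤ δ / 1800 * w + (1 - δ / 1800) := by nlinarith
        rw [← le_log_iff_exp_le (by linarith)]
        refine le_trans ?_ (one_sub_inv_le_log_of_pos (by linarith))
        have a6 : (δ / 1800 * (w - 1)) ^ 2 ≤ δ ^ 2 / 14400 := by
          have : (w - 1) ^ 2 ≤ 225 := by nlinarith
          nlinarith [sq_nonneg δ]
        rw [le_sub_comm, inv_le_iff_one_le_mul₀ (by linarith)]
        nlinarith [mul_le_mul_of_nonneg_left a5 (sq_nonneg δ)]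
    · by_cases e : p.1 = p'.1
      · exact .inr (c4 _ p.2.2 _ p'.2.2 fun k => c (Prod.ext e (Fin.ext k)))
      · exact .inl (c3 _ p.1.2 _ p'.1.2 fun k => e (Fin.ext k))

end Pool.Agent.Lib.MP_4a944d_co.Hc
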