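import Pool.Agent.Lib.MP_4a944d_co.NGood

/-! Heavy vertices and special pairs. -/

set_option autoImplicit false

noncomputable section

namespace Pool.Agent.Lib.MP_4a944d_co.Hc

open Finset
open scoped Classical

variable {V : Type*} [LinearOrder V]

lemma greedy (Pp : V → V → Prop) (B₀ : Finset V) : ∀ R : ℕ,
    (∀ B, B₀ ⊆ B → B.card ≤ B₀.card + 2 * R → ∃ a b, a ∉ B ∧ b ∉ B ∧ Pp a b) →
    ∃ a b : ℕ → V, (∀ i < R, Pp (a i) (b i) ∧ Disjoint {a i, b i} B₀) ∧
      ∀ i < R, ∀ j < R, i ≠ j → Disjoint ({a i, b i} : Finset V) {a j, b j} := by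
  intro R
  induction R with
  | zero =>
    intro h
    obtain ⟨a, -⟩ := h B₀ (Subset.refl _) (by omega)
    exact ⟨fun _ => a, fun _ => a, fun _ h => absurd h (by omega), fun _ h => absurd h (by omega)⟩
  | succ R ih =>
    intro h
    obtain ⟨a, b, h1, h2⟩ := ih fun B c d => h B c (by omega)
    obtain ⟨x, y, hx, hy, hP⟩ := h (B₀ ∪ (range R).biUnion fun i => {a i, b i}) subset_union_left
      ((card_union_le _ _).trans (by
        have := card_biUnion_le_card_mul (range R) (fun i => ({a i, b i} : Finset V)) 2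
          fun _ _ => card_le_two
        rw [card_range] at this
        omega))
    have hd : Disjoint {x, y} (B₀ ∪ (range R).biUnion fun i => {a i, b i}) :=
      disjoint_insert_left.2 ⟨hx, disjoint_singleton_left.2 hy⟩
    have hd' : ∀ j < R, Disjoint ({x, y} : Finset V) {a j, b j} := fun j hj =>
      hd.mono_right ((subset_biUnion_of_mem (fun i => ({a i, b i} : Finset V))
        (mem_range.2 hj)).trans subset_union_right)
    refine ⟨fun i => if i = R then x else a i, fun i => if i = R then y else b i, fun i hi => ?_,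
      fun i hi j hj ij => ?_⟩
    · by_cases e : i = R
      · simp only [if_pos e]
        exact ⟨hP, hd.mono_right subset_union_left⟩
      · simp only [if_neg e]
        exact h1 i (by omega)
    · by_cases e : i = R <;> by_cases e' : j = R
      · omega
      · simp only [if_pos e, if_neg e']
        exact hd' j (by omega)
      · simp only [if_neg e, if_pos e']
        exact (hd' i (by omega)).symm
      · simp only [if_neg e, if_neg e']
        exact h2 i (by omega) j (by omega) ij

/-- no large grid of pairs against pairs has excess weight -/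
def A4 (θ δ : ℝ) (R : ℕ) (Y : Finset V) (F S : Finset (V × V)) : Prop :=
  ∀ a b x y : ℕ → V, (∀ i < R, {a i, b i} ⊆ Y) → (∀ i < R, {x i, y i} ⊆ Y) →
    (∀ i < R, ∀ j < R, i ≠ j → Disjoint ({a i, b i} : Finset V) {a j, b j}) →
    (∀ i < R, ∀ j < R, i ≠ j → Disjoint ({x i, y i} : Finset V) {x j, y j}) →
    (∀ i < R, ∀ j < R, Disjoint ({a i, b i} : Finset V) {x j, y j}) →
    ∑ i ∈ range R, ∑ m ∈ range R, mon θ F S (bip {a i, b i} {x m, y m}) < (1 + δ / 2) * R ^ 2

/-- the weight of an edge of `S` over the list `W` -/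
def mu (θ : ℝ) (F S : Finset (V × V)) (W H : Finset V) (e : V × V) : ℝ :=
  if Disjoint {e.1, e.2} H then mon θ F S (bip W {e.1, e.2}) else 0

def Om (θ : ℝ) (F S : Finset (V × V)) (W H : Finset V) : ℝ := ∑ e ∈ S, mu θ F S W H e

variable {θ δ C : ℝ} {F S : Finset (V × V)} {W H H' Y : Finset V} {R h : ℕ}

lemma mu_nonneg (hθ : 1 ≤ θ) (e : V × V) : 0 ≤ mu θ F S W H e := by
  unfold mu
  split_ifs
  exacts [mon_nonneg hθ, le_rfl]

lemma mu_mono (hθ : 1 ≤ θ) (hH : H ⊆ H') (e : V × V) : mu θ F S W H' e ≤ mu θ F S W H e := by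
  by_cases a : Disjoint {e.1, e.2} H'
  · unfold mu
    rw [if_pos a, if_pos (a.mono_right hH)]
  · rw [mu, if_neg a]
    exact mu_nonneg hθ e

lemma mu_add (hθ : 1 ≤ θ) (hW : W ⊆ H) {A : Finset V} (hA : Disjoint A H) (e : V × V) :
    mu θ F S (W ∪ A) (H ∪ A) e ≤ mu θ F S W H e * mon θ F S (bip A {e.1, e.2}) := by
  by_cases a : Disjoint {e.1, e.2} (H ∪ A)
  · have b := a.mono_right (subset_union_left (s₂ := A))
    unfold mu
    rw [if_pos a, if_pos b, mon_bip_left (b.mono_right hW).symm (hA.mono_right hW).symm]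
  · rw [mu, if_neg a]
    exact mul_nonneg (mu_nonneg hθ e) (mon_nonneg hθ)

lemma heavy (hθ : 1 ≤ θ) (hC : 0 < C) (hO : Om θ F S W H ≤ C) (h : ℕ) :
    ∃ H', H ⊆ H' ∧ H'.card ≤ H.card + h ∧ ∀ B : Finset V,
      h * ∑ e ∈ S.filter (fun e => ¬ Disjoint {e.1, e.2} B), mu θ F S W H' e ≤
        B.card * (2 * C) := by
  let d : Finset V → V → ℝ := fun H x => ∑ e ∈ S, if x ∈ ({e.1, e.2} : Finset V) then
    mu θ F S W H e else 0
  have d0 : ∀ H x e, 0 ≤ if x ∈ ({e.1, e.2} : Finset V) then mu θ F S W H e else 0 :=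
    fun H x e => by
      split_ifs
      exacts [mu_nonneg hθ e, le_rfl]
  refine ⟨H ∪ (supp S).filter fun x => 2 * C < h * d H x, subset_union_left,
    (card_union_le _ _).trans (Nat.add_le_add_left ?_ _), fun B => ?_⟩
  · have a1 := card_nsmul_le_sum ((supp S).filter fun x => 2 * C < h * d H x) (fun x => h * d H x)
      (2 * C) fun x hx => (mem_filter.1 hx).2.le
    have a2 : ∑ x ∈ (supp S).filter fun x => 2 * C < h * d H x, d H x ≤ 2 * C := by
      simp only [d]
      rw [sum_comm]
      refine le_trans (sum_le_sum fun e _ => ?_) ((mul_sum _ _ _).ge.trans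
        (mul_le_mul_of_nonneg_left hO zero_le_two))
      rw [← sum_filter, sum_const, nsmul_eq_mul]
      refine mul_le_mul_of_nonneg_right ?_ (mu_nonneg hθ e)
      exact_mod_cast (card_le_card fun x hx => (mem_filter.1 hx).2).trans card_le_two
    rw [← mul_sum, nsmul_eq_mul] at a1
    have a3 := a1.trans (mul_le_mul_of_nonneg_left a2 (Nat.cast_nonneg h))
    exact_mod_cast le_of_mul_le_mul_right a3 (by positivity)
  · set H' := H ∪ (supp S).filter fun x => 2 * C < h * d H x with hH'
    have b1 : ∀ x, h * d H' x ≤ 2 * C := fun x => by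
      by_cases hx : x ∈ H' ∨ x ∉ supp S
      · have : d H' x = 0 := sum_eq_zero fun e he => by
          split_ifs with c
          · refine if_neg fun k => hx.elim (disjoint_left.1 k c) fun n => n ?_
            rcases mem_insert.1 c with rfl | c
            · exact mem_union_left _ (mem_image_of_mem _ he)
            · exact mem_singleton.1 c ▸ mem_union_right _ (mem_image_of_mem _ he)
          · rfl
        rw [this]
        linarith
      · rw [not_or, not_not] at hx
        refine le_trans (mul_le_mul_of_nonneg_left (sum_le_sum fun e _ => ?_) (Nat.cast_nonneg h))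
          (not_lt.1 fun c => hx.1 (mem_union_right _ (mem_filter.2 ⟨hx.2, c⟩)))
        split_ifs
        exacts [mu_mono hθ subset_union_left e, le_rfl]
    calc _ ≤ h * ∑ x ∈ B, d H' x := by
          refine mul_le_mul_of_nonneg_left ?_ (Nat.cast_nonneg h)
          simp only [d]
          rw [sum_comm, sum_filter]
          refine sum_le_sum fun e _ => ?_
          split_ifs with c
          · exact sum_nonneg fun x _ => d0 _ _ _
          · obtain ⟨x, x1, x2⟩ := not_disjoint_iff.1 c
            exact (if_pos x1).ge.trans (single_le_sum (fun x _ => d0 H' x e) x2)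
      _ ≤ _ := by
          rw [mul_sum, ← nsmul_eq_mul]
          exact sum_le_card_nsmul _ _ _ fun x _ => b1 x

lemma level (hθ : 1 ≤ θ) (hθ2 : θ ≤ 2) (hW : W ⊆ H) (hC : 0 < C) (hO : Om θ F S W H ≤ C)
    (h4 : A4 θ δ R Y F S) (hR : 1 ≤ R) (hh : 256 * R ≤ δ * h) (hY : supp S ⊆ Y) :
    ∃ H' Sp : Finset V, H ⊆ H' ∧ H' ⊆ Sp ∧ H'.card ≤ H.card + h ∧ Sp.card ≤ H.card + h + 2 * R ∧
      ∀ a ∈ Y, ∀ b ∈ Y, a ∉ Sp → b ∉ Sp →
        Om θ F S (W ∪ {a, b}) (H' ∪ {a, b}) ≤ (1 + δ) * C := by
  obtain ⟨H', h1, h2, h3⟩ := heavy hθ hC hO h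
  by_contra hn
  have R0 : (0 : ℝ) < R := by exact_mod_cast hR
  have h0 : (0 : ℝ) < h := by
    refine lt_of_le_of_ne (Nat.cast_nonneg h) fun e => ?_
    rw [← e] at hh
    linarith
  obtain ⟨a, b, c1, c2⟩ := greedy (fun a b => {a, b} ⊆ Y ∧
      (1 + δ) * C < Om θ F S (W ∪ {a, b}) (H' ∪ {a, b})) H' R fun B d1 d2 => by
    by_contra hm
    exact hn ⟨H', B, h1, d1, h2, by omega, fun a ha b hb e1 e2 => not_lt.1 fun e3 =>
      hm ⟨a, b, e1, e2, insert_subset ha (singleton_subset_iff.2 hb), e3⟩⟩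
  let g : V × V → ℝ := fun e => ∑ i ∈ range R, mon θ F S (bip {a i, b i} {e.1, e.2})
  have g1 : ∀ e, g e ≤ R * 16 := fun e => by
    refine (sum_le_card_nsmul _ _ 16 fun i _ => ?_).trans (by simp)
    refine (mon_le_pow hθ (n := 4) (card_bip.trans
      (Nat.mul_le_mul card_le_two card_le_two))).trans ?_
    exact (pow_le_pow_left₀ (by linarith) hθ2 4).trans (by norm_num)
  have g2 : R * ((1 + δ) * C) < ∑ e ∈ S, mu θ F S W H' e * g e := by
    calc _ = ∑ i ∈ range R, (1 + δ) * C := by simp
      _ < _ := sum_lt_sum_of_nonempty (nonempty_range_iff.2 (by omega))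
          fun i hi => (c1 i (mem_range.1 hi)).1.2
      _ ≤ _ := by
        simp only [g, mul_sum]
        rw [sum_comm]
        exact sum_le_sum fun i hi => sum_le_sum fun e _ =>
          mu_add hθ (hW.trans h1) (c1 i (mem_range.1 hi)).2 e
  have g3 : ∑ e ∈ S, mu θ F S W H' e ≤ C := (sum_le_sum fun e _ => mu_mono hθ h1 e).trans hO
  have cB := card_biUnion_le_card_mul (range R) (fun i => ({a i, b i} : Finset V)) 2
    fun _ _ => card_le_two
  rw [card_range] at cB
  obtain ⟨x, y, c3, c4⟩ := greedy (fun x y => (x, y) ∈ S ∧ (1 + δ / 2) * R ≤ g (x, y))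
      ((range R).biUnion fun i => {a i, b i}) R fun B _ d2 => by
    by_contra hm
    have d3 : (B.card : ℝ) ≤ 4 * R := by exact_mod_cast (by omega)
    have d4 := h3 B
    have d5 : ∑ e ∈ S.filter (fun e => ¬ Disjoint {e.1, e.2} B), mu θ F S W H' e * g e ≤
        (∑ e ∈ S.filter (fun e => ¬ Disjoint {e.1, e.2} B), mu θ F S W H' e) * (R * 16) := by
      rw [sum_mul]
      exact sum_le_sum fun e _ => mul_le_mul_of_nonneg_left (g1 e) (mu_nonneg hθ e)
    have δ0 : 0 < δ := by
      by_contra c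
      nlinarith
    have d6 : ∑ e ∈ S.filter (fun e => Disjoint {e.1, e.2} B), mu θ F S W H' e * g e ≤
        C * ((1 + δ / 2) * R) := by
      refine le_trans ?_ (mul_le_mul_of_nonneg_right ((sum_le_sum_of_subset_of_nonneg
        (filter_subset (fun e => Disjoint {e.1, e.2} B) S) fun e _ _ => mu_nonneg hθ e).trans g3)
        (by positivity))
      rw [sum_mul]
      refine sum_le_sum fun e he => mul_le_mul_of_nonneg_left (not_lt.1 fun c => hm ?_)
        (mu_nonneg hθ e)
      obtain ⟨k1, k2⟩ := mem_filter.1 he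
      rw [disjoint_insert_left, disjoint_singleton_left] at k2
      exact ⟨e.1, e.2, k2.1, k2.2, k1, c.le⟩
    rw [← sum_filter_add_sum_filter_not S (fun e => Disjoint {e.1, e.2} B)] at g2
    generalize ∑ e ∈ S.filter (fun e => ¬ Disjoint {e.1, e.2} B), mu θ F S W H' e = z at d4 d5
    have d7 : h * (z * 32) ≤ h * (δ * C) := by
      nlinarith [mul_le_mul_of_nonneg_right d3 hC.le, mul_le_mul_of_nonneg_right hh hC.le]
    have d8 := mul_le_mul_of_nonneg_left (le_of_mul_le_mul_left d7 h0) R0.le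
    nlinarith
  refine (h4 a b x y (fun i hi => (c1 i hi).1.1) (fun i hi => ?_) c2 c4 fun i hi j hj => ?_).not_ge ?_
  · exact insert_subset (hY (mem_union_left _ (mem_image_of_mem Prod.fst (c3 i hi).1.1)))
      (singleton_subset_iff.2 (hY (mem_union_right _ (mem_image_of_mem Prod.snd (c3 i hi).1.1))))
  · exact ((c3 j hj).2.mono_right (subset_biUnion_of_mem (fun i => ({a i, b i} : Finset V))
      (mem_range.2 hi))).symm
  · rw [sum_comm]
    refine le_trans (le_of_eq ?_) (card_nsmul_le_sum _ _ _ fun m hm => (c3 m (mem_range.1 hm)).1.2)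
    rw [card_range, nsmul_eq_mul]
    ring

end Pool.Agent.Lib.MP_4a944d_co.Hc
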