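import Pool.Agent.Lib.MP_4a944d_co.NPot
import Pool.Agent.Lib.MP_4a944d_co.HAsy
import Pool.Agent.Lib.MP_4a944d_co.NWin

/-! Sharper parameters: only polynomial losses. -/

set_option autoImplicit false

noncomputable section

namespace Pool.Agent.Lib.MP_4a944d_co.Hc

open Finset Filter Real
open scoped Classical Topology

lemma log_ineq {l s r : ℝ} (l0 : 0 ≤ l) (s0 : 0 ≤ s) (h : 3 * l + 10 * s + 16 ≤ 2 * r) :
    s + s * l + s * l + gx l l 0 + (s + l) * (r - l + 1) < -l + r * (r - 1) / 2 := by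
  obtain ⟨e, rfl⟩ : ∃ e, r = 3 / 2 * l + 5 * s + 8 + e := ⟨r - (3 / 2 * l + 5 * s + 8), by ring⟩
  have e0 : 0 ≤ e := by linarith
  unfold gx
  nlinarith [mul_nonneg l0 e0, mul_nonneg s0 e0, mul_nonneg s0 s0, mul_nonneg e0 e0]

theorem pot_log {V : Type*} [LinearOrder V] {θ τ G : ℝ} {q l s r N : ℕ} (t1 : 1 < θ) (t2 : θ ≤ 2)
    (hq : 10 ^ 8 ≤ q) (e1 : 345600 * (q : ℝ) ^ 3 ≤ exp q) (l1 : 1 ≤ l) (lq : l ≤ q) (sq' : s ≤ q)
    (hs : (q : ℝ) ^ 6 ≤ θ ^ s) (rq : r ≤ 2 * q) (hr : 3 * l + 10 * s + 16 ≤ 2 * r)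
    (h1 : (θ ^ l)⁻¹ ≤ τ) (h2 : τ ≤ 1) (hN : (N : ℝ) ≤ θ ^ l) (G0 : 0 < G)
    (hG : G ≤ (θ ^ s) ^ l) : ∃ psi psx, Pot (V := V) θ τ G N r psi psx := by
  have θ0 : 0 < θ := by linarith
  have h0 : 0 < τ := lt_of_lt_of_le (by positivity) h1
  have Q : (10 : ℝ) ^ 8 ≤ q := by exact_mod_cast hq
  have q1 : (1 : ℝ) ≤ q := by linarith
  have q0 : (0 : ℝ) < q := by linarith
  have lq' : (l : ℝ) ≤ q := by exact_mod_cast lq
  have sq'' : (s : ℝ) ≤ q := by exact_mod_cast sq'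
  have rq' : (r : ℝ) ≤ 2 * q := by exact_mod_cast rq
  have θe : θ ≤ exp 1 := by linarith [add_one_le_exp (1 : ℝ)]
  have pe : ∀ n : ℕ, θ ^ n ≤ exp n := fun n => by
    calc _ ≤ exp 1 ^ n := by gcongr
      _ = _ := by rw [← exp_nat_mul, mul_one]
  have i1 : τ⁻¹ ≤ θ ^ l := inv_le_of_inv_le₀ (by positivity) h1
  have i2 : θ ^ l ≤ exp q := (pe l).trans (exp_le_exp.2 lq')
  have g1 : G ≤ exp ((q : ℝ) ^ 2) := by
    rw [← pow_mul] at hG
    refine hG.trans ((pe _).trans (exp_le_exp.2 ?_))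
    push_cast
    rw [sq]
    gcongr
  have p : ∀ {a b : ℕ}, a ≤ b → (q : ℝ) ^ a ≤ q ^ b := fun h => pow_le_pow_right₀ q1 h
  have p5 : 10 ^ 8 * (q : ℝ) ^ 5 ≤ θ ^ s := by
    refine le_trans ?_ hs
    rw [pow_succ' (q : ℝ) 5]
    gcongr
  have q3 : (1 : ℝ) ≤ q ^ 3 := one_le_pow₀ q1
  have f16 : 16 ≤ exp (q : ℝ) := by linarith
  have a1 := p (show 1 ≤ 5 by norm_num)
  have a2 := p (show 2 ≤ 5 by norm_num)
  have a3 := p (show 3 ≤ 5 by norm_num)
  have a4 := p (show 4 ≤ 5 by norm_num)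
  rw [pow_one] at a1
  have s1 : 1 ≤ θ ^ s := by linarith
  have tl : 0 < θ ^ l := by positivity
  refine pot_of (δ := (q : ℝ)⁻¹) (ρ := θ ^ s) (R := 86400 * q ^ 3) (h := 22118400 * q ^ 4) (l := l)
    (M := θ ^ s * θ ^ l) t1.le t2 h0 h2 (by positivity) (inv_le_one_of_one_le₀ q1)
    (Nat.succ_le_of_lt (by have : 0 < q := by omega
                           positivity)) ?_ l1 (by omega) ?_ ?_
    (i1.trans (le_mul_of_one_le_left tl.le s1)) ?_ ?_ ?_
  · push_cast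
    refine le_of_eq ?_
    field_simp
    norm_num
  · have u : exp (-(2 * q)) ≤ τ / (4 * (86400 * q ^ 3 : ℕ)) := by
      push_cast
      rw [le_div_iff₀ (by positivity)]
      calc _ ≤ exp (-(2 * q)) * exp q := by gcongr; linarith
        _ = (exp q)⁻¹ := by rw [← exp_add, ← exp_neg]; congr 1; ring
        _ ≤ _ := (inv_anti₀ tl i2).trans h1
    calc _ ≤ exp q * exp ((q : ℝ) ^ 2) := by gcongr
      _ < exp (-(2 * q)) ^ (4 * (86400 * q ^ 3)) *
          exp ((86400 * q ^ 3 : ℕ) ^ 2 * (q : ℝ)⁻¹ ^ 2 / 7200) := by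
        rw [← exp_nat_mul, ← exp_add, ← exp_add, exp_lt_exp]
        push_cast
        have : (86400 * (q : ℝ) ^ 3) ^ 2 * (q : ℝ)⁻¹ ^ 2 / 7200 = 1036800 * q ^ 4 := by
          field_simp
          norm_num
        rw [this]
        have b1 := p (show 1 ≤ 4 by norm_num)
        have b2 := p (show 2 ≤ 4 by norm_num)
        rw [pow_one] at b1
        linarith
      _ ≤ _ := by gcongr
  · have u : (τ / 4)⁻¹ ≤ 4 * θ ^ l := by
      rw [inv_div, div_eq_mul_inv]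
      gcongr
    have v : log (16 * G * (τ / 4)⁻¹ ^ r) ≤ 6 * q ^ 2 := by
      rw [log_le_iff_le_exp (by positivity)]
      calc _ ≤ exp q * exp ((q : ℝ) ^ 2) * (exp q * exp q) ^ r := by
            gcongr
            exact u.trans (by gcongr; linarith)
        _ ≤ _ := by
          rw [← exp_add, ← exp_add, ← exp_nat_mul, ← exp_add, exp_le_exp]
          nlinarith
    calc _ ≤ _ := mul_le_mul_of_nonneg_left v (by positivity)
      _ ≤ (4 * θ ^ l + θ ^ l) * (6 * q ^ 2) := by gcongr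
      _ = 30 * q ^ 2 * θ ^ l := by ring
      _ ≤ _ := by gcongr; linarith
  · push_cast
    calc _ ≤ 2 * (q * (22118400 * (q : ℝ) ^ 4 + 2) + 22118400 * q ^ 4 + 2 * (86400 * q ^ 3)) := by
          gcongr
      _ ≤ _ := by linarith
  · have u : (1 + (q : ℝ)⁻¹) ^ l ≤ 3 := by
      calc _ ≤ exp (q : ℝ)⁻¹ ^ l := by gcongr; linarith [add_one_le_exp (q : ℝ)⁻¹]
        _ ≤ exp 1 := by
          rw [← exp_nat_mul, exp_le_exp, ← div_eq_mul_inv, div_le_one q0]
          exact lq'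
        _ ≤ _ := by linarith [exp_one_lt_d9]
    calc _ ≤ 2 * (θ ^ l * 3 * 2) := by gcongr
      _ = 12 * 1 * θ ^ l := by ring
      _ ≤ _ := by
        rw [sq]
        gcongr
        linarith
  · have key := log_ineq (l := l) (s := s) (r := r) (by positivity) (by positivity)
      (by exact_mod_cast hr)
    have eθ : exp (log θ) = θ := exp_log θ0
    have L0 : 0 < log θ := log_pos t1
    generalize log θ = L at eθ L0
    calc _ = 2 * (r + 1) * G * (θ ^ s) ^ l * θ ^ gx l l 0 * (θ ^ s * θ ^ l) ^ (r - l + 1) := by ring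
      _ ≤ θ ^ s * (θ ^ s) ^ l * (θ ^ s) ^ l * θ ^ gx l l 0 * (θ ^ s * θ ^ l) ^ (r - l + 1) := by
          gcongr
          linarith
      _ < (θ ^ l)⁻¹ * θ ^ r.choose 2 := by
        rw [← eθ, ← exp_mul]
        simp only [← exp_nat_mul, ← exp_add, ← exp_neg, exp_lt_exp]
        rw [Nat.cast_choose_two, Nat.cast_succ, Nat.cast_sub (by omega)]
        linarith [mul_lt_mul_of_pos_right key L0]
      _ ≤ _ := by gcongr

theorem win_log : ∀ᶠ q : ℕ in atTop, ∃ t n₀ : ℕ, (t : ℝ) ≤ q ^ 27 * 2 ^ (2 / 3 * q : ℝ) ∧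
    ∀ n, n₀ ≤ n → Win (V := Fin n) (Has q)
      (fun S => ∃ Q : Finset (Fin n), q + 300 * log q ≤ Q.card ∧ Cl S Q) t ∅ ∅ := by
  have L0 : 0 < log 2 := log_pos one_lt_two
  filter_upwards [ev_poly ((32 * 1728 ^ 2) ^ 4) 60 (show 0 < log 2 / 3 by positivity),
    ev_poly 1 1 (show (0 : ℝ) < 1 / 400 by positivity), ev_poly 345600 3 one_pos,
    eventually_ge_atTop (10 ^ 8)] with q e1 e2 e3 hq
  obtain ⟨a, ha⟩ : ∃ a, a = (q + 2) / 3 := ⟨_, rfl⟩
  obtain ⟨p, hp⟩ : ∃ p, q = a + p := ⟨q - a, by omega⟩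
  have Q : (10 : ℝ) ^ 8 ≤ q := by exact_mod_cast hq
  have q1 : (1 : ℝ) ≤ q := by linarith
  have q0 : (0 : ℝ) < q := by linarith
  have aq : (a : ℝ) ≤ q := by exact_mod_cast (by omega)
  have pq : (p : ℝ) ≤ q := by exact_mod_cast (by omega)
  have a2 : (2 * a : ℝ) ≤ q := by exact_mod_cast (by omega)
  have a3 : (3 * a : ℝ) ≤ q + 2 := by exact_mod_cast (by omega)
  rw [one_mul, pow_one, ← log_le_iff_le_exp q0] at e2
  rw [one_mul] at e3
  have g1 : 1 ≤ log q := by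
    rw [le_log_iff_exp_le q0]
    linarith [exp_one_lt_d9]
  have E2 := est_board (a := a) (w := q) pq (by exact_mod_cast (by omega))
    (le_trans (le_of_eq (by ring)) e1)
  have i1 : 1 / (q : ℝ) ≤ 1 / 2 := by gcongr; linarith
  have i0 : 0 ≤ 1 / (q : ℝ) := by positivity
  have s1 := Nat.le_ceil (3 * log q)
  have s2 := (Nat.ceil_lt_add_one (show 0 ≤ 3 * log q by positivity)).le
  generalize ⌈3 * log q⌉₊ = s at s1 s2
  have r1 := Nat.le_ceil (q + 300 * log q)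
  have r2 := (Nat.ceil_lt_add_one (show 0 ≤ q + 300 * log q by positivity)).le
  simp only [← Nat.ceil_le]
  generalize ⌈q + 300 * log q⌉₊ = r at r1 r2
  have b1 : (2 : ℝ) ^ (2 * a) ≤ 2 * (2 - 1 / q) ^ (2 * a) := by
    have c := one_add_mul_le_pow (a := -(1 / q / 2 : ℝ)) (by linarith) (2 * a)
    have d : (2 * a : ℕ) * (1 / q / 2 : ℝ) ≤ 1 / 2 := by
      push_cast
      rw [mul_div_assoc', mul_one_div]
      gcongr
      rwa [div_le_one q0]
    calc _ = 2 * (2 ^ (2 * a) * (1 / 2) : ℝ) := by ring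
      _ ≤ 2 * (2 ^ (2 * a) * (1 + -(1 / q / 2)) ^ (2 * a)) := by gcongr; linarith
      _ = _ := by rw [← mul_pow]; congr 2; ring
  generalize hθ : (2 - 1 / q : ℝ) = θ at b1
  have t1 : 3 / 2 ≤ θ := by linarith
  have t2 : θ ≤ 2 := by linarith
  have b2 : (q : ℝ) ≤ θ ^ s := by
    have c := exp_bound_div_one_sub_of_interval (x := 1 / 3) (by norm_num) (by norm_num)
    calc _ = exp (log q) := (exp_log q0).symm
      _ ≤ exp (s * (1 / 3)) := exp_le_exp.2 (by linarith)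
      _ ≤ _ := by rw [exp_nat_mul]; gcongr; linarith
  have q3 : (10 : ℝ) ^ 24 ≤ q ^ 3 := le_trans (by norm_num) (pow_le_pow_left₀ (by norm_num) Q 3)
  have b3 : (14 * tt a p q : ℝ) ≤ q ^ 26 * 2 ^ (2 * a) := by
    unfold tt
    push_cast
    calc _ ≤ 14 * (65 * q * (1728 * q ^ 7) ^ 2 * (128 * 2 ^ a * (65 * q ^ 2 * q) * q) ^ 2 : ℝ) := by
          gcongr
      _ = 14 * 65 * 1728 ^ 2 * (128 * 65) ^ 2 * (q ^ 23 * 2 ^ (2 * a)) := by ring
      _ ≤ q ^ 3 * (q ^ 23 * 2 ^ (2 * a)) := by gcongr; linarith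
      _ = _ := by ring
  have b4 : (14 * tt a p q : ℝ) ≤ θ ^ (2 * a + 27 * s) := by
    calc _ ≤ (q : ℝ) ^ 26 * (q * θ ^ (2 * a)) := by
          refine b3.trans (mul_le_mul_of_nonneg_left (b1.trans ?_) (by positivity))
          gcongr
          linarith
      _ = θ ^ (2 * a) * q ^ 27 := by ring
      _ ≤ θ ^ (2 * a) * (θ ^ s) ^ 27 := by gcongr
      _ = _ := by ring
  have b5 : (q : ℝ) ^ 6 ≤ θ ^ (6 * s) := by
    rw [mul_comm, pow_mul]
    gcongr
  have b6 : (16 * (1728 * p ^ 7) ^ 2 * (16 * a) ^ a : ℝ) ≤ (θ ^ (6 * s)) ^ (2 * a + 27 * s) := by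
    calc _ ≤ (16 * (1728 * q ^ 7) ^ 2 * (q * q) ^ a : ℝ) := by gcongr; linarith
      _ = 16 * 1728 ^ 2 * q ^ (14 + 2 * a) := by ring
      _ ≤ q * q ^ (14 + 2 * a) := by gcongr; linarith
      _ ≤ ((q : ℝ) ^ 6) ^ (2 * a + 27 * s) := by
          rw [← pow_succ', ← pow_mul]
          exact pow_le_pow_right₀ q1 (by omega)
      _ ≤ _ := by gcongr
  have t0 : (1 : ℝ) ≤ tt a p q := by
    have a0 : 0 < a := by omega
    have p0 : 0 < p := by omega
    have w0 : 0 < q := by omega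
    exact_mod_cast Nat.succ_le_of_lt (show 0 < tt a p q by unfold tt; positivity)
  have c1 : 2 * a + 27 * s ≤ q := by
    rw [← Nat.cast_le (α := ℝ)]
    push_cast
    linarith
  have c2 : r ≤ 2 * q := by
    rw [← Nat.cast_le (α := ℝ)]
    push_cast
    linarith
  have c3 : 3 * (2 * a + 27 * s) + 10 * (6 * s) + 16 ≤ 2 * r := by
    rw [← Nat.cast_le (α := ℝ)]
    push_cast
    linarith
  obtain ⟨n₀, h⟩ := win_paramN (a := a) (p := p) (w := q) (r := r) (by omega) (by omega) (by omega)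
    E2 b6 fun n => by
      rw [hθ]
      exact pot_log (by linarith) t2 hq e3 (by omega) c1 (by omega) b5 c2 c3
        (inv_anti₀ (by positivity) b4) (inv_le_one_of_one_le₀ (by linarith))
        (by push_cast; exact b4) (by positivity) le_rfl
  refine ⟨14 * tt a p q, n₀, ?_, hp ▸ h⟩
  push_cast
  refine b3.trans ?_
  rw [pow_succ (q : ℝ) 26, mul_assoc]
  gcongr
  calc (2 : ℝ) ^ (2 * a) = 2 ^ ((2 * a : ℕ) : ℝ) := (rpow_natCast _ _).symm
    _ ≤ 2 ^ ((2 : ℕ) + 2 / 3 * q : ℝ) :=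
      rpow_le_rpow_of_exponent_le one_le_two (by push_cast; linarith)
    _ ≤ _ := by
      rw [rpow_add two_pos, rpow_natCast]
      gcongr
      linarith

end Pool.Agent.Lib.MP_4a944d_co.Hc
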