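import Pool.Agent.Lib.MP_4a944d_co.NDef

/-! Monomials, families of monomials, bipartite edge sets. -/

set_option autoImplicit false

noncomputable section

namespace Pool.Agent.Lib.MP_4a944d_co.Hc

open Finset
open scoped Classical

variable {V : Type*} [LinearOrder V]

/-- the weight of an edge set -/
def mon (θ : ℝ) (F S E : Finset (V × V)) : ℝ := if Disjoint E F then θ ^ (E ∩ S).card else 0

variable {θ : ℝ} {F S E E' : Finset (V × V)} {x y : V × V}

lemma mon_nonneg (h : 1 ≤ θ) : 0 ≤ mon θ F S E := by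
  unfold mon
  split_ifs <;> positivity

lemma mon_empty : mon θ F S (∅ : Finset (V × V)) = 1 := by simp [mon]

lemma mon_F : mon θ (insert x F) S E = if x ∈ E then 0 else mon θ F S E := by
  unfold mon
  by_cases h : x ∈ E <;> simp [h]

lemma mon_S (hy : y ∉ S) :
    mon θ F (insert y S) E = mon θ F S E + (θ - 1) * if y ∈ E then mon θ F S E else 0 := by
  unfold mon
  by_cases h : y ∈ E
  · rw [inter_insert_of_mem h, card_insert_of_notMem fun a => hy (mem_inter.1 a).2, if_pos h]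
    split_ifs <;> ring
  · rw [inter_insert_of_notMem h, if_neg h]
    ring

lemma mon_union (h : Disjoint E E') : mon θ F S (E ∪ E') = mon θ F S E * mon θ F S E' := by
  unfold mon
  rw [union_inter_distrib_right, card_union_of_disjoint
    (h.mono inter_subset_left inter_subset_left), pow_add]
  by_cases a : Disjoint E F <;> by_cases b : Disjoint E' F <;> simp [a, b]

lemma mon_biUnion {ι : Type*} (f : ι → Finset (V × V)) (s : Finset ι)
    (h : ∀ i ∈ s, ∀ j ∈ s, i ≠ j → Disjoint (f i) (f j)) :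
    mon θ F S (s.biUnion f) = ∏ i ∈ s, mon θ F S (f i) := by
  induction s using Finset.induction_on with
  | empty => simp [mon_empty]
  | insert a s ha ih =>
    rw [biUnion_insert, prod_insert ha, mon_union, ih fun i hi j hj =>
      h i (mem_insert_of_mem hi) j (mem_insert_of_mem hj)]
    exact (disjoint_biUnion_right _ _ _).2 fun i hi =>
      h a (mem_insert_self _ _) i (mem_insert_of_mem hi) fun e => ha (e ▸ hi)

lemma mon_le (h : 1 ≤ θ) (h1 : E' ⊆ E) (h2 : ∀ e ∈ E, e ∈ S → e ∈ E') :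
    mon θ F S E ≤ mon θ F S E' := by
  by_cases a : Disjoint E F
  · unfold mon
    rw [if_pos a, if_pos (a.mono_left h1)]
    exact pow_le_pow_right₀ h (card_le_card fun e he =>
      mem_inter.2 ⟨h2 e (mem_inter.1 he).1 (mem_inter.1 he).2, (mem_inter.1 he).2⟩)
  · rw [mon, if_neg a]
    exact mon_nonneg h

lemma mon_le_pow (h : 1 ≤ θ) {n : ℕ} (hn : E.card ≤ n) : mon θ F S E ≤ θ ^ n := by
  unfold mon
  split_ifs
  · exact pow_le_pow_right₀ h ((card_le_card inter_subset_left).trans hn)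
  · positivity

section fam

variable {O : Type*}

/-- a family of monomials -/
def fm (θ : ℝ) (s : Finset O) (cf : O → ℝ) (Eg : O → Finset (V × V)) (F S : Finset (V × V)) : ℝ :=
  ∑ o ∈ s, cf o * mon θ F S (Eg o)

/-- the part through one edge -/
def fx (θ : ℝ) (s : Finset O) (cf : O → ℝ) (Eg : O → Finset (V × V)) (x : V × V)
    (F S : Finset (V × V)) : ℝ :=
  ∑ o ∈ s, cf o * if x ∈ Eg o then mon θ F S (Eg o) else 0

variable {s s' : Finset O} {cf : O → ℝ} {Eg : O → Finset (V × V)}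

lemma fm_nonneg (h : 1 ≤ θ) (hc : ∀ o, 0 ≤ cf o) : 0 ≤ fm θ s cf Eg F S :=
  sum_nonneg fun o _ => mul_nonneg (hc o) (mon_nonneg h)

lemma fx_nonneg (h : 1 ≤ θ) (hc : ∀ o, 0 ≤ cf o) : 0 ≤ fx θ s cf Eg x F S :=
  sum_nonneg fun o _ => mul_nonneg (hc o) (by
    split_ifs
    exacts [mon_nonneg h, le_rfl])

lemma fm_F : fm θ s cf Eg (insert x F) S = fm θ s cf Eg F S - fx θ s cf Eg x F S := by
  simp only [fm, fx, ← sum_sub_distrib]
  refine sum_congr rfl fun o _ => ?_
  rw [mon_F]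
  split_ifs <;> ring

lemma fx_F (h : 1 ≤ θ) (hc : ∀ o, 0 ≤ cf o) :
    fx θ s cf Eg y (insert x F) S ≤ fx θ s cf Eg y F S := by
  refine sum_le_sum fun o _ => mul_le_mul_of_nonneg_left ?_ (hc o)
  rw [mon_F]
  split_ifs
  exacts [mon_nonneg h, le_rfl, le_rfl]

lemma fm_S (hy : y ∉ S) :
    fm θ s cf Eg F (insert y S) = fm θ s cf Eg F S + (θ - 1) * fx θ s cf Eg y F S := by
  simp only [fm, fx, mul_sum, ← sum_add_distrib]
  refine sum_congr rfl fun o _ => ?_
  rw [mon_S hy]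
  ring

lemma fx_mono (h : 1 ≤ θ) (hc : ∀ o, 0 ≤ cf o) (hs : s ⊆ s') :
    fx θ s' cf Eg x F S ≤ fx θ s cf Eg x F S + (fm θ s' cf Eg F S - fm θ s cf Eg F S) := by
  unfold fx fm
  rw [← sum_sdiff hs, ← sum_sdiff hs, add_sub_cancel_right, add_comm]
  refine add_le_add le_rfl (sum_le_sum fun o _ => mul_le_mul_of_nonneg_left ?_ (hc o))
  split_ifs
  exacts [le_rfl, mon_nonneg h]

lemma le_fm (h : 1 ≤ θ) (hc : ∀ o, 0 ≤ cf o) (hs : s ⊆ s') :
    fm θ s cf Eg F S ≤ fm θ s' cf Eg F S :=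
  sum_le_sum_of_subset_of_nonneg hs fun o _ _ => mul_nonneg (hc o) (mon_nonneg h)

end fam

lemma pr_eq {a b c d : V} (h : pr a b = pr c d) : (a = c ∧ b = d) ∨ (a = d ∧ b = c) := by
  unfold pr at h
  split_ifs at h <;> simp only [Prod.mk.injEq] at h <;> tauto

lemma pr_comm (a b : V) : pr a b = pr b a := by
  unfold pr
  rcases lt_trichotomy a b with h | h | h
  · rw [if_pos h, if_neg h.not_gt]
  · rw [h]
  · rw [if_pos h, if_neg h.not_gt]

lemma pr_supp {a b : V} (h : pr a b ∈ S) : a ∈ supp S ∧ b ∈ supp S := by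
  have h1 : (pr a b).1 ∈ supp S := mem_union_left _ (mem_image_of_mem _ h)
  have h2 : (pr a b).2 ∈ supp S := mem_union_right _ (mem_image_of_mem _ h)
  unfold pr at h1 h2
  split_ifs at h1 h2
  exacts [⟨h1, h2⟩, ⟨h2, h1⟩]

lemma pr_ne (hS : Up S) {a b : V} (h : pr a b ∈ S) : a ≠ b := by
  rintro rfl
  have := hS _ h
  simp [pr] at this

lemma pr_self {e : V × V} (h : e.1 < e.2) : pr e.1 e.2 = e := if_pos h

/-- all edges between two vertex sets -/
def bip (D Z : Finset V) : Finset (V × V) := (D ×ˢ Z).image fun p => pr p.1 p.2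

variable {D D' Z Z' : Finset V}

lemma mem_bip {e : V × V} : e ∈ bip D Z ↔ ∃ a ∈ D, ∃ z ∈ Z, pr a z = e := by
  simp only [bip, mem_image, mem_product, Prod.exists]
  tauto

lemma bip_mono (h1 : D ⊆ D') (h2 : Z ⊆ Z') : bip D Z ⊆ bip D' Z' :=
  image_subset_image (product_subset_product h1 h2)

lemma card_bip : (bip D Z).card ≤ D.card * Z.card := card_image_le.trans (card_product _ _).le

lemma bip_disj (h1 : Disjoint D Z') (h2 : Disjoint D D' ∨ Disjoint Z Z') :
    Disjoint (bip D Z) (bip D' Z') := by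
  refine disjoint_left.2 fun e a b => ?_
  obtain ⟨a, ha, z, hz, rfl⟩ := mem_bip.1 a
  obtain ⟨a', ha', z', hz', e⟩ := mem_bip.1 b
  rcases pr_eq e with ⟨rfl, rfl⟩ | ⟨rfl, rfl⟩
  · exact h2.elim (fun h => disjoint_left.1 h ha ha') fun h => disjoint_left.1 h hz hz'
  · exact disjoint_left.1 h1 ha hz'

lemma bip_union_left : bip (D ∪ D') Z = bip D Z ∪ bip D' Z := by
  simp only [bip, union_product, image_union]

lemma bip_union_right : bip D (Z ∪ Z') = bip D Z ∪ bip D Z' := by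
  simp only [bip, product_union, image_union]

lemma mon_bip_left (h1 : Disjoint D Z) (h2 : Disjoint D D') :
    mon θ F S (bip (D ∪ D') Z) = mon θ F S (bip D Z) * mon θ F S (bip D' Z) := by
  rw [bip_union_left, mon_union (bip_disj h1 (.inl h2))]

lemma mon_bip_prod (h : Disjoint D Z) : mon θ F S (bip D Z) = ∏ z ∈ Z, mon θ F S (bip D {z}) := by
  rw [← mon_biUnion]
  · congr 1
    ext e
    simp only [mem_bip, mem_biUnion, mem_singleton, exists_eq_left]
    tauto
  · intro i _ j hj ij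
    exact bip_disj (h.mono_right (singleton_subset_iff.2 hj)) (.inr (disjoint_singleton.2 ij))

lemma bip_iso {v : V} (hv : v ∉ supp S) {e : V × V} (he : e ∈ bip D Z) (hS : e ∈ S) :
    e ∈ bip (D.erase v) (Z.erase v) := by
  obtain ⟨a, ha, z, hz, rfl⟩ := mem_bip.1 he
  obtain ⟨h1, h2⟩ := pr_supp hS
  exact mem_bip.2 ⟨a, mem_erase.2 ⟨fun e => hv (e ▸ h1), ha⟩, z,
    mem_erase.2 ⟨fun e => hv (e ▸ h2), hz⟩, rfl⟩

/-- the number of neighbours of `z` in `D` -/
def dg (S : Finset (V × V)) (z : V) (D : Finset V) : ℕ := (D.filter fun a => pr a z ∈ S).card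

lemma card_bip_inter {z : V} : (bip D {z} ∩ S).card = dg S z D := by
  unfold dg
  rw [← card_image_of_injective (f := fun a => pr a z) _ fun a b e => by
    rcases pr_eq e with h | h
    exacts [h.1, h.1.trans h.2]]
  congr 1
  ext e
  simp only [mem_inter, mem_bip, mem_singleton, exists_eq_left, mem_image, mem_filter]
  constructor
  · rintro ⟨⟨a, ha, rfl⟩, h⟩
    exact ⟨a, ⟨ha, h⟩, rfl⟩
  · rintro ⟨a, ⟨ha, h⟩, rfl⟩
    exact ⟨⟨a, ha, rfl⟩, h⟩

lemma Ed_insert {z : V} (hz : z ∉ D) : Ed (insert z D) \ Ed D = bip D {z} := by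
  ext ⟨a, b⟩
  simp only [mem_sdiff, mem_Ed, mem_insert, mem_bip, mem_singleton, exists_eq_left]
  constructor
  · rintro ⟨⟨h1 | h1, h2 | h2, h3⟩, h4⟩
    · exact absurd (h1.trans h2.symm) h3.ne
    · subst h1
      exact ⟨b, h2, if_neg h3.not_gt⟩
    · subst h2
      exact ⟨a, h1, if_pos h3⟩
    · exact absurd ⟨h1, h2, h3⟩ h4
  · rintro ⟨c, hc, e⟩
    have cz : c ≠ z := fun e => hz (e ▸ hc)
    unfold pr at e
    split_ifs at e with h <;> obtain ⟨rfl, rfl⟩ := Prod.mk.inj e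
    · exact ⟨⟨.inr hc, .inl rfl, h⟩, fun k => hz k.2.1⟩
    · exact ⟨⟨.inl rfl, .inr hc, lt_of_le_of_ne (not_lt.1 h) cz.symm⟩, fun k => hz k.1⟩

lemma Ed_sub (h : D ⊆ D') : Ed D ⊆ Ed D' := fun _ he =>
  mem_Ed.2 ⟨h (mem_Ed.1 he).1, h (mem_Ed.1 he).2.1, (mem_Ed.1 he).2.2⟩

/-- the weight of `X` over the base `D` -/
def rel (θ : ℝ) (F S : Finset (V × V)) (D X : Finset V) : ℝ := mon θ F S (Ed (D ∪ X) \ Ed D)

lemma rel_step {X : Finset V} {z : V} (hz : z ∈ X) (hD : z ∉ D) :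
    rel θ F S D X = mon θ F S (bip D {z}) * rel θ F S (insert z D) (X.erase z) := by
  unfold rel
  have e : insert z D ∪ X.erase z = D ∪ X := by
    rw [insert_union, ← union_insert, insert_erase hz]
  rw [e, ← Ed_insert hD, ← mon_union (disjoint_sdiff.mono_left sdiff_subset), union_comm (_ \ _),
    sdiff_union_sdiff_cancel (Ed_sub (e ▸ subset_union_left)) (Ed_sub (subset_insert _ _))]

lemma rel_nonneg (h : 1 ≤ θ) {X : Finset V} : 0 ≤ rel θ F S D X := mon_nonneg h

/-- a sum over sets, each of which has a marked element -/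
lemma sum_mark {ι : Type*} (𝒳 : Finset (Finset V)) (I : Finset ι) (d : ι → Finset V)
    (𝒴 : ι → Finset (Finset V)) (f : Finset V → ℝ) (g : ι → Finset V → ℝ)
    (hg : ∀ i X, 0 ≤ g i X)
    (h : ∀ X ∈ 𝒳, ∃ i ∈ I, d i ⊆ X ∧ X \ d i ∈ 𝒴 i ∧ f X ≤ g i (X \ d i)) :
    ∑ X ∈ 𝒳, f X ≤ ∑ i ∈ I, ∑ X ∈ 𝒴 i, g i X := by
  calc _ ≤ ∑ X ∈ 𝒳, ∑ i ∈ I, if d i ⊆ X ∧ X \ d i ∈ 𝒴 i then g i (X \ d i) else 0 := by
        refine sum_le_sum fun X hX => ?_
        obtain ⟨i, hi, h1, h2, h3⟩ := h X hX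
        refine h3.trans (le_trans (if_pos ⟨h1, h2⟩).ge (single_le_sum
          (f := fun i => if d i ⊆ X ∧ X \ d i ∈ 𝒴 i then g i (X \ d i) else 0) (fun j _ => ?_) hi))
        split_ifs
        exacts [hg _ _, le_rfl]
    _ ≤ _ := by
        rw [sum_comm]
        refine sum_le_sum fun i _ => ?_
        rw [← sum_filter, ← sum_image (g := fun X : Finset V => X \ d i) (f := g i)]
        · exact sum_le_sum_of_subset_of_nonneg
            (image_subset_iff.2 fun X hX => (mem_filter.1 hX).2.2) fun _ _ _ => hg _ _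
        · intro X hX X' hX' e
          rw [← sdiff_union_of_subset (mem_filter.1 hX).2.1,
            ← sdiff_union_of_subset (mem_filter.1 hX').2.1]
          exact congrArg (· ∪ d i) e

end Pool.Agent.Lib.MP_4a944d_co.Hc
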