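import Pool.Agent.Lib.MP_4a944d_co.NPot

/-! Choice of the parameters of the potential. -/

set_option autoImplicit false

noncomputable section

namespace Pool.Agent.Lib.MP_4a944d_co.Hc

open Finset Filter Real
open scoped Classical Topology

lemma ev_pow (K : ℝ) (n : ℕ) {ε : ℝ} (hε : 0 < ε) :
    ∀ᶠ q : ℕ in atTop, K * (q : ℝ) ^ n ≤ exp (ε * q) := by
  have h := ((isLittleO_pow_exp_pos_mul_atTop n hε).const_mul_left K).eventuallyLE
  filter_upwards [tendsto_natCast_atTop_atTop.eventually h] with q hq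
  exact (le_abs_self _).trans (hq.trans_eq (abs_of_pos (exp_pos _)))

lemma par_ineq {L a c ε m q l r : ℝ} (L0 : 0 < L) (a0 : 0 < a) (e0 : 0 < ε) (q1 : 1 ≤ q)
    (ac : a < c) (hm : m = L * (c ^ 2 / 2 - (c - a) * a - 5 / 8 * a ^ 2))
    (he : ε * (1 + (a + 1) * (a + 2) + (c + 2)) ≤ m / 2)
    (hq : 1 + L * (5 * a + 1 + c) < m / 2 * q) (l1 : a * q ≤ l) (l2 : l ≤ a * q + 1)
    (r0 : 1 ≤ c * q) (r1 : c * q ≤ r) (r2 : r ≤ c * q + 1) :
    q + ε * q ^ 2 + l * (ε * q + ε * l) + L * gx l l 0 + (r - l + 1) * ((a * L + ε) * q) <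
      -(a * L * q) + L * (r * (r - 1) / 2) := by
  have l0 : 0 ≤ l := le_trans (by positivity) l1
  have q0 : 0 < q := by linarith
  have l3 : l ≤ (a + 1) * q := by linarith
  have b1 : l * (q + l) ≤ (a + 1) * q * ((a + 2) * q) := by gcongr; linarith
  have b2 : l ^ 2 ≤ (a * q + 1) ^ 2 := by gcongr
  have b3 : (r - l + 1) * (a * L * q) ≤ ((c - a) * q + 2) * (a * L * q) :=
    mul_le_mul_of_nonneg_right (by linarith) (by positivity)
  have b4 : (r - l + 1) * (ε * q) ≤ (c + 2) * q * (ε * q) := by gcongr; linarith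
  have b5 : c * q * (c * q - 1) ≤ r * (r - 1) := by gcongr; linarith
  have b6 := mul_le_mul_of_nonneg_left b1 e0.le
  have b7 := mul_le_mul_of_nonneg_left b2 L0.le
  have b8 := mul_le_mul_of_nonneg_left b5 L0.le
  have b9 := mul_le_mul_of_nonneg_right he (sq_nonneg q)
  have b10 := mul_lt_mul_of_pos_right hq q0
  have b11 := mul_le_mul_of_nonneg_left q1 L0.le
  have b12 : 0 ≤ L * a * q := by positivity
  have b13 : 0 ≤ L * c * q := mul_nonneg (mul_nonneg L0.le (by linarith)) q0.le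
  subst hm
  unfold gx
  nlinarith

theorem potSt : PotSt := by
  intro θ β c t1 t2 b0 hc
  have L0 : 0 < log θ := log_pos t1
  have eθ : exp (log θ) = θ := exp_log (by linarith)
  generalize log θ = L at hc L0 eθ
  obtain ⟨a, rfl⟩ : ∃ a, β = a * L := ⟨β / L, by field_simp⟩
  have a0 : 0 < a := (mul_pos_iff_of_pos_right L0).1 b0
  have ac : 3 / 2 * a < c := lt_of_mul_lt_mul_right (by linarith) L0.le
  obtain ⟨m, hm⟩ : ∃ m, m = L * (c ^ 2 / 2 - (c - a) * a - 5 / 8 * a ^ 2) := ⟨_, rfl⟩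
  have m0 : 0 < m := hm ▸ mul_pos L0 (by nlinarith)
  have D0 : 0 < 1 + (a + 1) * (a + 2) + (c + 2) := by nlinarith
  obtain ⟨ε, e0, e1, e2⟩ : ∃ ε, 0 < ε ∧ ε ≤ 1 ∧ ε * (1 + (a + 1) * (a + 2) + (c + 2)) ≤ m / 2 :=
    ⟨min 1 (m / 2 / _), lt_min one_pos (by positivity), min_le_left _ _,
      (le_div_iff₀ D0).1 (min_le_right _ _)⟩
  obtain ⟨K, hK⟩ := exists_nat_ge (7200 * (4 * (a * L + 1) + 3) / ε ^ 2)
  obtain ⟨K', hK'⟩ := exists_nat_ge (256 * K / ε)
  rw [div_le_iff₀ (by positivity)] at hK hK'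
  have K1 : (1 : ℝ) ≤ K := by
    have : ε ^ 2 ≤ 1 := by nlinarith
    nlinarith [Nat.cast_nonneg (α := ℝ) K]
  refine ⟨ε, e0, ?_⟩
  filter_upwards [ev_pow (16 * K + 2 * (c + 2)) 1 one_pos,
    ev_pow (6 * (2 + (c + 1) * (a * L + 1)) + 2 * ((a + 1) * (K' + 2) + K' + 2 * K)) 2 e0,
    eventually_ge_atTop 1,
    (tendsto_natCast_atTop_atTop.const_mul_atTop (half_pos m0)).eventually_gt_atTop
      (1 + L * (5 * a + 1 + c)),
    (tendsto_natCast_atTop_atTop.const_mul_atTop (half_pos a0)).eventually_ge_atTop 1]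
    with q E1 E2 q1 E3 E4 τ N r h1 h2 h3 h4 h5 V _
  have q1' : (1 : ℝ) ≤ q := by exact_mod_cast q1
  have q2 : (q : ℝ) ≤ q ^ 2 := by nlinarith
  have c0 : 0 < c := by linarith
  rw [pow_one, one_mul] at E1
  have aq : 0 < a * q := by positivity
  have acq := mul_le_mul_of_nonneg_right ac.le (Nat.cast_nonneg q)
  have eq0 : 0 ≤ ε * q := by positivity
  have eq2 := mul_le_mul_of_nonneg_right e1 (sq_nonneg (q : ℝ))
  have l1 := Nat.le_ceil (a * q)
  have l2 := Nat.ceil_lt_add_one aq.le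
  have l0 := Nat.ceil_pos.2 aq
  generalize ⌈a * q⌉₊ = l at l0 l1 l2
  have h0 : 0 < τ := (exp_pos _).trans_le h1
  have i1 : τ⁻¹ ≤ exp (a * L * q) := inv_le_of_inv_le₀ (exp_pos _) (by rwa [← exp_neg])
  have Kq : (1 : ℝ) ≤ K * q := one_le_mul_of_one_le_of_one_le K1 q1'
  have cq : 0 ≤ (c + 2) * q := by positivity
  have f16 : 16 ≤ exp q := by linarith
  have p1 : θ ^ l = exp (l * L) := by rw [exp_nat_mul, eθ]
  have p2 : exp (a * L * q) ≤ θ ^ l := by
    rw [p1]
    exact exp_le_exp.2 (by linarith [mul_le_mul_of_nonneg_right l1 L0.le])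
  have p3 : θ ^ l ≤ 2 * exp (a * L * q) := by
    rw [p1]
    calc _ ≤ exp (L + a * L * q) :=
          exp_le_exp.2 (by linarith [mul_le_mul_of_nonneg_right l2.le L0.le])
      _ ≤ _ := by rw [exp_add, eθ]; gcongr
  have lr : l < r := by
    rw [← Nat.cast_lt (α := ℝ)]
    linarith
  have n1 : 0 ≤ 6 * (2 + (c + 1) * (a * L + 1)) * (q : ℝ) ^ 2 := by positivity
  have n2 : 0 ≤ 2 * ((a + 1) * (K' + 2) + K' + 2 * K) * (q : ℝ) ^ 2 := by positivity
  have x1 : 1 ≤ exp (ε * l) := one_le_exp (by positivity)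
  refine pot_of (δ := ε) (ρ := exp (ε * q + ε * l)) (R := K * q) (h := K' * q) (l := l)
    (M := exp ((a * L + ε) * q)) t1.le t2 h0 h2 e0 e1 (by exact_mod_cast Kq) ?_ l0 lr ?_ ?_
    (i1.trans (exp_le_exp.2 (by linarith))) ?_ ?_ ?_
  · push_cast
    linarith [mul_le_mul_of_nonneg_right hK' (Nat.cast_nonneg q)]
  · have u : exp (-((a * L + 1) * q)) ≤ τ / (4 * (K * q : ℕ)) := by
      push_cast
      rw [le_div_iff₀ (by positivity)]
      calc _ ≤ exp (-((a * L + 1) * q)) * exp q := by gcongr; linarith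
        _ ≤ _ := by rw [← exp_add]; exact le_trans (exp_le_exp.2 (by linarith)) h1
    calc _ ≤ exp q * exp (ε * q ^ 2) := by gcongr
      _ < exp (-((a * L + 1) * q)) ^ (4 * (K * q)) * exp ((K * q : ℕ) ^ 2 * ε ^ 2 / 7200) := by
        rw [← exp_nat_mul, ← exp_add, ← exp_add, exp_lt_exp]
        push_cast
        have := mul_le_mul_of_nonneg_right hK (show 0 ≤ (K : ℝ) * q ^ 2 by positivity)
        linarith [mul_le_mul_of_nonneg_right K1 (sq_nonneg (q : ℝ))]
      _ ≤ _ := by gcongr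
  · have u : (τ / 4)⁻¹ ≤ 4 * exp (a * L * q) := by
      rw [inv_div, div_eq_mul_inv]
      gcongr
    have v : log (16 * exp (ε * q ^ 2) * (τ / 4)⁻¹ ^ r) ≤ (2 + (c + 1) * (a * L + 1)) * q ^ 2 := by
      rw [log_le_iff_le_exp (by positivity)]
      calc _ ≤ exp q * exp (ε * q ^ 2) * (exp q * exp (a * L * q)) ^ r := by
            gcongr
            exact u.trans (by gcongr; linarith)
        _ ≤ _ := by
          rw [← exp_add, ← exp_add, ← exp_nat_mul, ← exp_add, exp_le_exp]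
          have : (r : ℝ) * (q + a * L * q) ≤ (c + 1) * q * (q + a * L * q) := by gcongr; linarith
          linarith
    calc _ ≤ _ := mul_le_mul_of_nonneg_left v (by positivity)
      _ ≤ (4 * exp (a * L * q) + 2 * exp (a * L * q)) *
          ((2 + (c + 1) * (a * L + 1)) * q ^ 2) := by gcongr
      _ = exp (a * L * q) * (6 * (2 + (c + 1) * (a * L + 1)) * q ^ 2) := by ring
      _ ≤ exp (a * L * q) * exp (ε * q) := by gcongr; linarith
      _ = _ := by rw [← exp_add]; congr 1; ring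
  · push_cast
    calc _ ≤ 2 * ((a + 1) * q * (K' * q + 2 * q) + K' * q ^ 2 + 2 * (K * q ^ 2)) := by
          gcongr <;> linarith
      _ ≤ exp (ε * q) := by linarith
      _ ≤ _ := exp_le_exp.2 (le_add_of_nonneg_right (by positivity))
  · have u : (1 + ε) ^ l ≤ exp (ε * l) := by
      rw [mul_comm, exp_nat_mul]
      gcongr
      linarith [add_one_le_exp ε]
    have v : 4 ≤ exp (ε * q) := by
      have : 0 ≤ (c + 1) * (a * L + 1) * (q : ℝ) ^ 2 := by positivity
      linarith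
    calc _ ≤ 2 * (θ ^ l * exp (ε * l) * 2) := by gcongr; exact h3.trans p2
      _ = 4 * exp (ε * l) * 1 * θ ^ l := by ring
      _ ≤ _ := by
        rw [sq]
        gcongr
        · rw [exp_add]
          gcongr
        · exact one_le_exp (by positivity)
  · have key := par_ineq L0 a0 e0 q1' (by linarith) hm e2 E3 l1 l2.le (by linarith) h4 h5
    calc _ = 2 * (r + 1) * exp (ε * q ^ 2) * exp (ε * q + ε * l) ^ l * θ ^ gx l l 0 *
          exp ((a * L + ε) * q) ^ (r - l + 1) := by ring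
      _ ≤ exp q * exp (ε * q ^ 2) * exp (ε * q + ε * l) ^ l * θ ^ gx l l 0 *
          exp ((a * L + ε) * q) ^ (r - l + 1) := by gcongr; linarith
      _ < exp (-(a * L * q)) * θ ^ r.choose 2 := by
        rw [← eθ, ← exp_mul]
        simp only [← exp_nat_mul, ← exp_add, exp_lt_exp]
        rw [Nat.cast_choose_two, Nat.cast_succ, Nat.cast_sub lr.le, mul_comm (_ / 2)]
        exact key
      _ ≤ _ := by gcongr

end Pool.Agent.Lib.MP_4a944d_co.Hc
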