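import Pool.Agent.Lib.MP_4a944d_co.NGrid

/-! The potential with explicit parameters. -/

set_option autoImplicit false

noncomputable section

namespace Pool.Agent.Lib.MP_4a944d_co.Hc

open Finset Real
open scoped Classical

variable {V : Type*} [LinearOrder V] {θ τ : ℝ} {F S : Finset (V × V)} {Y : Finset V} {y : V × V}

lemma fx_le {O : Type*} {s : Finset O} {cf : O → ℝ} {Eg : O → Finset (V × V)} (hθ : 1 ≤ θ)
    (hc : ∀ o, 0 ≤ cf o) : fx θ s cf Eg y F S ≤ fm θ s cf Eg F S := by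
  have := fm_nonneg (s := s) (Eg := Eg) (F := insert y F) (S := S) hθ hc
  rw [fm_F] at this
  linarith

lemma fam_step {O : Type*} (s : Finset V → Finset O) {cf : O → ℝ} {Eg : O → Finset (V × V)}
    (hθ : 1 ≤ θ) (hθ2 : θ ≤ 2) (h0 : 0 ≤ τ) (h1 : τ ≤ 1) (hc : ∀ o, 0 ≤ cf o)
    (mono : ∀ Y Y', Y ⊆ Y' → s Y ⊆ s Y')
    (grow : ∀ v Y, v ∉ Y → v ∉ supp S →
      fm θ (s (insert v Y)) cf Eg F S ≤ (1 + τ) * fm θ (s Y) cf Eg F S) (hy : y ∉ S) :
    fm θ (s (supp (insert y S))) cf Eg F (insert y S) ≤ fm θ (s (supp S)) cf Eg F S +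
      (θ - 1) * fx θ (s (supp S)) cf Eg y F S + 6 * τ * fm θ (s (supp S)) cf Eg F S := by
  have e : supp (insert y S) = insert y.1 (insert y.2 (supp S)) := by
    ext v
    simp only [supp, image_insert, mem_union, mem_insert]
    tauto
  have g : ∀ v Y, supp S ⊆ Y →
      fm θ (s (insert v Y)) cf Eg F S ≤ (1 + τ) * fm θ (s Y) cf Eg F S := fun v Y h => by
    by_cases hv : v ∈ Y
    · rw [insert_eq_of_mem hv]
      exact le_mul_of_one_le_left (fm_nonneg hθ hc) (by linarith)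
    · exact grow v Y hv fun c => hv (h c)
  have a1 := g y.2 _ (Subset.refl _)
  have a2 := g y.1 _ (subset_insert y.2 _)
  have a4 := fx_mono (x := y) (Eg := Eg) (F := F) (S := S) hθ hc
    (mono _ _ ((subset_insert y.2 (supp S)).trans (subset_insert y.1 _)))
  have n := fm_nonneg (s := s (supp S)) (Eg := Eg) (F := F) (S := S) hθ hc
  rw [e, fm_S hy]
  set P := fm θ (s (supp S)) cf Eg F S
  set P2 := fm θ (s (insert y.1 (insert y.2 (supp S)))) cf Eg F S
  have tP : 0 ≤ τ * P := by positivity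
  have b1 : P2 ≤ P + 3 * τ * P := by nlinarith
  have b3 := mul_le_mul_of_nonneg_left (a4.trans (add_le_add le_rfl (sub_le_iff_le_add'.2 b1)))
    (sub_nonneg.2 hθ)
  nlinarith

lemma grid_step {σ η : ℝ} {R : ℕ} (hθ : 1 ≤ θ) (hθ2 : θ ≤ 2) (h1 : τ ≤ 1) (s0 : 0 ≤ σ)
    (hσ : σ * (4 * R) ≤ τ) (e0 : 0 ≤ η) (e1 : η ≤ 1) (hy : y ∉ S) :
    fm θ (gS R (supp (insert y S))) (gC σ η) gE F (insert y S) ≤
      fm θ (gS R (supp S)) (gC σ η) gE F S + (θ - 1) * fx θ (gS R (supp S)) (gC σ η) gE y F S +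
        6 * τ * fm θ (gS R (supp S)) (gC σ η) gE F S := by
  have h0 : 0 ≤ τ := le_trans (by positivity) hσ
  refine fam_step (gS R) hθ hθ2 h0 h1 (gC_nonneg s0 e0 e1) (fun _ _ => gS_mono)
    (fun v Y _ hv => (grid_grow hθ s0 e0 e1 hv).trans (mul_le_mul_of_nonneg_right ?_
      (fm_nonneg hθ (gC_nonneg s0 e0 e1)))) hy
  calc _ ≤ exp σ ^ (R + R) := by gcongr; linarith [add_one_le_exp σ]
    _ ≤ exp (τ / 2) := by
      rw [← exp_nat_mul]
      push_cast
      exact exp_le_exp.2 (by linarith)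
    _ ≤ _ := by
      refine (exp_bound_div_one_sub_of_interval (by linarith) (by linarith)).trans ?_
      rw [div_le_iff₀ (by linarith)]
      nlinarith

/-- the cover number of `U` is at least `l` -/
def Big (S : Finset (V × V)) (l : ℕ) (U : Finset V) : Prop :=
  ∀ I ⊆ U, Ind S I → I.card + l ≤ U.card

def mS (S : Finset (V × V)) (l r : ℕ) (Y : Finset V) : Finset (Finset V) :=
  Y.powerset.filter fun U => U.card ≤ r ∧ Big S l U

def mC (a M : ℝ) (U : Finset V) : ℝ := a * M⁻¹ ^ U.card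

variable {a M : ℝ} {l r : ℕ}

lemma main_grow (hθ : 1 ≤ θ) (ha : 0 ≤ a) (hM : 0 ≤ M) {v : V} (hY : v ∉ Y)
    (hv : v ∉ supp S) : fm θ (mS S l r (insert v Y)) (mC a M) Ed F S ≤
      (1 + M⁻¹) * fm θ (mS S l r Y) (mC a M) Ed F S := by
  simp only [fm, mS, sum_filter]
  rw [sum_powerset_insert hY, add_mul, one_mul, mul_sum]
  refine add_le_add le_rfl (sum_le_sum fun U hU => ?_)
  have vU := notMem_mono (mem_powerset.1 hU) hY
  have n : 0 ≤ mC a M U * mon θ F S (Ed U) := mul_nonneg (by unfold mC; positivity) (mon_nonneg hθ)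
  by_cases h : (insert v U).card ≤ r ∧ Big S l (insert v U)
  · have hb : Big S l U := fun I hI i => by
      have := h.2 (insert v I) (insert_subset_insert _ hI) fun b hb c hc k =>
        i b ((mem_insert.1 hb).resolve_left fun e => hv (e ▸ (pr_supp k).1)) c
          ((mem_insert.1 hc).resolve_left fun e => hv (e ▸ (pr_supp k).2)) k
      rw [card_insert_of_notMem vU, card_insert_of_notMem (notMem_mono hI vU)] at this
      omega
    rw [if_pos h, if_pos ⟨(card_le_card (subset_insert _ _)).trans h.1, hb⟩, ← mul_assoc]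
    refine mul_le_mul (le_of_eq ?_) (mon_le hθ (Ed_sub (subset_insert _ _)) fun e he eS => ?_)
      (mon_nonneg hθ) (by unfold mC; positivity)
    · unfold mC
      rw [card_insert_of_notMem vU]
      ring
    · obtain ⟨c1, c2, c3⟩ := mem_Ed.1 he
      obtain ⟨d1, d2⟩ := pr_supp ((pr_self c3).symm ▸ eS : pr e.1 e.2 ∈ S)
      exact mem_Ed.2 ⟨(mem_insert.1 c1).resolve_left fun k => hv (k ▸ d1),
        (mem_insert.1 c2).resolve_left fun k => hv (k ▸ d2), c3⟩
  · rw [if_neg h]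
    split_ifs
    exacts [by positivity, by simp]

lemma enter {K : ℝ} (hθ : 1 ≤ θ) (ha : 0 ≤ a) (hM : 0 < M) (hK : 0 ≤ K)
    (h : ∀ k, k + l ≤ r → ∑ X ∈ Y.powerset.filter (Rn (insert y S) l k l ∅),
      rel θ F (insert y S) ∅ X ≤ K * M ^ (k + 1)) :
    fm θ (mS (insert y S) l r Y) (mC a M) Ed F (insert y S) ≤
      fm θ (mS S l r Y) (mC a M) Ed F (insert y S) + (r + 1) * (a * M⁻¹ ^ l * (K * M)) := by
  have c0 : ∀ U : Finset V, 0 ≤ mC a M U := fun U => by unfold mC; positivity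
  refine (le_fm hθ c0 (subset_union_left (s₂ := mS S l r Y))).trans ?_
  rw [fm, ← sum_sdiff subset_union_right, add_comm]
  refine add_le_add le_rfl ((sum_mark _ ((range (r + 1)).filter fun k => k + l ≤ r) (fun _ => ∅)
    (fun k => Y.powerset.filter (Rn (insert y S) l k l ∅)) _
    (fun k X => a * M⁻¹ ^ (k + l) * rel θ F (insert y S) ∅ X)
    (fun _ _ => mul_nonneg (by positivity) (rel_nonneg hθ)) fun U hU => ?_).trans ?_)
  · obtain ⟨h1, h2⟩ := mem_sdiff.1 hU
    obtain ⟨h3, h4, h5⟩ := mem_filter.1 ((mem_union.1 h1).resolve_right h2)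
    have h6 : ¬ Big S l U := fun c => h2 (mem_filter.2 ⟨h3, h4, c⟩)
    simp only [Big, not_forall, not_le] at h6
    obtain ⟨I, i1, i2, i3⟩ := h6
    have i4 : Ind (insert y S) (I.erase y.1) := fun b hb c hc k =>
      (mem_insert.1 k).elim (fun e => by
        unfold pr at e
        split_ifs at e
        exacts [(mem_erase.1 hb).1 (congrArg Prod.fst e), (mem_erase.1 hc).1 (congrArg Prod.fst e)])
        (i2 b (mem_of_mem_erase hb) c (mem_of_mem_erase hc))
    have i5 := (erase_subset y.1 I).trans i1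
    have i6 := h5 _ i5 i4
    have i7 := pred_card_le_card_erase (s := I) (a := y.1)
    have i8 : (I.erase y.1).card + l = U.card := by omega
    refine ⟨(I.erase y.1).card, mem_filter.2 ⟨mem_range.2 (by omega), by omega⟩, empty_subset _,
      ?_, ?_⟩ <;> rw [sdiff_empty]
    · exact mem_filter.2 ⟨h3, Rn.start i5 i4 i8 h5⟩
    · simp [mC, i8, rel, Ed]
  · refine (sum_le_card_nsmul _ _ (a * M⁻¹ ^ l * (K * M)) fun k hk => ?_).trans ?_
    · rw [← mul_sum]
      refine (mul_le_mul_of_nonneg_left (h k (mem_filter.1 hk).2) (by positivity)).trans_eq ?_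
      simp only [pow_add, inv_pow]
      field_simp
    · rw [nsmul_eq_mul]
      refine mul_le_mul_of_nonneg_right ?_ (by positivity)
      exact_mod_cast (card_filter_le _ _).trans_eq (card_range _)

theorem pot_of {G δ ρ : ℝ} {N R h : ℕ} (hθ : 1 ≤ θ) (hθ2 : θ ≤ 2) (h0 : 0 < τ) (h1 : τ ≤ 1)
    (d0 : 0 < δ) (d1 : δ ≤ 1) (hR : 1 ≤ R) (hh : 256 * R ≤ δ * h) (l1 : 1 ≤ l) (lr : l < r)
    (H4 : 16 * G < (τ / (4 * R)) ^ (4 * R) * exp (R ^ 2 * δ ^ 2 / 7200))
    (H5 : ((τ / 4)⁻¹ + θ ^ l) * log (16 * G * (τ / 4)⁻¹ ^ r) ≤ M) (hM : τ⁻¹ ≤ M)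
    (hρ : 2 * ((l * (h + 2) + h + 2 * R : ℕ) : ℝ) ≤ ρ)
    (hρ2 : 2 * (N * (1 + δ) ^ l * θ) ≤ ρ ^ 2 * θ ^ l)
    (Hc : 2 * G * ((r + 1) * (ρ ^ l * θ ^ gx l l 0 * M) * M ^ (r - l)) < τ * θ ^ r.choose 2) :
    ∃ psi psx, Pot (V := V) θ τ G N r psi psx := by
  have M1 : 1 ≤ M := (one_le_inv₀ h0).2 h1 |>.trans hM
  have R1 : (1 : ℝ) ≤ R := by exact_mod_cast hR
  have ρ0 : 0 < ρ := lt_of_lt_of_le (by exact_mod_cast (by omega)) hρ
  obtain ⟨K, hK⟩ : ∃ K, K = ρ ^ l * θ ^ gx l l 0 := ⟨_, rfl⟩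
  have K0 : 0 < K := by rw [hK]; positivity
  obtain ⟨a, ha⟩ : ∃ a, a = τ * M ^ l / ((r + 1) * (K * M)) := ⟨_, rfl⟩
  have a0 : 0 ≤ a := by rw [ha]; positivity
  have s4 : 0 ≤ τ / (4 * R) := by positivity
  have s5 : 0 ≤ τ / 4 := by positivity
  have e0 : 0 ≤ δ / 1800 := by positivity
  have e1 : δ / 1800 ≤ 1 := by linarith
  have c4 := gC_nonneg (V := V) (R := R) s4 e0 e1
  have c5 := gC_nonneg (V := V) (R := 1) s5 zero_le_one le_rfl
  have c6 : ∀ U : Finset V, 0 ≤ mC a M U := fun U => by unfold mC; positivity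
  refine ⟨fun F S => (fm θ (gS R (supp S)) (gC (τ / (4 * R)) (δ / 1800)) gE F S +
      fm θ (gS 1 (supp S)) (gC (τ / 4) 1) gE F S + fm θ (mS S l r (supp S)) (mC a M) Ed F S) / 2,
    fun x F S => (fx θ (gS R (supp S)) (gC (τ / (4 * R)) (δ / 1800)) gE x F S +
      fx θ (gS 1 (supp S)) (gC (τ / 4) 1) gE x F S +
        fx θ (mS S l r (supp S)) (mC a M) Ed x F S) / 2,
    fun F S => ?_, fun x F S => ?_, fun x F S => ?_, fun x y F S => ?_,
    fun y F S hS hy yS hN hG => ?_, ?_, fun F S Q hF hd hG hQ e => ?_⟩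
  · exact div_nonneg (add_nonneg (add_nonneg (fm_nonneg hθ c4) (fm_nonneg hθ c5)) (fm_nonneg hθ c6))
      zero_le_two
  · exact div_nonneg (add_nonneg (add_nonneg (fx_nonneg hθ c4) (fx_nonneg hθ c5)) (fx_nonneg hθ c6))
      zero_le_two
  · simp only [fm_F]
    ring
  · exact div_le_div_of_nonneg_right (add_le_add (add_le_add (fx_F hθ c4) (fx_F hθ c5)) (fx_F hθ c6))
      zero_le_two
  · have b4 := grid_step (F := F) hθ hθ2 h1 s4 (div_mul_cancel₀ _ (by positivity)).le e0 e1 yS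
    have b5 := grid_step (F := F) (R := 1) hθ hθ2 h1 s5 (by norm_num) zero_le_one le_rfl yS
    have b6 := fam_step (F := F) (Eg := Ed) (mS S l r) hθ hθ2 h0.le h1 c6
      (fun _ _ k => filter_subset_filter _ (powerset_mono.2 k)) (fun v Y k1 k2 =>
        (main_grow hθ a0 (by linarith) k1 k2).trans (mul_le_mul_of_nonneg_right
          (add_le_add le_rfl (inv_le_of_inv_le₀ h0 hM)) (fm_nonneg hθ c6))) yS
    have x4 := fx_le (s := gS R (supp S)) (Eg := gE) (y := y) (F := F) (S := S) hθ c4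
    have x5 := fx_le (s := gS 1 (supp S)) (Eg := gE) (y := y) (F := F) (S := S) hθ c5
    have o4 := grid_empty.ge.trans (le_fm (Eg := gE) (F := F) (S := S) hθ c4
      (gS_mono (empty_subset (supp S))))
    have o5 := grid_empty.ge.trans (le_fm (Eg := gE) (F := F) (S := S) hθ c5
      (gS_mono (empty_subset (supp S))))
    have o6 := fm_nonneg (s := mS S l r (supp S)) (Eg := Ed) (F := F) (S := S) hθ c6
    have bd : ∀ {P P' x : ℝ}, P' ≤ P + (θ - 1) * x + 6 * τ * P → x ≤ P → 1 ≤ P → P ≤ 2 * G →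
        P' ≤ 16 * G := fun k1 k2 k3 k4 => by
      nlinarith [mul_le_mul_of_nonneg_left k2 (sub_nonneg.2 hθ)]
    have A := grid4 hθ s4 hθ2 (by rw [div_le_one (by positivity)]; linarith) d0 d1
      (bd b4 x4 o4 (by linarith)) H4
    have B := fun B hB => (grid5 (l := l) (r := r) hθ s5 (by positivity) (by linarith)
      (Subset.refl _) (bd b5 x5 o5 (by linarith)) B hB).trans H5
    have E := enter (Y := supp (insert y S)) (y := y) (S := S) (F := F) (r := r) hθ a0
      (by linarith : 0 < M) K0.le fun k hk => by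
        have := run (C := N) hθ hθ2 (hS.insert hy) d0 (by exact_mod_cast (by omega)) M1 A hR hh
          (Subset.refl _) hk B hρ hρ2 l ∅ ∅ ∅ 0 0 (Subset.refl _) (by simp) (by simp) (by simp)
          (by
            simp only [Om, mu, disjoint_empty_right, if_true, bip, empty_product, image_empty,
              mon_empty, sum_const, nsmul_eq_mul, mul_one, pow_zero, card_insert_of_notMem yS]
            exact_mod_cast hN) (by simp)
        rw [union_empty, Nat.cast_zero, ← hK] at this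
        exact this
    rw [show (r + 1) * (a * M⁻¹ ^ l * (K * M)) = τ by rw [ha, inv_pow]; field_simp] at E
    nlinarith [mul_le_mul_of_nonneg_left o4 h0.le, mul_le_mul_of_nonneg_left o5 h0.le,
      mul_nonneg h0.le o6]
  · have : mS (∅ : Finset (V × V)) l r ∅ = ∅ := filter_eq_empty_iff.2 fun U hU c => by
      have := c.2 ∅ (empty_subset _) (by simp [Ind])
      rw [subset_empty.1 (mem_powerset.1 hU), card_empty] at this
      omega
    rw [show supp (∅ : Finset (V × V)) = ∅ by simp [supp], grid_empty, grid_empty, this]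
    simp [fm]
  · have sub : Q ⊆ supp S := fun v hv => by
      obtain ⟨w, hw, ne⟩ := exists_mem_ne (show 1 < Q.card by omega) v
      rcases lt_or_gt_of_ne ne with l | l
      · exact mem_union_right _ (mem_image_of_mem _ (hQ w hw v hv l))
      · exact mem_union_left _ (mem_image_of_mem _ (hQ v hv w hw l))
    have es : Ed Q ⊆ S := fun e he => hQ _ (mem_Ed.1 he).1 _ (mem_Ed.1 he).2.1 (mem_Ed.1 he).2.2
    have b := single_le_sum (f := fun U => mC a M U * mon θ F S (Ed U))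
      (fun U _ => mul_nonneg (c6 U) (mon_nonneg hθ)) (show Q ∈ mS S l r (supp S) from
        mem_filter.2 ⟨mem_powerset.2 sub, e.le, fun I i1 i2 => by
          have : I.card ≤ 1 := card_le_one.2 fun b hb c hc => by
            by_contra k
            rcases lt_or_gt_of_ne k with k | k
            · exact i2 b hb c hc (by rw [pr, if_pos k]; exact hQ b (i1 hb) c (i1 hc) k)
            · exact i2 c hc b hb (by rw [pr, if_pos k]; exact hQ c (i1 hc) b (i1 hb) k)
          omega⟩)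
    have o4 := fm_nonneg (s := gS R (supp S)) (Eg := gE) (F := F) (S := S) hθ c4
    have o5 := fm_nonneg (s := gS 1 (supp S)) (Eg := gE) (F := F) (S := S) hθ c5
    have b' : mC a M Q * mon θ F S (Ed Q) ≤ 2 * G := b.trans (by unfold fm at *; linarith)
    rw [mC, mon, if_pos (hd.symm.mono_left es), inter_eq_left.2 es, card_Ed, e, ha] at b'
    obtain ⟨i, rfl⟩ := Nat.exists_eq_add_of_le lr.le
    rw [← hK, Nat.add_sub_cancel_left] at Hc
    refine Hc.not_ge (le_trans (le_of_eq ?_) (mul_le_mul_of_nonneg_right b' (by positivity)))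
    simp only [pow_add, inv_pow]
    field_simp

end Pool.Agent.Lib.MP_4a944d_co.Hc
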